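import Mathlib
import Pool.Agent.Helper669.KA2

set_option autoImplicit false

/-!
# Basic notions: the cardinal `κ`, iterated power sets below `κ`, partial functions
-/

namespace Run7.h699

open Cardinal Set Pool.Agent.Helper669.K Pool.Agent.Helper669.Forcing

/-- `κ` is an uncountable regular strong limit -/
structure Inacc (κ : Cardinal.{0}) : Prop where
  unc : ℵ₀ < κ
  reg : κ.IsRegular
  lim : ∀ μ < κ, (2 : Cardinal.{0}) ^ μ < κ

/-- the ordinals below `κ` -/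
abbrev KK (κ : Cardinal.{0}) : Type := κ.ord.ToType

/-- the ordinals below `κ⁺⁺` -/
abbrev II (κ : Cardinal.{0}) : Type := (Order.succ (Order.succ κ)).ord.ToType

section

variable {κ : Cardinal.{0}}

theorem mk_KK : #(KK κ) = κ := mk_ord_toType κ

theorem mk_II : #(II κ) = Order.succ (Order.succ κ) := mk_ord_toType _

theorem mk_Iio_KK (b : KK κ) : #(Iio b) < κ := by
  have := Cardinal.mk_Iio_lt b (by simp)
  rwa [mk_KK] at this

theorem Inacc.inf (h : Inacc κ) : ℵ₀ ≤ κ := h.unc.le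

theorem Inacc.pos (h : Inacc κ) : 0 < κ := aleph0_pos.trans h.unc

theorem Inacc.nonempty (h : Inacc κ) : Nonempty (KK κ) := by
  rw [← mk_ne_zero_iff, mk_KK]; exact h.pos.ne'

theorem Inacc.nonemptyI : Nonempty (II κ) := by
  rw [← mk_ne_zero_iff, mk_II]; exact (zero_le.trans_lt (Order.lt_succ _)).ne'

/-- small subsets of `κ` are bounded -/
theorem Inacc.bdd (h : Inacc κ) {S : Set (KK κ)} (hS : #S < κ) : ∃ b, ∀ s ∈ S, s < b := by
  by_contra hcon
  push Not at hcon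
  have hcof : IsCofinal S := fun b => by
    obtain ⟨s, hs, hbs⟩ := hcon b
    exact ⟨s, hs, hbs⟩
  have h1 := Order.cof_le hcof
  rw [Ordinal.cof_toType, h.reg.cof_ord] at h1
  exact absurd hS (not_lt.2 h1)

theorem Inacc.bdd_range (h : Inacc κ) {ι : Type} (hι : #ι < κ) (f : ι → KK κ) :
    ∃ b, ∀ i, f i < b := by
  obtain ⟨b, hb⟩ := h.bdd (S := range f) (mk_range_le.trans_lt hι)
  exact ⟨b, fun i => hb _ ⟨i, rfl⟩⟩

theorem Inacc.exists_gt (h : Inacc κ) (a : KK κ) : ∃ b, a < b := by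
  obtain ⟨b, hb⟩ := h.bdd (S := {a}) (by
    rw [mk_singleton]; exact one_lt_aleph0.trans h.unc)
  exact ⟨b, hb a rfl⟩

theorem Inacc.exists_gt₂ (h : Inacc κ) (a b : KK κ) : ∃ c, a < c ∧ b < c := by
  obtain ⟨c, hc⟩ := h.exists_gt (max a b)
  exact ⟨c, (le_max_left _ _).trans_lt hc, (le_max_right _ _).trans_lt hc⟩

theorem exists_pt {θ : Cardinal.{0}} (h : θ < κ) : ∃ z : KK κ, #(Iio z) = θ := by
  have h1 : θ.ord < κ.ord := ord_lt_ord.2 h
  refine ⟨Ordinal.ToType.mk ⟨θ.ord, h1⟩, ?_⟩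
  have h2 : #(Iio (Ordinal.ToType.mk (⟨θ.ord, h1⟩ : Iio κ.ord))) = #(θ.ord.ToType) := by
    have e : Iio (Ordinal.ToType.mk (⟨θ.ord, h1⟩ : Iio κ.ord)) ≃ θ.ord.ToType := by
      refine Equiv.trans ?_ (Ordinal.ToType.mk (o := θ.ord)).toEquiv
      refine
        { toFun := fun x => ⟨((Ordinal.ToType.mk (o := κ.ord)).symm x.1).1, ?_⟩
          invFun := fun y => ⟨Ordinal.ToType.mk ⟨y.1, (show y.1 < θ.ord from y.2).trans h1⟩, ?_⟩
          left_inv := ?_
          right_inv := ?_ }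
      · have hx : x.1 < Ordinal.ToType.mk (⟨θ.ord, h1⟩ : Iio κ.ord) := x.2
        rw [← (Ordinal.ToType.mk (o := κ.ord)).symm.lt_iff_lt] at hx
        have h3 : (Ordinal.ToType.mk (o := κ.ord)).symm x.1 < ⟨θ.ord, h1⟩ := by simpa using hx
        exact h3
      · show Ordinal.ToType.mk _ < Ordinal.ToType.mk _
        rw [(Ordinal.ToType.mk (o := κ.ord)).lt_iff_lt]
        exact y.2
      · intro x
        simp
      · intro y
        simp
    exact mk_congr e
  rw [h2, mk_ord_toType]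

/-- the iterated power sets of (the set of the predecessors of) `ξ` -/
noncomputable def w : ℕ → KK κ → Cardinal.{0}
  | 0, ξ => max ℵ₀ #(Iio ξ)
  | n + 1, ξ => 2 ^ w n ξ

theorem w_zero (ξ : KK κ) : w 0 ξ = max ℵ₀ #(Iio ξ) := rfl

theorem w_succ (n : ℕ) (ξ : KK κ) : w (n + 1) ξ = 2 ^ w n ξ := rfl

theorem w_lt_succ (n : ℕ) (ξ : KK κ) : w n ξ < w (n + 1) ξ := cantor _

theorem w_strictMono (ξ : KK κ) : StrictMono fun n => w n ξ :=
  strictMono_nat_of_lt_succ fun n => w_lt_succ n ξ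

theorem w_lt {n m : ℕ} (h : n < m) (ξ : KK κ) : w n ξ < w m ξ := w_strictMono ξ h

theorem w_le {n m : ℕ} (h : n ≤ m) (ξ : KK κ) : w n ξ ≤ w m ξ := (w_strictMono ξ).monotone h

theorem aleph0_le_w (n : ℕ) (ξ : KK κ) : ℵ₀ ≤ w n ξ := (le_max_left _ _).trans (w_le (Nat.zero_le n) ξ)

theorem mk_Iio_le_w (n : ℕ) (ξ : KK κ) : #(Iio ξ) ≤ w n ξ :=
  (le_max_right _ _).trans (w_le (Nat.zero_le n) ξ)

theorem w_ne_zero (n : ℕ) (ξ : KK κ) : w n ξ ≠ 0 := (aleph0_pos.trans_le (aleph0_le_w n ξ)).ne'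

theorem one_le_w (n : ℕ) (ξ : KK κ) : 1 ≤ w n ξ := one_lt_aleph0.le.trans (aleph0_le_w n ξ)

theorem two_le_w (n : ℕ) (ξ : KK κ) : 2 ≤ w n ξ := ofNat_lt_aleph0.le.trans (aleph0_le_w n ξ)

theorem w_mul_self (n : ℕ) (ξ : KK κ) : w n ξ * w n ξ = w n ξ := mul_eq_self (aleph0_le_w n ξ)

theorem w_mul_le {n : ℕ} {ξ : KK κ} {a b : Cardinal.{0}} (ha : a ≤ w n ξ) (hb : b ≤ w n ξ) :
    a * b ≤ w n ξ := (mul_le_mul' ha hb).trans (w_mul_self n ξ).le

theorem w_add_le {n : ℕ} {ξ : KK κ} {a b : Cardinal.{0}} (ha : a ≤ w n ξ) (hb : b ≤ w n ξ) :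
    a + b ≤ w n ξ := (add_le_add ha hb).trans (add_eq_self (aleph0_le_w n ξ)).le

theorem w_power_le {n : ℕ} {ξ : KK κ} {a b : Cardinal.{0}} (ha : a ≤ w (n + 1) ξ)
    (hb : b ≤ w n ξ) : a ^ b ≤ w (n + 1) ξ := by
  calc a ^ b ≤ (w (n + 1) ξ) ^ b := power_le_power_right ha
    _ ≤ (w (n + 1) ξ) ^ (w n ξ) := power_le_power_left (w_ne_zero _ _) hb
    _ = w (n + 1) ξ := by rw [w_succ, ← power_mul, w_mul_self]

theorem w_mk_set_le {n : ℕ} {ξ : KK κ} {α : Type} (h : #α ≤ w n ξ) : #(Set α) ≤ w (n + 1) ξ := by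
  rw [mk_set, w_succ]; exact power_le_power_left two_ne_zero h

theorem w_lt_kappa (h : Inacc κ) (n : ℕ) (ξ : KK κ) : w n ξ < κ := by
  induction n with
  | zero => exact max_lt h.unc (mk_Iio_KK ξ)
  | succ n ih => exact h.lim _ ih

open Classical in
/-- an ordinal with exactly `w n ξ` predecessors -/
noncomputable def pt (n : ℕ) (ξ : KK κ) : KK κ :=
  if h : ∃ z : KK κ, #(Iio z) = w n ξ then h.choose else ξ

theorem mk_Iio_pt (h : Inacc κ) (n : ℕ) (ξ : KK κ) : #(Iio (pt n ξ)) = w n ξ := by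
  have h1 := exists_pt (w_lt_kappa h n ξ)
  rw [pt, dif_pos h1]
  exact h1.choose_spec

theorem lt_of_mk_Iio_lt {a b : KK κ} (h : #(Iio a) < #(Iio b)) : a < b := by
  by_contra hcon
  exact absurd h (not_lt.2 (mk_le_mk_of_subset (Iio_subset_Iio (not_lt.1 hcon))))

theorem pt_lt_pt (h : Inacc κ) {n m : ℕ} (hnm : n < m) (ξ : KK κ) : pt n ξ < pt m ξ :=
  lt_of_mk_Iio_lt (by rw [mk_Iio_pt h, mk_Iio_pt h]; exact w_lt hnm ξ)

theorem pt_le_pt (h : Inacc κ) {n m : ℕ} (hnm : n ≤ m) (ξ : KK κ) : pt n ξ ≤ pt m ξ := by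
  rcases hnm.eq_or_lt with rfl | h1
  · exact le_rfl
  · exact (pt_lt_pt h h1 ξ).le

theorem lt_pt (h : Inacc κ) {n : ℕ} (hn : 0 < n) (ξ : KK κ) : ξ < pt n ξ :=
  lt_of_mk_Iio_lt (by
    rw [mk_Iio_pt h]
    exact (mk_Iio_le_w 0 ξ).trans_lt (w_lt hn ξ))

/-! ### partial functions -/

/-- inclusion of partial functions -/
def PSub {A B : Type} (f g : A → Option B) : Prop := ∀ a b, f a = some b → g a = some b

theorem PSub.refl {A B : Type} (f : A → Option B) : PSub f f := fun _ _ h => h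

theorem PSub.trans {A B : Type} {f g h : A → Option B} (h1 : PSub f g) (h2 : PSub g h) :
    PSub f h := fun a b e => h2 a b (h1 a b e)

theorem PSub.ne_none {A B : Type} {f g : A → Option B} (h : PSub f g) {a : A} (ha : f a ≠ none) :
    g a ≠ none := by
  obtain ⟨b, hb⟩ := Option.ne_none_iff_exists'.1 ha
  rw [h a b hb]; simp

theorem PSub.antisymm {A B : Type} {f g : A → Option B} (h1 : PSub f g) (h2 : PSub g f) :
    f = g := by
  funext a
  cases hf : f a with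
  | none =>
    cases hg : g a with
    | none => rfl
    | some b => rw [h2 a b hg] at hf; exact absurd hf (by simp)
  | some b => exact (h1 a b hf).symm

/-- the domain of a partial function -/
def dm {A B : Type} (f : A → Option B) : Set A := {a | f a ≠ none}

theorem mem_dm {A B : Type} {f : A → Option B} {a : A} : a ∈ dm f ↔ f a ≠ none := Iff.rfl

theorem mem_dm_iff {A B : Type} {f : A → Option B} {a : A} : a ∈ dm f ↔ ∃ b, f a = some b :=
  Option.ne_none_iff_exists'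

theorem PSub.dm_subset {A B : Type} {f g : A → Option B} (h : PSub f g) : dm f ⊆ dm g :=
  fun _ ha => h.ne_none ha

/-- pairwise compatible partial functions -/
def PCompat {A B ι : Type} (F : ι → A → Option B) : Prop :=
  ∀ i j a b b', F i a = some b → F j a = some b' → b = b'

open Classical in
/-- the union of partial functions -/
noncomputable def pU {A B ι : Type} (F : ι → A → Option B) : A → Option B := fun a =>
  if h : ∃ i b, F i a = some b then some h.choose_spec.choose else none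

theorem pU_eq_some {A B ι : Type} {F : ι → A → Option B} (hF : PCompat F) {a : A} {b : B} :
    pU F a = some b ↔ ∃ i, F i a = some b := by
  unfold pU
  constructor
  · intro h
    split_ifs at h with h1
    have h2 := h1.choose_spec.choose_spec
    rw [Option.some.injEq] at h
    exact ⟨h1.choose, h ▸ h2⟩
  · rintro ⟨i, hi⟩
    have h1 : ∃ i b, F i a = some b := ⟨i, b, hi⟩
    rw [dif_pos h1]
    have h2 := h1.choose_spec.choose_spec
    rw [hF _ _ _ _ _ h2 hi]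

theorem le_pU {A B ι : Type} {F : ι → A → Option B} (hF : PCompat F) (i : ι) :
    PSub (F i) (pU F) := fun _ _ h => (pU_eq_some hF).2 ⟨i, h⟩

theorem pU_le {A B ι : Type} {F : ι → A → Option B} (hF : PCompat F) {g : A → Option B}
    (h : ∀ i, PSub (F i) g) : PSub (pU F) g := by
  intro a b hab
  obtain ⟨i, hi⟩ := (pU_eq_some hF).1 hab
  exact h i a b hi

theorem dm_pU {A B ι : Type} {F : ι → A → Option B} (hF : PCompat F) :
    dm (pU F) = ⋃ i, dm (F i) := by
  ext a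
  rw [mem_dm_iff, mem_iUnion]
  constructor
  · rintro ⟨b, hb⟩
    obtain ⟨i, hi⟩ := (pU_eq_some hF).1 hb
    exact ⟨i, mem_dm_iff.2 ⟨b, hi⟩⟩
  · rintro ⟨i, hi⟩
    obtain ⟨b, hb⟩ := mem_dm_iff.1 hi
    exact ⟨b, (pU_eq_some hF).2 ⟨i, hb⟩⟩

theorem PCompat_of_directed {A B ι : Type} {F : ι → A → Option B}
    (h : ∀ i j, ∃ k, PSub (F i) (F k) ∧ PSub (F j) (F k)) : PCompat F := by
  intro i j a b b' h1 h2
  obtain ⟨k, hi, hj⟩ := h i j
  have h3 := hi a b h1
  rw [hj a b' h2] at h3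
  exact (Option.some.inj h3).symm

/-! ### The collapsing conditions -/

/-- partial functions from `κ` to `κ` -/
abbrev CC (κ : Cardinal.{0}) : Type := KK κ → Option (KK κ)

/-- The conditions at `ξ`: partial functions of size at most `w 9 ξ`, defined on some of the
`w 10 ξ` predecessors of `pt 10 ξ`. -/
def RR (ξ : KK κ) : Set (CC κ) := {c | #(dm c) ≤ w 9 ξ ∧ ∀ a ∈ dm c, a < pt 10 ξ}

theorem RR_mono {ξ : KK κ} {c c' : CC κ} (h : c ∈ RR ξ) (hc : PSub c' c) : c' ∈ RR ξ :=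
  ⟨(mk_le_mk_of_subset hc.dm_subset).trans h.1, fun a ha => h.2 a (hc.dm_subset ha)⟩

theorem empty_mem_RR (ξ : KK κ) : (fun _ => none : CC κ) ∈ RR ξ := by
  have h : dm (fun _ => none : CC κ) = ∅ := by
    ext a; simp [dm]
  refine ⟨?_, fun a ha => ?_⟩
  · rw [h, mk_eq_zero]; exact zero_le
  · rw [h] at ha; exact absurd ha (notMem_empty a)

theorem pU_mem_RR {ξ : KK κ} {ι : Type} (hι : #ι ≤ w 9 ξ) {F : ι → CC κ} (hF : PCompat F)
    (h : ∀ i, F i ∈ RR ξ) : pU F ∈ RR ξ := by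
  refine ⟨?_, fun a ha => ?_⟩
  · rw [dm_pU hF]
    exact (mk_iUnion_le _).trans (w_mul_le hι (ciSup_le' fun i => (h i).1))
  · rw [dm_pU hF] at ha
    obtain ⟨i, hi⟩ := mem_iUnion.1 ha
    exact (h i).2 a hi

/-- the poset of the conditions at `ξ` -/
structure RT (ξ : KK κ) where
  /-- the partial function -/
  c : CC κ
  mem : c ∈ RR ξ

instance (ξ : KK κ) : Preorder (RT ξ) where
  le a b := PSub b.c a.c
  le_refl a := PSub.refl a.c
  le_trans _ _ _ h h' := h'.trans h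

theorem RT_le {ξ : KK κ} {a b : RT ξ} : a ≤ b ↔ PSub b.c a.c := Iff.rfl

theorem dirClosed_RT (ξ : KK κ) : DirClosed (Order.succ (w 9 ξ)) (RT ξ) := by
  intro D hD _ hdir
  have hcomp : PCompat fun d : D => d.1.c := PCompat_of_directed fun i j => by
    obtain ⟨c, hc, h1, h2⟩ := hdir i.1 i.2 j.1 j.2
    exact ⟨⟨c, hc⟩, h1, h2⟩
  refine ⟨⟨pU fun d : D => d.1.c, pU_mem_RR (Order.lt_succ_iff.1 hD) hcomp fun d => d.1.mem⟩,
    fun a ha => ?_⟩
  exact le_pU hcomp (⟨a, ha⟩ : D)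

end

end Run7.h699
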