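import Mathlib
import Pool.Agent.Run7.h699.Base

set_option autoImplicit false

/-!
# The conditions
-/

namespace Run7.h699

open Cardinal Set Pool.Agent.Helper669.K Pool.Agent.Helper669.Forcing

/-- `ξ` is (the ordinal of) an infinite regular cardinal. -/
def RegPt {κ : Cardinal.{0}} (ξ : KK κ) : Prop :=
  ℵ₀ ≤ #(Iio ξ) ∧ ∀ S : Set (KK κ), (∀ z ∈ S, z < ξ) → #S < #(Iio ξ) → ∃ i < ξ, ∀ z ∈ S, z < i

/-- The combinatorial data from which the forcing notion is defined. -/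
structure Setup (κ : Cardinal.{0}) where
  /-- the points -/
  X : Type
  /-- the measure on the set of the points -/
  W : Ultrafilter X
  /-- the trace of a point on `κ` -/
  kap : X → KK κ
  /-- the trace of a point on `κ⁺⁺` -/
  mem : X → Set (II κ)
  /-- the values added by a point -/
  sv : II κ → X → KK κ
  /-- the collapsing conditions added by a point -/
  rs : X → CC κ
  complete : ∀ ι : Type, #ι < κ → ∀ A : ι → Set X, (∀ i, A i ∈ W) → (⋂ i, A i) ∈ W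
  normal : ∀ A : KK κ → Set X, (∀ i, A i ∈ W) → {x | ∀ i < kap x, x ∈ A i} ∈ W
  fineK : ∀ i, {x | i < kap x} ∈ W
  fineI : ∀ a, {x | a ∈ mem x} ∈ W
  cover : ∀ e : KK κ → II κ, {x | ∀ a ∈ mem x, a ∈ range e → ∃ i < kap x, e i = a} ∈ W
  mem_small : ∀ x, #(mem x) < κ
  regpt : ∀ x, RegPt (kap x)
  sv_lt : ∀ a x, sv a x < pt 5 (kap x)
  rs_mem : ∀ x, rs x ∈ RR (kap x)
  guide : ∀ D : KK κ → Set (CC κ),
    (∀ ξ, ∀ c ∈ D ξ, ∀ c' ∈ RR ξ, PSub c c' → c' ∈ D ξ) →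
    (∀ ξ, ∀ c ∈ RR ξ, ∃ c' ∈ RR ξ, PSub c c' ∧ c' ∈ D ξ) →
    ∃ C : KK κ → CC κ, (∀ ξ, C ξ ∈ RR ξ ∧ C ξ ∈ D ξ) ∧ {x | PSub (C (kap x)) (rs x)} ∈ W
  /-- the decoding of the values as subsets of `pt 4 ξ` -/
  B1 : KK κ → KK κ → Set (KK κ)
  B1_lt : ∀ ξ γ, ∀ β ∈ B1 ξ γ, β < pt 4 ξ
  B1_card : ∀ ξ γ, w 3 ξ < #(B1 ξ γ)
  capture : ∀ (e : KK κ → II κ) (a : II κ), (∀ i, e i < a) →
    ∀ Ψ : KK κ → KK κ → KK κ → (KK κ → KK κ) → KK κ → KK κ,
      (∀ γ δ ξ v β, Ψ γ δ ξ v β < pt 2 ξ) →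
      {x | ∀ γ < kap x, ∀ δ < kap x, ∀ β ∈ B1 (kap x) (sv a x), ∀ β' ∈ B1 (kap x) (sv a x),
        Ψ γ δ (kap x) (fun i => if i < kap x then sv (e i) x else i) β =
        Ψ γ δ (kap x) (fun i => if i < kap x then sv (e i) x else i) β'} ∈ W

section

variable {κ : Cardinal.{0}}

/-- entries of stems -/
abbrev Ent (κ : Cardinal.{0}) : Type := KK κ × CC κ

/-- stems; the head is the last entry -/
abbrev Stem (κ : Cardinal.{0}) : Type := List (Ent κ)

/-- stronger entries -/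
def entLe (e' e : Ent κ) : Prop := e'.1 = e.1 ∧ PSub e.2 e'.2

theorem entLe.refl (e : Ent κ) : entLe e e := ⟨rfl, PSub.refl _⟩

theorem entLe.trans {a b c : Ent κ} (h1 : entLe a b) (h2 : entLe b c) : entLe a c :=
  ⟨h1.1.trans h2.1, h2.2.trans h1.2⟩

/-- stronger stems of the same length -/
def sLe (s' s : Stem κ) : Prop := List.Forall₂ entLe s' s

theorem sLe.refl (s : Stem κ) : sLe s s := by
  induction s with
  | nil => exact List.Forall₂.nil
  | cons e s ih => exact List.Forall₂.cons (entLe.refl e) ih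

theorem sLe.trans {a b c : Stem κ} (h1 : sLe a b) (h2 : sLe b c) : sLe a c := by
  induction h1 generalizing c with
  | nil => exact h2
  | cons h1 _ ih =>
    cases h2 with
    | cons h3 h4 => exact List.Forall₂.cons (h1.trans h3) (ih h4)

theorem sLe.append {a b c d : Stem κ} (h1 : sLe a b) (h2 : sLe c d) : sLe (a ++ c) (b ++ d) := by
  induction h1 with
  | nil => exact h2
  | cons h _ ih => exact List.Forall₂.cons h ih

theorem sLe.length {a b : Stem κ} (h : sLe a b) : a.length = b.length := List.Forall₂.length_eq h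

theorem sLe_append_iff {s u v : Stem κ} (h : sLe s (u ++ v)) :
    ∃ u' v', s = u' ++ v' ∧ sLe u' u ∧ sLe v' v := by
  induction u generalizing s with
  | nil => exact ⟨[], s, rfl, List.Forall₂.nil, h⟩
  | cons e u ih =>
    cases h with
    | @cons e' _ s' _ h1 h2 =>
      obtain ⟨u', v', rfl, h3, h4⟩ := ih h2
      exact ⟨e' :: u', v', rfl, List.Forall₂.cons h1 h3, h4⟩

theorem sLe_cons_iff {s v : Stem κ} {e : Ent κ} (h : sLe s (e :: v)) :
    ∃ e' v', s = e' :: v' ∧ entLe e' e ∧ sLe v' v := by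
  cases h with
  | @cons e' _ s' _ h1 h2 => exact ⟨e', s', rfl, h1, h2⟩

/-- `e` lies below `i` -/
def EB (i : KK κ) (e : Ent κ) : Prop := pt 10 e.1 ≤ i ∧ ∀ a b, e.2 a = some b → b < i

theorem EB.mono {i j : KK κ} {e : Ent κ} (h : EB i e) (hij : i ≤ j) : EB j e :=
  ⟨h.1.trans hij, fun a b hab => (h.2 a b hab).trans_le hij⟩

theorem EB.of_le {i : KK κ} {e e' : Ent κ} (h : EB i e') (he : entLe e' e) : EB i e :=
  ⟨he.1 ▸ h.1, fun a b hab => h.2 a b (he.2 a b hab)⟩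

/-- `s` lies below `i` -/
def SB (i : KK κ) (s : Stem κ) : Prop := ∀ e ∈ s, EB i e

theorem SB.mono {i j : KK κ} {s : Stem κ} (h : SB i s) (hij : i ≤ j) : SB j s :=
  fun e he => (h e he).mono hij

theorem SB_nil (i : KK κ) : SB i ([] : Stem κ) := fun _ h => absurd h List.not_mem_nil

theorem SB_cons {i : KK κ} {e : Ent κ} {s : Stem κ} : SB i (e :: s) ↔ EB i e ∧ SB i s := by
  constructor
  · intro h
    exact ⟨h e List.mem_cons_self, fun e' he' => h e' (List.mem_cons_of_mem _ he')⟩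
  · rintro ⟨h1, h2⟩ e' he'
    rcases List.mem_cons.1 he' with rfl | h
    · exact h1
    · exact h2 e' h

theorem SB_append {i : KK κ} {u v : Stem κ} : SB i (u ++ v) ↔ SB i u ∧ SB i v := by
  constructor
  · intro h
    exact ⟨fun e he => h e (List.mem_append_left _ he), fun e he => h e (List.mem_append_right _ he)⟩
  · rintro ⟨h1, h2⟩ e he
    rcases List.mem_append.1 he with h | h
    · exact h1 e h
    · exact h2 e h

theorem SB.of_sLe {i : KK κ} {s s' : Stem κ} (h : SB i s') (hs : sLe s' s) : SB i s := by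
  induction hs with
  | nil => exact h
  | cons h1 _ ih =>
    rw [SB_cons] at h ⊢
    exact ⟨h.1.of_le h1, ih h.2⟩

/-- well-formed stems -/
def WF : Stem κ → Prop
  | [] => True
  | e :: s => e.2 ∈ RR e.1 ∧ RegPt e.1 ∧ (∃ i < e.1, SB i s) ∧ WF s

theorem WF_nil : WF ([] : Stem κ) := trivial

theorem WF_cons {e : Ent κ} {s : Stem κ} :
    WF (e :: s) ↔ e.2 ∈ RR e.1 ∧ RegPt e.1 ∧ (∃ i < e.1, SB i s) ∧ WF s := Iff.rfl

theorem WF.tail {e : Ent κ} {s : Stem κ} (h : WF (e :: s)) : WF s := h.2.2.2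

theorem WF.right {u v : Stem κ} (h : WF (u ++ v)) : WF v := by
  induction u with
  | nil => exact h
  | cons e u ih => exact ih h.tail

theorem WF.of_sLe {s s' : Stem κ} (h : WF s') (hs : sLe s' s) : WF s := by
  induction hs with
  | nil => exact h
  | @cons e' e s' s h1 h2 ih =>
    obtain ⟨h3, h4, ⟨i, hi, h5⟩, h6⟩ := h
    obtain ⟨h7, h8⟩ := h1
    refine ⟨?_, h7 ▸ h4, ⟨i, h7 ▸ hi, h5.of_sLe h2⟩, ih h6⟩
    rw [← h7]
    exact RR_mono h3 h8

/-- In a well formed stem everything after a given entry lies below it. -/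
theorem WF.bound {u v : Stem κ} (h : WF (u ++ v)) {e : Ent κ} (he : e ∈ u) :
    ∃ i < e.1, SB i v := by
  induction u with
  | nil => exact absurd he List.not_mem_nil
  | cons e' u ih =>
    rcases List.mem_cons.1 he with rfl | he
    · obtain ⟨i, hi, h1⟩ := h.2.2.1
      exact ⟨i, hi, (SB_append.1 h1).2⟩
    · exact ih h.tail he

/-- replacing the lower part -/
theorem WF.replace {u v v' : Stem κ} (h : WF (u ++ v)) (hv' : WF v')
    (hb : ∀ i, SB i v → SB i v') : WF (u ++ v') := by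
  induction u with
  | nil => exact hv'
  | cons e u ih =>
    obtain ⟨h3, h4, ⟨i, hi, h5⟩, h6⟩ := h
    rw [List.append_eq] at h5
    refine ⟨h3, h4, ⟨i, hi, ?_⟩, ih h6⟩
    rw [List.append_eq]
    rw [SB_append] at h5 ⊢
    exact ⟨h5.1, hb i h5.2⟩

/-- well-formed stems with a given entry followed by a part lying below it -/
theorem WF.replace_cons {u v v' : Stem κ} {e : Ent κ} (h0 : Inacc κ) (h : WF (u ++ e :: v))
    (hv' : WF (e :: v')) : WF (u ++ e :: v') := by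
  induction u with
  | nil => exact hv'
  | cons e' u ih =>
    obtain ⟨h3, h4, ⟨i, hi, h5⟩, h6⟩ := h
    rw [List.append_eq] at h5
    refine ⟨h3, h4, ⟨i, hi, ?_⟩, ih h6⟩
    rw [List.append_eq]
    rw [SB_append, SB_cons] at h5 ⊢
    refine ⟨h5.1, h5.2.1, ?_⟩
    obtain ⟨j, hj, hj'⟩ := hv'.2.2.1
    exact hj'.mono ((hj.trans (lt_pt h0 (by norm_num) _)).le.trans h5.2.1.1)

/-- the length of initial parts -/
theorem exists_SB (h0 : Inacc κ) {s : Stem κ} (h : WF s) : ∃ i : KK κ, SB i s := by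
  induction s with
  | nil => exact ⟨h0.nonempty.some, SB_nil _⟩
  | cons e s ih =>
    obtain ⟨i, hi⟩ := ih h.tail
    obtain ⟨b, hb⟩ := h0.bdd (S := {b | ∃ a, e.2 a = some b}) (by
      refine lt_of_le_of_lt ?_ (h.1.1.trans_lt (w_lt_kappa h0 9 e.1))
      refine mk_le_of_surjective (f := fun a : dm e.2 =>
        (⟨(e.2 a.1).get (Option.isSome_iff_ne_none.2 a.2), a.1, by simp⟩ :
          {b | ∃ a, e.2 a = some b})) ?_
      rintro ⟨b, a, hab⟩
      exact ⟨⟨a, by rw [mem_dm, hab]; simp⟩, by simp [hab]⟩)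
    refine ⟨max (max i b) (pt 10 e.1), SB_cons.2 ⟨⟨le_max_right _ _, fun a c hac => ?_⟩,
      hi.mono ((le_max_left _ _).trans (le_max_left _ _))⟩⟩
    exact (hb c ⟨a, hac⟩).trans_le ((le_max_right _ _).trans (le_max_left _ _))

/-! ### The second part of the conditions -/

/-- partial functions from `κ⁺⁺` to the set of functions from `κ` to `κ` -/
abbrev TT (κ : Cardinal.{0}) : Type := II κ → Option (KK κ → KK κ)

variable (𝔖 : Setup κ)

open Classical in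
/-- the change made by a point -/
noncomputable def upd (x : 𝔖.X) (t : TT κ) : TT κ := fun a =>
  if a ∈ 𝔖.mem x then (t a).map (fun f => Function.update f (𝔖.kap x) (𝔖.sv a x)) else t a

theorem dm_upd (x : 𝔖.X) (t : TT κ) : dm (upd 𝔖 x t) = dm t := by
  ext a
  unfold upd dm
  simp only [mem_setOf_eq]
  split_ifs <;> simp

theorem upd_eq_some {x : 𝔖.X} {t : TT κ} {a : II κ} {g : KK κ → KK κ} :
    upd 𝔖 x t a = some g ↔ ∃ f, t a = some f ∧
      ((a ∈ 𝔖.mem x ∧ g = Function.update f (𝔖.kap x) (𝔖.sv a x)) ∨ (a ∉ 𝔖.mem x ∧ g = f)) := by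
  unfold upd
  split_ifs with h
  · rw [Option.map_eq_some_iff]
    constructor
    · rintro ⟨f, h1, h2⟩
      exact ⟨f, h1, Or.inl ⟨h, h2.symm⟩⟩
    · rintro ⟨f, h1, h2 | h2⟩
      · exact ⟨f, h1, h2.2.symm⟩
      · exact absurd h h2.1
  · constructor
    · intro h1
      exact ⟨g, h1, Or.inr ⟨h, rfl⟩⟩
    · rintro ⟨f, h1, h2 | h2⟩
      · exact absurd h2.1 h
      · rw [h2.2]; exact h1

theorem upd_mono (x : 𝔖.X) {t t' : TT κ} (h : PSub t t') : PSub (upd 𝔖 x t) (upd 𝔖 x t') := by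
  intro a g hg
  rw [upd_eq_some] at hg ⊢
  obtain ⟨f, h1, h2⟩ := hg
  exact ⟨f, h a f h1, h2⟩

/-- the change made by a list of points; the head is added last -/
noncomputable def addt (xs : List 𝔖.X) (t : TT κ) : TT κ := xs.foldr (upd 𝔖) t

theorem addt_nil (t : TT κ) : addt 𝔖 [] t = t := rfl

theorem addt_cons (x : 𝔖.X) (xs : List 𝔖.X) (t : TT κ) :
    addt 𝔖 (x :: xs) t = upd 𝔖 x (addt 𝔖 xs t) := rfl

theorem addt_append (xs ys : List 𝔖.X) (t : TT κ) :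
    addt 𝔖 (xs ++ ys) t = addt 𝔖 xs (addt 𝔖 ys t) := by
  unfold addt
  rw [List.foldr_append]

theorem addt_mono (xs : List 𝔖.X) {t t' : TT κ} (h : PSub t t') :
    PSub (addt 𝔖 xs t) (addt 𝔖 xs t') := by
  induction xs with
  | nil => exact h
  | cons x xs ih => exact upd_mono 𝔖 x ih

theorem dm_addt (xs : List 𝔖.X) (t : TT κ) : dm (addt 𝔖 xs t) = dm t := by
  induction xs with
  | nil => rfl
  | cons x xs ih => rw [addt_cons, dm_upd, ih]

/-- the entry added by a point -/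
def bas (x : 𝔖.X) : Ent κ := (𝔖.kap x, 𝔖.rs x)

/-! ### The forcing notion -/

/-- The conditions: a stem, a small partial function, and a set of measure one. -/
structure Cnd where
  /-- the stem -/
  s : Stem κ
  /-- the partial function -/
  t : TT κ
  /-- the set of measure one -/
  A : Set 𝔖.X
  wf : WF s
  ht : #(dm t) ≤ κ
  hA : A ∈ 𝔖.W

variable {𝔖}

/-- `q` extends `p` by the points in the list -/
def LeBy (xs : List 𝔖.X) (q p : Cnd 𝔖) : Prop :=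
  (∀ x ∈ xs, x ∈ p.A) ∧ sLe q.s (xs.map (bas 𝔖) ++ p.s) ∧ PSub (addt 𝔖 xs p.t) q.t ∧ q.A ⊆ p.A

theorem LeBy.trans {xs ys : List 𝔖.X} {r q p : Cnd 𝔖} (h1 : LeBy ys r q) (h2 : LeBy xs q p) :
    LeBy (ys ++ xs) r p := by
  refine ⟨fun x hx => ?_, ?_, ?_, h1.2.2.2.trans h2.2.2.2⟩
  · rcases List.mem_append.1 hx with h | h
    · exact h2.2.2.2 (h1.1 x h)
    · exact h2.1 x h
  · rw [List.map_append, List.append_assoc]
    exact h1.2.1.trans ((sLe.refl _).append h2.2.1)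
  · rw [addt_append]
    exact (addt_mono 𝔖 ys h2.2.2.1).trans h1.2.2.1

instance : Preorder (Cnd 𝔖) where
  le q p := ∃ xs, LeBy xs q p
  le_refl p := ⟨[], fun _ h => absurd h List.not_mem_nil, sLe.refl _, PSub.refl _, subset_rfl⟩
  le_trans _ _ _ := fun ⟨_, h1⟩ ⟨_, h2⟩ => ⟨_, h1.trans h2⟩

theorem Cnd.le_iff {q p : Cnd 𝔖} : q ≤ p ↔ ∃ xs, LeBy xs q p := Iff.rfl

/-- direct extensions -/
def DLe (q p : Cnd 𝔖) : Prop := sLe q.s p.s ∧ PSub p.t q.t ∧ q.A ⊆ p.A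

theorem DLe.refl (p : Cnd 𝔖) : DLe p p := ⟨sLe.refl _, PSub.refl _, subset_rfl⟩

theorem DLe.trans {r q p : Cnd 𝔖} (h1 : DLe r q) (h2 : DLe q p) : DLe r p :=
  ⟨h1.1.trans h2.1, h2.2.1.trans h1.2.1, h1.2.2.trans h2.2.2⟩

theorem leBy_nil {q p : Cnd 𝔖} : LeBy [] q p ↔ DLe q p :=
  ⟨fun h => ⟨h.2.1, h.2.2.1, h.2.2.2⟩, fun h => ⟨fun _ hx => absurd hx List.not_mem_nil, h.1, h.2.1, h.2.2⟩⟩

theorem DLe.le {q p : Cnd 𝔖} (h : DLe q p) : q ≤ p := ⟨[], leBy_nil.2 h⟩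

/-- shrinking the set of measure one -/
def Cnd.shrink (p : Cnd 𝔖) (B : Set 𝔖.X) (hB : B ∈ 𝔖.W) : Cnd 𝔖 :=
  ⟨p.s, p.t, p.A ∩ B, p.wf, p.ht, Filter.inter_mem p.hA hB⟩

theorem Cnd.shrink_le (p : Cnd 𝔖) (B : Set 𝔖.X) (hB : B ∈ 𝔖.W) : DLe (p.shrink B hB) p :=
  ⟨sLe.refl _, PSub.refl _, inter_subset_left⟩

/-- conditions with the same first two components are compatible -/
theorem compat_of_eq {p q : Cnd 𝔖} (hs : p.s = q.s) (ht : p.t = q.t) :
    DLe (p.shrink q.A q.hA) p ∧ DLe (p.shrink q.A q.hA) q := by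
  refine ⟨p.shrink_le _ _, ?_, ?_, inter_subset_right⟩
  · show sLe p.s q.s
    rw [hs]; exact sLe.refl _
  · show PSub q.t p.t
    rw [ht]; exact PSub.refl _

/-- some condition with the given stem and partial function is in `φ` -/
def frc (φ : Set (Cnd 𝔖)) (s : Stem κ) (t : TT κ) : Prop := ∃ p ∈ φ, p.s = s ∧ p.t = t

theorem frc.wf {φ : Set (Cnd 𝔖)} {s : Stem κ} {t : TT κ} (h : frc φ s t) : WF s := by
  obtain ⟨p, _, rfl, _⟩ := h
  exact p.wf

theorem frc.ht {φ : Set (Cnd 𝔖)} {s : Stem κ} {t : TT κ} (h : frc φ s t) : #(dm t) ≤ κ := by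
  obtain ⟨p, _, _, rfl⟩ := h
  exact p.ht

theorem frc.mono {φ : Set (Cnd 𝔖)} (hφ : Down φ) {s s' : Stem κ} {t t' : TT κ} (h : frc φ s t)
    (hs : sLe s' s) (hw : WF s') (ht : PSub t t') (hk : #(dm t') ≤ κ) : frc φ s' t' := by
  obtain ⟨p, hp, rfl, rfl⟩ := h
  exact ⟨⟨s', t', p.A, hw, hk, p.hA⟩, hφ p hp _ (DLe.le ⟨hs, ht, subset_rfl⟩), rfl, rfl⟩

theorem frc.subset {φ ψ : Set (Cnd 𝔖)} (h : φ ⊆ ψ) {s : Stem κ} {t : TT κ} (h1 : frc φ s t) :
    frc ψ s t := by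
  obtain ⟨p, hp, h2⟩ := h1
  exact ⟨p, h hp, h2⟩

/-- the one point extension -/
theorem exists_point_ext (p : Cnd 𝔖) (x : 𝔖.X) (hx : x ∈ p.A) (hb : ∃ i < 𝔖.kap x, SB i p.s) :
    ∃ q : Cnd 𝔖, LeBy [x] q p ∧ q.s = bas 𝔖 x :: p.s ∧ q.t = upd 𝔖 x p.t ∧ q.A = p.A := by
  refine ⟨⟨bas 𝔖 x :: p.s, upd 𝔖 x p.t, p.A, ⟨𝔖.rs_mem x, 𝔖.regpt x, hb, p.wf⟩, ?_, p.hA⟩,
    ⟨fun y hy => ?_, sLe.refl _, PSub.refl _, subset_rfl⟩, rfl, rfl, rfl⟩
  · rw [dm_upd]; exact p.ht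
  · rw [List.mem_singleton] at hy
    rw [hy]; exact hx

/-- points can be added to every condition, in every set of measure one -/
theorem exists_point_above (h0 : Inacc κ) (p : Cnd 𝔖) {B : Set 𝔖.X} (hB : B ∈ 𝔖.W) :
    ∃ x ∈ p.A, x ∈ B ∧ ∃ i < 𝔖.kap x, SB i p.s := by
  obtain ⟨i, hi⟩ := exists_SB h0 p.wf
  obtain ⟨x, hx⟩ := 𝔖.W.nonempty_of_mem (Filter.inter_mem (Filter.inter_mem p.hA hB) (𝔖.fineK i))
  exact ⟨x, hx.1.1, hx.1.2, i, hx.2, hi⟩

end

end Run7.h699
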