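import Mathlib
import Pool.Agent.Run7.h699.Cond
import Pool.Agent.Helper669.KDelta

set_option autoImplicit false

/-!
# Fusion
-/

namespace Run7.h699

open Cardinal Set Pool.Agent.Helper669.K Pool.Agent.Helper669.Forcing

section

variable {κ : Cardinal.{0}}

/-- long increasing chains -/
theorem exists_chain {T : Type} [Preorder T] (Q : T → T → Prop)
    (hQ : ∀ t, ∃ t', t' ≤ t ∧ Q t t') (hmono : ∀ t t' t'', Q t t' → t'' ≤ t' → Q t t'')
    (hub : ∀ (j : KK κ) (f : KK κ → T), (∀ i < j, ∀ i' < j, i < i' → f i' ≤ f i) →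
      ∃ t, ∀ i < j, t ≤ f i)
    (t0 : T) : ∃ f : KK κ → T, (∀ i, f i ≤ t0) ∧ ∀ i j, i < j → f j ≤ f i ∧ Q (f i) (f j) := by
  have : Nonempty T := ⟨t0⟩
  obtain ⟨f, hf⟩ := Pool.Agent.Helper669.KDelta.rec_choice (ι := KK κ) (β := T)
    (r := (· < ·)) wellFounded_lt
    (fun j f t => t ≤ t0 ∧ ∀ i < j, t ≤ f i ∧ Q (f i) t)
    (fun j f g b hfg h => ⟨h.1, fun i hi => by rw [← hfg i hi]; exact h.2 i hi⟩)
    (fun j f ih => by
      by_cases hlast : ∃ i, i < j ∧ ∀ i' < j, i' ≤ i
      · obtain ⟨i, hi, hmax⟩ := hlast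
        obtain ⟨t', h1, h2⟩ := hQ (f i)
        refine ⟨t', h1.trans (ih i hi).1, fun i' hi' => ?_⟩
        rcases (hmax i' hi').eq_or_lt with rfl | h3
        · exact ⟨h1, h2⟩
        · have h4 := (ih i hi).2 i' h3
          exact ⟨h1.trans h4.1, hmono _ _ _ h4.2 h1⟩
      · push Not at hlast
        obtain ⟨t, ht⟩ := hub j f (fun i hi i' hi' hii' => ((ih i' hi').2 i hii').1)
        by_cases hne : ∃ i, i < j
        · obtain ⟨i, hi⟩ := hne
          refine ⟨t, (ht i hi).trans (ih i hi).1, fun i' hi' => ⟨ht i' hi', ?_⟩⟩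
          obtain ⟨i2, hi2, hlt⟩ := hlast i' hi'
          exact hmono _ _ _ ((ih i2 hi2).2 i' hlt).2 (ht i2 hi2)
        · push Not at hne
          exact ⟨t0, le_rfl, fun i hi => absurd hi (not_lt.2 (hne i))⟩)
  exact ⟨f, fun i => (hf i).1, fun i j hij => (hf j).2 i hij⟩

/-- the number of the small subsets of a set of size `κ` -/
theorem mk_small_subsets (h0 : Inacc κ) {α : Type} (hα : #α ≤ κ) :
    #{s : Set α // #s < κ} ≤ κ := by
  have h1 : #α ≤ #(KK κ) := by rw [mk_KK]; exact hα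
  obtain ⟨f⟩ := (Cardinal.le_def _ _).1 h1
  have h2 : (#(KK κ)).ord.cof = κ := by rw [mk_KK]; exact h0.reg.cof_ord
  have h3 := Cardinal.mk_subset_mk_lt_cof (α := KK κ) (fun x hx => by
    rw [mk_KK] at hx ⊢
    exact h0.lim x hx)
  rw [h2, mk_KK] at h3
  refine le_of_le_of_eq ?_ h3
  refine Cardinal.mk_le_of_injective (f := fun s : {s : Set α // #s < κ} =>
    (⟨f '' s.1, mk_image_le.trans_lt s.2⟩ : {s : Set (KK κ) // #s < κ})) ?_
  intro s s' hss
  have h4 : f '' s.1 = f '' s'.1 := congrArg Subtype.val hss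
  exact Subtype.ext (f.injective.image_injective h4)

/-- the small modifications of a partial function -/
def Mods (t : TT κ) : Set (TT κ) := {t' | dm t' = dm t ∧
  #{x : II κ × KK κ | ∃ f f', t x.1 = some f ∧ t' x.1 = some f' ∧ f x.2 ≠ f' x.2} < κ}

theorem mk_Mods (h0 : Inacc κ) {t : TT κ} (ht : #(dm t) ≤ κ) : #(Mods t) ≤ κ := by
  have hα : #(dm t × KK κ × KK κ) ≤ κ := by
    rw [mk_prod, mk_prod, lift_id, lift_id, lift_id, mk_KK, mul_eq_self h0.inf]
    exact (mul_le_mul' ht le_rfl).trans (mul_eq_self h0.inf).le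
  refine le_trans ?_ (mk_small_subsets h0 hα)
  refine Cardinal.mk_le_of_injective (f := fun t' : Mods t =>
    (⟨{x : dm t × KK κ × KK κ | ∃ f f', t x.1.1 = some f ∧ t'.1 x.1.1 = some f' ∧
      f x.2.1 ≠ f' x.2.1 ∧ f' x.2.1 = x.2.2}, ?_⟩ : {s : Set (dm t × KK κ × KK κ) // #s < κ})) ?_
  · refine lt_of_le_of_lt ?_ t'.2.2
    refine Cardinal.mk_le_of_injective (f := fun x : {x : dm t × KK κ × KK κ |
      ∃ f f', t x.1.1 = some f ∧ t'.1 x.1.1 = some f' ∧
      f x.2.1 ≠ f' x.2.1 ∧ f' x.2.1 = x.2.2} => (⟨(x.1.1.1, x.1.2.1), ?_⟩ :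
        {x : II κ × KK κ | ∃ f f', t x.1 = some f ∧ t'.1 x.1 = some f' ∧ f x.2 ≠ f' x.2})) ?_
    · obtain ⟨f, f', h1, h2, h3, h4⟩ := x.2
      exact ⟨f, f', h1, h2, h3⟩
    · rintro ⟨⟨⟨a, ha⟩, z, v⟩, f, f', h1, h2, h3, h4⟩ ⟨⟨⟨b, hb⟩, y, u⟩, g, g', h5, h6, h7, h8⟩ hxy
      simp only [Subtype.mk.injEq, Prod.mk.injEq] at hxy
      obtain ⟨rfl, rfl⟩ := hxy
      simp only at h2 h4 h6 h8
      rw [h2, Option.some.injEq] at h6
      subst h6
      simp only [Subtype.mk.injEq, Prod.mk.injEq, true_and]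
      rw [← h4, ← h8]
  · intro t1 t2 h12
    have h1 : ∀ x : dm t × KK κ × KK κ, (∃ f f', t x.1.1 = some f ∧ t1.1 x.1.1 = some f' ∧
      f x.2.1 ≠ f' x.2.1 ∧ f' x.2.1 = x.2.2) ↔ (∃ f f', t x.1.1 = some f ∧ t2.1 x.1.1 = some f' ∧
      f x.2.1 ≠ f' x.2.1 ∧ f' x.2.1 = x.2.2) := fun x => by
        have h2 := congrArg Subtype.val h12
        exact Set.ext_iff.1 h2 x
    apply Subtype.ext
    funext a
    by_cases ha : a ∈ dm t
    · have ha1 : a ∈ dm t1.1 := by rw [t1.2.1]; exact ha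
      have ha2 : a ∈ dm t2.1 := by rw [t2.2.1]; exact ha
      obtain ⟨f, hf⟩ := mem_dm_iff.1 ha
      obtain ⟨f1, hf1⟩ := mem_dm_iff.1 ha1
      obtain ⟨f2, hf2⟩ := mem_dm_iff.1 ha2
      rw [hf1, hf2]
      congr 1
      funext z
      by_contra hne
      by_cases hz : f z = f1 z
      · have hz2 : f z ≠ f2 z := fun h => hne (hz.symm.trans h)
        obtain ⟨g, g', h2, h3, h4, h5⟩ := (h1 ⟨⟨a, ha⟩, z, f2 z⟩).2 ⟨f, f2, hf, hf2, hz2, rfl⟩
        simp only at h2 h3 h4 h5
        rw [hf1, Option.some.injEq] at h3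
        subst h3
        exact hne h5
      · obtain ⟨g, g', h2, h3, h4, h5⟩ := (h1 ⟨⟨a, ha⟩, z, f1 z⟩).1 ⟨f, f1, hf, hf1, hz, rfl⟩
        simp only at h2 h3 h4 h5
        rw [hf2, Option.some.injEq] at h3
        subst h3
        exact hne h5.symm
    · have ha1 : a ∉ dm t1.1 := by rw [t1.2.1]; exact ha
      have ha2 : a ∉ dm t2.1 := by rw [t2.2.1]; exact ha
      rw [mem_dm, not_not] at ha1 ha2
      rw [ha1, ha2]

theorem self_mem_Mods (h0 : Inacc κ) (t : TT κ) : t ∈ Mods t := by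
  refine ⟨rfl, ?_⟩
  have : {x : II κ × KK κ | ∃ f f', t x.1 = some f ∧ t x.1 = some f' ∧ f x.2 ≠ f' x.2} = ∅ := by
    ext x
    simp only [mem_ofPred_eq, mem_empty_iff_false, iff_false]
    rintro ⟨f, f', h1, h2, h3⟩
    rw [h1, Option.some.injEq] at h2
    exact h3 (by rw [h2])
  rw [this, mk_eq_zero]
  exact h0.pos

theorem mk_dm_of_mem_Mods {t t' : TT κ} (h : t' ∈ Mods t) : dm t' = dm t := h.1

open Classical in
/-- overriding -/
noncomputable def ov (t' t : TT κ) : TT κ := fun a => if t' a ≠ none then t' a else t a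

theorem ov_mono (t' : TT κ) {t t1 : TT κ} (h : PSub t t1) : PSub (ov t' t) (ov t' t1) := by
  intro a g hg
  unfold ov at hg ⊢
  split_ifs at hg ⊢ with h1
  · exact hg
  · exact h a g hg

/-- the poset of the small partial functions -/
structure TP (κ : Cardinal.{0}) where
  /-- the partial function -/
  t : TT κ
  ht : #(dm t) ≤ κ

instance : Preorder (TP κ) where
  le a b := PSub b.t a.t
  le_refl a := PSub.refl a.t
  le_trans _ _ _ h h' := h'.trans h

theorem mk_dm_pU_le (h0 : Inacc κ) {A B ι : Type} (hι : #ι ≤ κ) {F : ι → A → Option B}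
    (hF : PCompat F) (h : ∀ i, #(dm (F i)) ≤ κ) : #(dm (pU F)) ≤ κ := by
  rw [dm_pU hF]
  refine (mk_iUnion_le _).trans ?_
  exact (mul_le_mul' hι (ciSup_le' h)).trans (mul_eq_self h0.inf).le

theorem dirClosed_TP (h0 : Inacc κ) : DirClosed (Order.succ κ) (TP κ) := by
  intro D hD _ hdir
  have hcomp : PCompat fun d : D => d.1.t := PCompat_of_directed fun i j => by
    obtain ⟨c, hc, h1, h2⟩ := hdir i.1 i.2 j.1 j.2
    exact ⟨⟨c, hc⟩, h1, h2⟩
  refine ⟨⟨pU fun d : D => d.1.t, mk_dm_pU_le h0 (Order.lt_succ_iff.1 hD) hcomp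
    fun d => d.1.ht⟩, fun a ha => ?_⟩
  exact le_pU hcomp (⟨a, ha⟩ : D)

/-- `G` is decided at `t` -/
def Dec (G : TT κ → Prop) (t : TT κ) : Prop := G t ∨ ∀ t', PSub t t' → #(dm t') ≤ κ → ¬ G t'

theorem Dec.mono {G : TT κ → Prop} (hG : ∀ t t', PSub t t' → #(dm t') ≤ κ → G t → G t')
    {t t' : TT κ} (h : Dec G t) (htt : PSub t t') (hk : #(dm t') ≤ κ) : Dec G t' := by
  rcases h with h | h
  · exact Or.inl (hG _ _ htt hk h)
  · exact Or.inr fun t'' h1 h2 => h t'' (htt.trans h1) h2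

theorem mk_dm_ov (h0 : Inacc κ) {t t' : TT κ} (h : #(dm t) ≤ κ) (h' : #(dm t') ≤ κ) :
    #(dm (ov t' t)) ≤ κ := by
  have h1 : dm (ov t' t) ⊆ dm t' ∪ dm t := by
    intro a ha
    by_cases h2 : a ∈ dm t'
    · exact Or.inl h2
    · right
      rw [mem_dm] at ha h2 ⊢
      unfold ov at ha
      rw [if_neg h2] at ha
      exact ha
  refine (mk_le_mk_of_subset h1).trans ((mk_union_le _ _).trans ?_)
  exact (add_le_add h' h).trans (add_eq_self h0.inf).le

theorem fusion_step (h0 : Inacc κ) {J : Type} (hJ : #J ≤ κ) (G : J → TT κ → Prop)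
    (hG : ∀ j t t', PSub t t' → #(dm t') ≤ κ → G j t → G j t') (t : TP κ) :
    ∃ t1 : TP κ, t1 ≤ t ∧ ∀ j, ∀ t' ∈ Mods t.t, Dec (G j) (ov t' t1.t) := by
  classical
  have hN : #(J × Mods t.t) < Order.succ κ := by
    rw [Order.lt_succ_iff, mk_prod, lift_id, lift_id]
    exact (mul_le_mul' hJ (mk_Mods h0 t.ht)).trans (mul_eq_self h0.inf).le
  obtain ⟨t1, h1, h2⟩ := exists_forall_mem (h0.inf.trans (Order.le_succ κ)) (dirClosed_TP h0) hN
    (fun x => {t1 : TP κ | Dec (G x.1) (ov x.2.1 t1.t)})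
    (fun x t1 ht1 t2 ht2 => Dec.mono (hG x.1) ht1 (ov_mono _ ht2)
      (mk_dm_ov h0 t2.ht (by rw [x.2.2.1]; exact t.ht)))
    (fun x t1 => by
      by_cases hu : ∃ u, PSub (ov x.2.1 t1.t) u ∧ #(dm u) ≤ κ ∧ G x.1 u
      · obtain ⟨u, hu1, hu2, hu3⟩ := hu
        have hdm : dm t1.t ⊆ dm (ov x.2.1 t1.t) := by
          intro a ha
          rw [mem_dm]
          unfold ov
          split_ifs with h
          · exact h
          · exact ha
        refine ⟨⟨fun a => if t1.t a ≠ none then t1.t a else u a, ?_⟩, ?_, ?_⟩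
        · refine (mk_le_mk_of_subset ?_).trans hu2
          intro a ha
          by_cases h : t1.t a ≠ none
          · exact hu1.dm_subset (hdm h)
          · rw [mem_dm, if_neg h] at ha
            exact ha
        · intro a g hg
          simp only
          rw [if_pos (by rw [hg]; simp)]
          exact hg
        · refine Or.inl ?_
          have : ov x.2.1 (fun a => if t1.t a ≠ none then t1.t a else u a) = u := by
            funext a
            unfold ov
            by_cases h : x.2.1 a ≠ none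
            · rw [if_pos h]
              obtain ⟨g, hg⟩ := Option.ne_none_iff_exists'.1 h
              have := hu1 a g (by unfold ov; rw [if_pos h]; exact hg)
              rw [hg, this]
            · rw [if_neg h]
              by_cases h' : t1.t a ≠ none
              · simp only
                rw [if_pos h']
                obtain ⟨g, hg⟩ := Option.ne_none_iff_exists'.1 h'
                have := hu1 a g (by unfold ov; rw [if_neg h]; exact hg)
                rw [hg, this]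
              · simp only
                rw [if_neg h']
          rw [this]
          exact hu3
      · push Not at hu
        exact ⟨t1, le_rfl, Or.inr fun t' h1 h2 h3 => hu t' h1 h2 h3⟩) t
  exact ⟨t1, h1, fun j t' ht' => h2 (j, ⟨t', ht'⟩)⟩

theorem fusion (h0 : Inacc κ) {J : Type} (hJ : #J ≤ κ) (G : J → TT κ → Prop)
    (hG : ∀ j t t', PSub t t' → #(dm t') ≤ κ → G j t → G j t') (t0 : TT κ)
    (ht0 : #(dm t0) ≤ κ) : ∃ t, PSub t0 t ∧ #(dm t) ≤ κ ∧ ∀ j, ∀ t' ∈ Mods t, Dec (G j) t' := by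
  classical
  obtain ⟨f, hf1, hf2⟩ := exists_chain (κ := κ)
    (fun t t1 : TP κ => ∀ j, ∀ t' ∈ Mods t.t, Dec (G j) (ov t' t1.t))
    (fusion_step h0 hJ G hG)
    (fun t t' t'' h1 h2 j u hu => Dec.mono (hG j) (h1 j u hu) (ov_mono _ h2)
      (mk_dm_ov h0 t''.ht (by rw [hu.1]; exact t.ht)))
    (fun j f hmono => by
      have hcomp : PCompat fun i : Iio j => (f i.1).t := PCompat_of_directed fun i i' => by
        rcases lt_trichotomy i.1 i'.1 with h | h | h
        · exact ⟨i', hmono _ i.2 _ i'.2 h, PSub.refl _⟩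
        · have : i = i' := Subtype.ext h
          subst this
          exact ⟨i, PSub.refl _, PSub.refl _⟩
        · exact ⟨i, PSub.refl _, hmono _ i'.2 _ i.2 h⟩
      exact ⟨⟨pU fun i : Iio j => (f i.1).t, mk_dm_pU_le h0 (mk_Iio_KK j).le hcomp
        fun i => (f i.1).ht⟩, fun i hi => le_pU hcomp (⟨i, hi⟩ : Iio j)⟩)
    (⟨t0, ht0⟩ : TP κ)
  have hmono : ∀ i j, i ≤ j → PSub (f i).t (f j).t := by
    intro i j hij
    rcases hij.eq_or_lt with rfl | h
    · exact PSub.refl _
    · exact (hf2 i j h).1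
  have hcomp : PCompat fun i : KK κ => (f i).t := PCompat_of_directed fun i i' =>
    ⟨max i i', hmono _ _ (le_max_left _ _), hmono _ _ (le_max_right _ _)⟩
  refine ⟨pU fun i : KK κ => (f i).t, ?_, mk_dm_pU_le h0 mk_KK.le hcomp fun i => (f i).ht, ?_⟩
  · exact PSub.trans (hf1 h0.nonempty.some) (le_pU hcomp h0.nonempty.some)
  · intro j t' ht'
    obtain ⟨t, ht⟩ : ∃ t, t = pU fun i : KK κ => (f i).t := ⟨_, rfl⟩
    rw [← ht] at ht'
    have hft : ∀ i, PSub (f i).t t := fun i => by rw [ht]; exact le_pU hcomp i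
    obtain ⟨S, hS⟩ : ∃ S : Set (II κ × KK κ), S = {x : II κ × KK κ |
      ∃ f f', t x.1 = some f ∧ t' x.1 = some f' ∧ f x.2 ≠ f' x.2} := ⟨_, rfl⟩
    have hSk : #S < κ := by rw [hS]; exact ht'.2
    have h1 : ∀ x : S, ∃ i, x.1.1 ∈ dm (f i).t := by
      rintro ⟨x, hx⟩
      rw [hS] at hx
      obtain ⟨g, g', h1, h2, h3⟩ := hx
      rw [ht, pU_eq_some hcomp] at h1
      obtain ⟨i, hi⟩ := h1
      exact ⟨i, mem_dm_iff.2 ⟨g, hi⟩⟩
    choose idx hidx using h1
    obtain ⟨i, hi⟩ := h0.bdd_range hSk idx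
    have h2 : ∀ x ∈ S, x.1 ∈ dm (f i).t := fun x hx =>
      (hmono _ _ (hi ⟨x, hx⟩).le).dm_subset (hidx ⟨x, hx⟩)
    obtain ⟨u, hu⟩ : ∃ u : TT κ, u = fun a => if (f i).t a ≠ none then t' a else none := ⟨_, rfl⟩
    have hdmt' : ∀ a, a ∈ dm (f i).t → t' a ≠ none := by
      intro a ha
      have : a ∈ dm t' := by
        rw [ht'.1]
        exact (hft i).dm_subset ha
      exact this
    have hu1 : u ∈ Mods (f i).t := by
      refine ⟨?_, ?_⟩
      · ext a
        rw [mem_dm, mem_dm, hu]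
        simp only
        constructor
        · intro h
          intro h3
          rw [if_neg (by rw [h3]; simp)] at h
          exact h rfl
        · intro h
          rw [if_pos h]
          exact hdmt' a h
      · refine lt_of_le_of_lt (mk_le_mk_of_subset ?_) hSk
        rintro ⟨a, z⟩ ⟨g, g', h3, h4, h5⟩
        rw [hS]
        simp only at h3 h4 h5
        refine ⟨g, g', hft i a g h3, ?_, h5⟩
        rw [hu] at h4
        simp only at h4
        rw [if_pos (by rw [h3]; simp)] at h4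
        exact h4
    have hu2 : ov u t = t' := by
      funext a
      unfold ov
      split_ifs with h
      · rw [hu] at h ⊢
        simp only at h ⊢
        split_ifs with h3
        · rfl
        · rw [if_neg h3] at h
          exact absurd rfl h
      · rw [not_not] at h
        have h3 : (f i).t a = none := by
          by_contra h4
          rw [hu] at h
          simp only at h
          rw [if_pos h4] at h
          exact hdmt' a h4 h
        by_cases h4 : t a = none
        · have h5 : a ∉ dm t' := by rw [ht'.1, mem_dm, not_not]; exact h4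
          rw [mem_dm, not_not] at h5
          rw [h4, h5]
        · have h5 : a ∈ dm t' := by rw [ht'.1]; exact h4
          obtain ⟨g, hg⟩ := Option.ne_none_iff_exists'.1 h4
          obtain ⟨g', hg'⟩ := mem_dm_iff.1 h5
          rw [hg, hg']
          congr 1
          funext z
          by_contra h6
          have h7 : (a, z) ∈ S := by rw [hS]; exact ⟨g, g', hg, hg', h6⟩
          exact h2 _ h7 h3
    obtain ⟨i', hi'⟩ := h0.exists_gt i
    have h3 := (hf2 i i' hi').2 j u hu1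
    rw [← hu2]
    refine Dec.mono (hG j) h3 (ov_mono _ (hft i')) ?_
    rw [hu2, ht'.1, ht]
    exact mk_dm_pU_le h0 mk_KK.le hcomp fun i => (f i).ht

end

end Run7.h699
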