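import Mathlib
import Pool.Agent.Run7.h699.Fusion

set_option autoImplicit false

/-!
# Modifications at bounded levels, and diagonal intersections
-/

namespace Run7.h699

open Cardinal Set Pool.Agent.Helper669.K Pool.Agent.Helper669.Forcing

section

variable {κ : Cardinal.{0}}

theorem w_pt (h0 : Inacc κ) (m n : ℕ) (ξ : KK κ) : w m (pt n ξ) = w (m + n) ξ := by
  induction m with
  | zero =>
    rw [w_zero, mk_Iio_pt h0, zero_add]
    exact max_eq_right (aleph0_le_w n ξ)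
  | succ m ih => rw [w_succ, ih, ← w_succ]; congr 1; omega

theorem w_mono_pt {i j : KK κ} (hij : i ≤ j) (n : ℕ) : w n i ≤ w n j := by
  induction n with
  | zero => exact max_le_max le_rfl (mk_le_mk_of_subset (Iio_subset_Iio hij))
  | succ n ih => exact power_le_power_left two_ne_zero ih

theorem mk_prod_le_w {α β : Type} {n : ℕ} {ξ : KK κ} (h1 : #α ≤ w n ξ) (h2 : #β ≤ w n ξ) :
    #(α × β) ≤ w n ξ := by
  rw [mk_prod, lift_id, lift_id]
  exact w_mul_le h1 h2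

/-- modifications at the levels below `i` -/
def LvB (e : KK κ → II κ) (t : TT κ) (i : KK κ) : Set (TT κ) := {t' | dm t' = dm t ∧
  ∀ a f f', t a = some f → t' a = some f' → ∀ z, f' z = f z ∨ (z < i ∧ f' z < i ∧ ∃ j < i, e j = a)}

theorem self_mem_LvB (e : KK κ → II κ) (t : TT κ) (i : KK κ) : t ∈ LvB e t i :=
  ⟨rfl, fun a f f' h1 h2 z => Or.inl (by rw [h1, Option.some.injEq] at h2; rw [h2])⟩

theorem LvB_mono (e : KK κ → II κ) (t : TT κ) {i j : KK κ} (hij : i ≤ j) :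
    LvB e t i ⊆ LvB e t j := by
  rintro t' ⟨h1, h2⟩
  refine ⟨h1, fun a f f' h3 h4 z => ?_⟩
  rcases h2 a f f' h3 h4 z with h | ⟨h5, h6, k, hk, hk'⟩
  · exact Or.inl h
  · exact Or.inr ⟨h5.trans_le hij, h6.trans_le hij, k, hk.trans_le hij, hk'⟩

theorem mk_LvB_le (e : KK κ → II κ) (t : TT κ) (i : KK κ) : #(LvB e t i) ≤ w 1 i := by
  have h1 : #(Set (Iio i × Iio i × Iio i)) ≤ w 1 i := by
    apply w_mk_set_le
    have h := mk_Iio_le_w 0 i
    exact mk_prod_le_w h (mk_prod_le_w h h)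
  refine le_trans ?_ h1
  refine Cardinal.mk_le_of_injective (f := fun t' : LvB e t i =>
    {x : Iio i × Iio i × Iio i | ∃ g, t'.1 (e x.1.1) = some g ∧ g x.2.1.1 = x.2.2.1}) ?_
  have key : ∀ t1 t2 : LvB e t i, (∀ x : Iio i × Iio i × Iio i,
      (∃ g, t1.1 (e x.1.1) = some g ∧ g x.2.1.1 = x.2.2.1) →
      (∃ g, t2.1 (e x.1.1) = some g ∧ g x.2.1.1 = x.2.2.1)) → ∀ a f f1 f2 z, t a = some f →
      t1.1 a = some f1 → t2.1 a = some f2 → f1 z ≠ f z → f1 z = f2 z := by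
    intro t1 t2 h a f f1 f2 z hf hf1 hf2 hne
    rcases t1.2.2 a f f1 hf hf1 z with h2 | ⟨h2, h3, j, hj, hj'⟩
    · exact absurd h2 hne
    · subst hj'
      obtain ⟨g, hg, hg'⟩ := h ⟨⟨j, hj⟩, ⟨z, h2⟩, ⟨f1 z, h3⟩⟩ ⟨f1, hf1, rfl⟩
      rw [hf2, Option.some.injEq] at hg
      subst hg
      exact hg'.symm
  intro t1 t2 h12
  have h2 : ∀ x : Iio i × Iio i × Iio i,
      (∃ g, t1.1 (e x.1.1) = some g ∧ g x.2.1.1 = x.2.2.1) ↔
      (∃ g, t2.1 (e x.1.1) = some g ∧ g x.2.1.1 = x.2.2.1) := fun x => Set.ext_iff.1 h12 x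
  apply Subtype.ext
  funext a
  by_cases ha : a ∈ dm t
  · have ha1 : a ∈ dm t1.1 := by rw [t1.2.1]; exact ha
    have ha2 : a ∈ dm t2.1 := by rw [t2.2.1]; exact ha
    obtain ⟨f, hf⟩ := mem_dm_iff.1 ha
    obtain ⟨f1, hf1⟩ := mem_dm_iff.1 ha1
    obtain ⟨f2, hf2⟩ := mem_dm_iff.1 ha2
    rw [hf1, hf2]
    congr 1
    funext z
    by_cases h3 : f1 z = f z
    · by_cases h4 : f2 z = f z
      · rw [h3, h4]
      · exact (key t2 t1 (fun x => (h2 x).2) a f f2 f1 z hf hf2 hf1 h4).symm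
    · exact key t1 t2 (fun x => (h2 x).1) a f f1 f2 z hf hf1 hf2 h3
  · have ha1 : a ∉ dm t1.1 := by rw [t1.2.1]; exact ha
    have ha2 : a ∉ dm t2.1 := by rw [t2.2.1]; exact ha
    rw [mem_dm, not_not] at ha1 ha2
    rw [ha1, ha2]

theorem LvB_subset_Mods (h0 : Inacc κ) (e : KK κ → II κ) (t : TT κ) (i : KK κ) :
    LvB e t i ⊆ Mods t := by
  rintro t' ⟨h1, h2⟩
  refine ⟨h1, ?_⟩
  have h3 : #(Iio i × Iio i) < κ := by
    rw [mk_prod, lift_id]
    exact mul_lt_of_lt h0.inf (mk_Iio_KK i) (mk_Iio_KK i)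
  refine lt_of_le_of_lt ((mk_le_mk_of_subset ?_).trans
    (mk_range_le (f := fun p : Iio i × Iio i => (e p.1.1, p.2.1)))) h3
  · rintro ⟨a, z⟩ ⟨f, f', h4, h5, h6⟩
    rcases h2 a f f' h4 h5 z with h | ⟨h7, h8, j, hj, hj'⟩
    · exact absurd h.symm h6
    · exact ⟨(⟨j, hj⟩, ⟨z, h7⟩), by rw [← hj']⟩

/-- the stems below `i` -/
def ST (i : KK κ) : Set (Stem κ) := {s | WF s ∧ SB i s}

theorem ST_mono {i j : KK κ} (hij : i ≤ j) : ST i ⊆ ST j := fun _ h => ⟨h.1, h.2.mono hij⟩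

theorem map_injOn {A B : Type} (f : A → B) (P : A → Prop)
    (hf : ∀ a b, P a → P b → f a = f b → a = b) (l l' : List A) (hl : ∀ a ∈ l, P a)
    (hl' : ∀ a ∈ l', P a) (h : l.map f = l'.map f) : l = l' := by
  induction l generalizing l' with
  | nil =>
    cases l' with
    | nil => rfl
    | cons b l' => simp at h
  | cons a l ih =>
    cases l' with
    | nil => simp at h
    | cons b l' =>
      simp only [List.map_cons, List.cons.injEq] at h
      rw [hf a b (hl a List.mem_cons_self) (hl' b List.mem_cons_self) h.1,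
        ih l' (fun a ha => hl a (List.mem_cons_of_mem _ ha))
          (fun a ha => hl' a (List.mem_cons_of_mem _ ha)) h.2]

theorem WF.mem_RR {s : Stem κ} (h : WF s) {e : Ent κ} (he : e ∈ s) : e.2 ∈ RR e.1 := by
  induction s with
  | nil => exact absurd he List.not_mem_nil
  | cons e' s ih =>
    rcases List.mem_cons.1 he with rfl | h1
    · exact h.1
    · exact ih h.tail h1

theorem mk_ST_le (h0 : Inacc κ) (i : KK κ) : #(ST i) ≤ w 1 i := by
  have h2 : #(Iio i × Set (Iio i × Iio i)) ≤ w 1 i := by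
    have h := mk_Iio_le_w 0 i
    exact mk_prod_le_w (h.trans (w_le (by omega) i)) (w_mk_set_le (mk_prod_le_w h h))
  have h3 : #(List (Iio i × Set (Iio i × Iio i))) ≤ w 1 i :=
    (mk_list_le_max _).trans (max_le (aleph0_le_w 1 i) h2)
  refine le_trans ?_ h3
  classical
  by_cases hi : (Iio i).Nonempty
  · obtain ⟨z0, hz0⟩ := hi
    refine Cardinal.mk_le_of_injective (f := fun s : ST i => s.1.map fun e =>
      ((if h : e.1 < i then ⟨e.1, h⟩ else ⟨z0, hz0⟩ : Iio i),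
        {x : Iio i × Iio i | e.2 x.1.1 = some x.2.1})) ?_
    intro s s' hss
    apply Subtype.ext
    refine map_injOn _ (fun e => EB i e ∧ e.2 ∈ RR e.1) ?_ s.1 s'.1
      (fun e he => ⟨s.2.2 e he, s.2.1.mem_RR he⟩) (fun e he => ⟨s'.2.2 e he, s'.2.1.mem_RR he⟩) hss
    rintro ⟨a, c⟩ ⟨b, d⟩ ⟨h4, h5⟩ ⟨h6, h7⟩ h8
    simp only [Prod.mk.injEq] at h8
    have ha : a < i := (lt_pt h0 (by norm_num) a).trans_le h4.1
    have hb : b < i := (lt_pt h0 (by norm_num) b).trans_le h6.1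
    rw [dif_pos ha, dif_pos hb, Subtype.mk.injEq] at h8
    obtain ⟨rfl, h9⟩ := h8
    congr 1
    apply PSub.antisymm
    · intro x y hxy
      have hx : x < i := (h5.2 x (mem_dm_iff.2 ⟨y, hxy⟩)).trans_le h4.1
      have := (Set.ext_iff.1 h9 (⟨x, hx⟩, ⟨y, h4.2 x y hxy⟩)).1 hxy
      exact this
    · intro x y hxy
      have hx : x < i := (h7.2 x (mem_dm_iff.2 ⟨y, hxy⟩)).trans_le h6.1
      have := (Set.ext_iff.1 h9 (⟨x, hx⟩, ⟨y, h6.2 x y hxy⟩)).2 hxy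
      exact this
  · have h4 : ST i ⊆ {[]} := by
      rintro s ⟨_, h5⟩
      cases s with
      | nil => rfl
      | cons e s =>
        exact absurd ⟨e.1, (lt_pt h0 (by norm_num) e.1).trans_le (h5 e List.mem_cons_self).1⟩ hi
    refine (mk_le_mk_of_subset h4).trans ?_
    rw [mk_singleton]
    exact Cardinal.one_le_iff_ne_zero.2 (mk_ne_zero _)

theorem mk_WF_le (h0 : Inacc κ) : #{s : Stem κ | WF s} ≤ κ := by
  have h1 : {s : Stem κ | WF s} ⊆ ⋃ i : KK κ, ST i := by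
    intro s hs
    obtain ⟨i, hi⟩ := exists_SB h0 hs
    exact mem_iUnion.2 ⟨i, hs, hi⟩
  refine (mk_le_mk_of_subset h1).trans ((mk_iUnion_le _).trans ?_)
  rw [mk_KK]
  refine (mul_le_mul' le_rfl (ciSup_le' fun i => ?_)).trans (mul_eq_self h0.inf).le
  exact (mk_ST_le h0 i).trans (w_lt_kappa h0 1 i).le

theorem exists_enum {t : TT κ} (ht : #(dm t) ≤ κ) :
    ∃ e : KK κ → II κ, dm t ⊆ range e := by
  classical
  have hne : Nonempty (II κ) := Inacc.nonemptyI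
  by_cases h : (dm t).Nonempty
  · have h1 : #(dm t) ≤ #(KK κ) := by rw [mk_KK]; exact ht
    obtain ⟨f⟩ := (Cardinal.le_def _ _).1 h1
    have : Nonempty (dm t) := h.to_subtype
    refine ⟨fun i => (Function.invFun f i).1, fun a ha => ⟨f ⟨a, ha⟩, ?_⟩⟩
    simp only
    rw [Function.leftInverse_invFun f.injective]
  · rw [not_nonempty_iff_eq_empty] at h
    exact ⟨fun _ => hne.some, by rw [h]; exact empty_subset _⟩

variable (𝔖 : Setup κ)

/-- diagonal intersections -/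
theorem diag (h0 : Inacc κ) (e : KK κ → II κ) (t : TT κ)
    (V : Stem κ → TT κ → KK κ → Set 𝔖.X) (hV : ∀ s t' b, V s t' b ∈ 𝔖.W) :
    {x | ∀ i < 𝔖.kap x, ∀ s ∈ ST i, ∀ t' ∈ LvB e t i, ∀ b ≤ i, x ∈ V s t' b} ∈ 𝔖.W := by
  have h1 : ∀ i : KK κ, (⋂ y : ST i × LvB e t i × Iic i, V y.1.1 y.2.1.1 y.2.2.1) ∈ 𝔖.W := by
    intro i
    refine 𝔖.complete _ ?_ _ fun y => hV _ _ _
    rw [mk_prod, mk_prod]
    simp only [lift_id]
    refine mul_lt_of_lt h0.inf ((mk_ST_le h0 i).trans_lt (w_lt_kappa h0 1 i))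
      (mul_lt_of_lt h0.inf ((mk_LvB_le e t i).trans_lt (w_lt_kappa h0 1 i)) ?_)
    obtain ⟨j, hj⟩ := h0.exists_gt i
    exact (mk_le_mk_of_subset (fun a ha => lt_of_le_of_lt ha hj : Iic i ⊆ Iio j)).trans_lt
      (mk_Iio_KK j)
  refine Filter.mem_of_superset (𝔖.normal _ h1) ?_
  intro x hx i hi s hs t' ht' b hb
  exact mem_iInter.1 (hx i hi) ⟨⟨s, hs⟩, ⟨t', ht'⟩, ⟨b, hb⟩⟩

/-- the points whose trace on the range of `e` is covered by the values below their trace -/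
def Cv (e : KK κ → II κ) : Set 𝔖.X := {x | ∀ a ∈ 𝔖.mem x, a ∈ range e → ∃ i < 𝔖.kap x, e i = a}

theorem Cv_mem (e : KK κ → II κ) : Cv 𝔖 e ∈ 𝔖.W := 𝔖.cover e

theorem upd_mem_LvB (h0 : Inacc κ) {e : KK κ → II κ} {t t' : TT κ} {i j : KK κ} (hdm : dm t ⊆ range e)
    (ht' : t' ∈ LvB e t i) (x : 𝔖.X) (hx : x ∈ Cv 𝔖 e) (hij : i ≤ j) (hj : pt 5 (𝔖.kap x) ≤ j) :
    upd 𝔖 x t' ∈ LvB e t j := by
  refine ⟨by rw [dm_upd]; exact ht'.1, fun a f g hf hg z => ?_⟩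
  rw [upd_eq_some] at hg
  obtain ⟨f', h1, h2⟩ := hg
  have h3 : 𝔖.kap x < j := (lt_pt h0 (by norm_num) _).trans_le hj
  rcases h2 with ⟨h4, rfl⟩ | ⟨h4, rfl⟩
  · by_cases hz : z = 𝔖.kap x
    · subst hz
      right
      rw [Function.update_self]
      refine ⟨h3, (𝔖.sv_lt a x).trans_le hj, ?_⟩
      obtain ⟨k, hk, hk'⟩ := hx a h4 (hdm (mem_dm_iff.2 ⟨f, hf⟩))
      exact ⟨k, hk.trans h3, hk'⟩
    · rw [Function.update_of_ne hz]
      exact (LvB_mono e t hij ht').2 a f f' hf h1 z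
  · exact (LvB_mono e t hij ht').2 a f g hf h1 z

theorem addt_mem_LvB (h0 : Inacc κ) {e : KK κ → II κ} {t : TT κ} (hdm : dm t ⊆ range e)
    (xs : List 𝔖.X) (hxs : ∀ x ∈ xs, x ∈ Cv 𝔖 e) {s s0 : Stem κ} {i : KK κ}
    (hs : sLe s (xs.map (bas 𝔖) ++ s0)) (hi : SB i s) : addt 𝔖 xs t ∈ LvB e t i := by
  induction xs generalizing s with
  | nil => exact self_mem_LvB e t i
  | cons x xs ih =>
    rw [List.map_cons, List.cons_append] at hs
    obtain ⟨e', s', rfl, h1, h2⟩ := sLe_cons_iff hs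
    rw [SB_cons] at hi
    rw [addt_cons]
    refine upd_mem_LvB 𝔖 h0 hdm (ih (fun y hy => hxs y (List.mem_cons_of_mem _ hy)) h2 hi.2) x
      (hxs x List.mem_cons_self) le_rfl ?_
    have h3 : e'.1 = 𝔖.kap x := h1.1
    rw [← h3]
    exact (pt_le_pt h0 (by norm_num) _).trans hi.1.1

end

end Run7.h699
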