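import Mathlib
import Pool.Agent.Run7.h699.LvB
import Pool.Agent.Helper669.KA1

set_option autoImplicit false

/-!
# The Prikry property
-/

namespace Run7.h699

open Cardinal Set Pool.Agent.Helper669.K Pool.Agent.Helper669.Forcing

section

variable {κ : Cardinal.{0}} {𝔖 : Setup κ}

/-- the conditions deciding `φ` -/
def dcd (φ : Set (Cnd 𝔖)) : Set (Cnd 𝔖) := φ ∪ fnot φ

theorem down_dcd {φ : Set (Cnd 𝔖)} (h : Down φ) : Down (dcd φ) := by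
  rintro p (hp | hp) q hq
  · exact Or.inl (h p hp q hq)
  · exact Or.inr (down_fnot _ p hp q hq)

theorem dcd_dense {φ : Set (Cnd 𝔖)} (p : Cnd 𝔖) : ∃ q ≤ p, q ∈ dcd φ := by
  by_cases h : ∃ q ≤ p, q ∈ φ
  · obtain ⟨q, hq, h1⟩ := h
    exact ⟨q, hq, Or.inl h1⟩
  · push Not at h
    exact ⟨p, le_rfl, Or.inr h⟩

theorem frc_dcd {φ : Set (Cnd 𝔖)} {s : Stem κ} {t : TT κ} :
    frc (dcd φ) s t ↔ frc φ s t ∨ frc (fnot φ) s t := by
  constructor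
  · rintro ⟨p, hp | hp, h1⟩
    · exact Or.inl ⟨p, hp, h1⟩
    · exact Or.inr ⟨p, hp, h1⟩
  · rintro (⟨p, hp, h1⟩ | ⟨p, hp, h1⟩)
    · exact ⟨p, Or.inl hp, h1⟩
    · exact ⟨p, Or.inr hp, h1⟩

open Classical in
/-- a set of measure one witnessing `frc φ s t` -/
noncomputable def Wt (φ : Set (Cnd 𝔖)) (s : Stem κ) (t : TT κ) : Set 𝔖.X :=
  if h : frc φ s t then h.choose.A else univ

theorem Wt_mem (φ : Set (Cnd 𝔖)) (s : Stem κ) (t : TT κ) : Wt φ s t ∈ 𝔖.W := by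
  unfold Wt
  split_ifs with h
  · exact h.choose.hA
  · exact Filter.univ_mem

theorem wit {φ : Set (Cnd 𝔖)} (hφ : Down φ) {s : Stem κ} {t : TT κ} (h : frc φ s t)
    {ys : List 𝔖.X} {q : Cnd 𝔖} (h1 : ∀ y ∈ ys, y ∈ Wt φ s t)
    (h2 : sLe q.s (ys.map (bas 𝔖) ++ s)) (h3 : PSub (addt 𝔖 ys t) q.t) :
    q.shrink (Wt φ s t) (Wt_mem φ s t) ∈ φ := by
  have h4 := h.choose_spec
  have h5 : Wt φ s t = h.choose.A := by unfold Wt; rw [dif_pos h]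
  refine hφ _ h4.1 _ ⟨ys, ?_, ?_, ?_, ?_⟩
  · intro y hy
    rw [← h5]; exact h1 y hy
  · rw [h4.2.1]; exact h2
  · rw [h4.2.2]; exact h3
  · intro y hy
    rw [← h5]; exact hy.2

/-- choosing a guiding sequence for open dense sets given by stems and partial functions -/
theorem guide' (h0 : Inacc κ) (𝔖 : Setup κ) (e : KK κ → II κ) (t : TT κ)
    (E : KK κ → Stem κ → TT κ → Set (CC κ))
    (hopen : ∀ ξ s t', ∀ c ∈ E ξ s t', ∀ c' ∈ RR ξ, PSub c c' → c' ∈ E ξ s t')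
    (hdense : ∀ ξ, ∀ s ∈ ST ξ, ∀ t' ∈ LvB e t (pt 5 ξ), ∀ c ∈ RR ξ, ∃ c' ∈ RR ξ,
      PSub c c' ∧ c' ∈ E ξ s t') :
    ∃ C : KK κ → CC κ, (∀ ξ, C ξ ∈ RR ξ ∧ ∀ s ∈ ST ξ, ∀ t' ∈ LvB e t (pt 5 ξ), C ξ ∈ E ξ s t') ∧
      {x | PSub (C (𝔖.kap x)) (𝔖.rs x)} ∈ 𝔖.W := by
  obtain ⟨C, hC, hC'⟩ := 𝔖.guide
    (fun ξ => {c | ∀ s ∈ ST ξ, ∀ t' ∈ LvB e t (pt 5 ξ), c ∈ E ξ s t'})
    (fun ξ c hc c' hc' hcc s hs t' ht' => hopen ξ s t' c (hc s hs t' ht') c' hc' hcc)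
    (fun ξ c hc => by
      have hN : #(ST ξ × LvB e t (pt 5 ξ)) < Order.succ (w 9 ξ) := by
        rw [Order.lt_succ_iff]
        refine mk_prod_le_w ?_ ?_
        · exact (mk_ST_le h0 ξ).trans (w_le (by omega) ξ)
        · refine (mk_LvB_le e t (pt 5 ξ)).trans ?_
          rw [w_pt h0]
          exact w_le (by omega) ξ
      obtain ⟨q, hq, hq'⟩ := exists_forall_mem
        ((aleph0_le_w 9 ξ).trans (Order.le_succ _)) (dirClosed_RT ξ) hN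
        (fun y => {r : RT ξ | r.c ∈ E ξ y.1.1 y.2.1})
        (fun y r hr r' hr' => hopen ξ _ _ r.c hr r'.c r'.mem hr')
        (fun y r => by
          obtain ⟨c', h1, h2, h3⟩ := hdense ξ y.1.1 y.1.2 y.2.1 y.2.2 r.c r.mem
          exact ⟨⟨c', h1⟩, h2, h3⟩) ⟨c, hc⟩
      exact ⟨q.c, q.mem, hq, fun s hs t' ht' => hq' (⟨s, hs⟩, ⟨t', ht'⟩)⟩)
  exact ⟨C, fun ξ => ⟨(hC ξ).1, (hC ξ).2⟩, hC'⟩

/-- the bounds for the stems and modifications below a point -/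
theorem bound_of_mem (h0 : Inacc κ) {ys : List 𝔖.X} {s : Stem κ} {v : Stem κ} (hw : WF s)
    (hs : sLe s (ys.map (bas 𝔖) ++ v)) {y : 𝔖.X} (hy : y ∈ ys) :
    ∃ i < 𝔖.kap y, ∃ v', sLe v' v ∧ SB i v' := by
  obtain ⟨u', v', rfl, h1, h2⟩ := sLe_append_iff hs
  induction ys generalizing u' with
  | nil => exact absurd hy List.not_mem_nil
  | cons z ys ih =>
    rw [List.map_cons] at h1 hs
    obtain ⟨e', u'', rfl, h3, h4⟩ := sLe_cons_iff h1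
    rcases List.mem_cons.1 hy with rfl | hy
    · obtain ⟨i, hi, h5⟩ := hw.2.2.1
      refine ⟨i, ?_, v', h2, (SB_append.1 h5).2⟩
      have h6 : e'.1 = 𝔖.kap y := h3.1
      rw [← h6]; exact hi
    · exact ih hy u'' hw.tail (h4.append h2) h4

/-- extending by at least one point -/
theorem exists_ext_concat (h0 : Inacc κ) {q p : Cnd 𝔖} (h : q ≤ p) : ∃ q1 ≤ q, ∃ ys x,
    LeBy (ys ++ [x]) q1 p := by
  obtain ⟨xs, hxs⟩ := h
  obtain ⟨y, hy, -, hb⟩ := exists_point_above h0 q (B := univ) Filter.univ_mem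
  obtain ⟨q1, h1, -⟩ := exists_point_ext q y hy hb
  have h2 := h1.trans hxs
  rcases List.eq_nil_or_concat ([y] ++ xs) with h3 | ⟨L, b, h3⟩
  · simp at h3
  · rw [h3] at h2
    exact ⟨q1, ⟨_, h1⟩, L, b, by simpa using h2⟩

/-- **The Prikry property** -/
theorem prikry (h0 : Inacc κ) {φ : Set (Cnd 𝔖)} (hd : Down φ) (hr : en_Reg φ) (p : Cnd 𝔖) :
    ∃ q, DLe q p ∧ q ∈ dcd φ := by
  classical
  have hd' : Down (fnot φ) := down_fnot φ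
  have hr' : en_Reg (fnot φ) := en_Reg_fnot hd
  have hdd := down_dcd hd
  -- fusion
  obtain ⟨t, ht1, ht2, ht3⟩ := fusion h0 (J := {s : Stem κ | WF s}) (mk_WF_le h0)
    (fun s t => frc (dcd φ) s.1 t)
    (fun s t t' h1 h2 h3 => h3.mono hdd (sLe.refl _) s.2 h1 h2) p.t p.ht
  obtain ⟨e, he⟩ := exists_enum ht2
  -- collapses
  obtain ⟨Cf, hCf, hCfW⟩ := guide' h0 𝔖 e t
    (fun ξ s t' => {r | ∀ c ∈ RR ξ, PSub r c → frc (dcd φ) ((ξ, c) :: s) t' →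
      frc (dcd φ) ((ξ, r) :: s) t'})
    (fun ξ s t' c hc c' hc' hcc d hd1 hd2 hd3 => by
      have h1 := hc d hd1 (hcc.trans hd2) hd3
      refine h1.mono hdd (List.Forall₂.cons ⟨rfl, hcc⟩ (sLe.refl _)) ?_ (PSub.refl _) h1.ht
      exact hd3.wf.of_sLe (List.Forall₂.cons ⟨rfl, hd2⟩ (sLe.refl _)))
    (fun ξ s hs t' ht' c hc => by
      by_cases h : ∃ d ∈ RR ξ, PSub c d ∧ frc (dcd φ) ((ξ, d) :: s) t'
      · obtain ⟨d, hd1, hd2, hd3⟩ := h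
        refine ⟨d, hd1, hd2, fun c' hc' hdc h => ?_⟩
        exact hd3
      · push Not at h
        exact ⟨c, hc, PSub.refl _, fun d hd1 hd2 hd3 => absurd hd3 (h d hd1 hd2)⟩)
  -- colours
  have hcol : ∀ (s : Stem κ) (t' : TT κ), ∃ B ∈ 𝔖.W,
      (∀ x ∈ B, frc φ ((𝔖.kap x, Cf (𝔖.kap x)) :: s) (upd 𝔖 x t')) ∨
      (∀ x ∈ B, frc (fnot φ) ((𝔖.kap x, Cf (𝔖.kap x)) :: s) (upd 𝔖 x t')) ∨
      (∀ x ∈ B, ¬ frc (dcd φ) ((𝔖.kap x, Cf (𝔖.kap x)) :: s) (upd 𝔖 x t')) := by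
    intro s t'
    by_cases h1 : {x | frc φ ((𝔖.kap x, Cf (𝔖.kap x)) :: s) (upd 𝔖 x t')} ∈ 𝔖.W
    · exact ⟨_, h1, Or.inl fun x hx => hx⟩
    · by_cases h2 : {x | frc (fnot φ) ((𝔖.kap x, Cf (𝔖.kap x)) :: s) (upd 𝔖 x t')} ∈ 𝔖.W
      · exact ⟨_, h2, Or.inr (Or.inl fun x hx => hx)⟩
      · rw [← Ultrafilter.compl_mem_iff_notMem] at h1 h2
        refine ⟨_, Filter.inter_mem h1 h2, Or.inr (Or.inr fun x hx h3 => ?_)⟩
        rcases frc_dcd.1 h3 with h3 | h3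
        · exact hx.1 h3
        · exact hx.2 h3
  choose B hBW hB using hcol
  obtain ⟨A, hA⟩ : ∃ A : Set 𝔖.X, A = {x | ∀ i < 𝔖.kap x, ∀ s ∈ ST i, ∀ t' ∈ LvB e t i, ∀ b ≤ i,
    x ∈ (fun (s : Stem κ) (t' : TT κ) (_ : KK κ) => B s t' ∩ (Wt φ s t' ∩ Wt (fnot φ) s t')) s t' b} ∩
      (Cv 𝔖 e ∩ {x | PSub (Cf (𝔖.kap x)) (𝔖.rs x)}) := ⟨_, rfl⟩
  have hAW : A ∈ 𝔖.W := by
    rw [hA]
    exact Filter.inter_mem (diag 𝔖 h0 e t _ fun s t' b => Filter.inter_mem (hBW s t')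
      (Filter.inter_mem (Wt_mem _ _ _) (Wt_mem _ _ _))) (Filter.inter_mem (Cv_mem 𝔖 e) hCfW)
  have hAB : ∀ x ∈ A, ∀ i < 𝔖.kap x, ∀ s ∈ ST i, ∀ t' ∈ LvB e t i,
      x ∈ B s t' ∧ x ∈ Wt φ s t' ∧ x ∈ Wt (fnot φ) s t' := by
    intro x hx i hi s hs t' ht'
    rw [hA] at hx
    exact hx.1 i hi s hs t' ht' i le_rfl
  have hACv : ∀ x ∈ A, x ∈ Cv 𝔖 e := by
    intro x hx; rw [hA] at hx; exact hx.2.1
  have hACf : ∀ x ∈ A, PSub (Cf (𝔖.kap x)) (𝔖.rs x) := by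
    intro x hx; rw [hA] at hx; exact hx.2.2
  -- from one step extensions to the condition
  have up : ∀ (ψ : Set (Cnd 𝔖)), Down ψ → en_Reg ψ →
      (∀ x ∈ A, ∀ i < 𝔖.kap x, ∀ s ∈ ST i, ∀ t' ∈ LvB e t i, x ∈ Wt ψ s t') →
      ∀ (s : Stem κ) (t' : TT κ), WF s → #(dm t') ≤ κ → (∀ i, SB i s → t' ∈ LvB e t i) →
      (∀ x ∈ B s t', frc ψ ((𝔖.kap x, Cf (𝔖.kap x)) :: s) (upd 𝔖 x t')) → frc ψ s t' := by
    intro ψ hψ hψ' hW s t' hs ht' hLv hall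
    refine ⟨⟨s, t', A ∩ B s t', hs, ht', Filter.inter_mem hAW (hBW s t')⟩, ?_, rfl, rfl⟩
    apply hψ'
    intro q hq
    obtain ⟨q1, hq1, ys, x, hx⟩ := exists_ext_concat h0 hq
    obtain ⟨h1, h2, h3, h4⟩ := hx
    have hxA := h1 x (by simp)
    rw [List.map_append, List.append_assoc] at h2
    simp only [List.map_cons, List.map_nil, List.singleton_append] at h2
    rw [addt_append] at h3
    have h3' : PSub (addt 𝔖 ys (upd 𝔖 x t')) q1.t := h3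
    have h5 := hall x hxA.2
    have hle : sLe (bas 𝔖 x :: s) ((𝔖.kap x, Cf (𝔖.kap x)) :: s) :=
      List.Forall₂.cons ⟨rfl, hACf x hxA.1⟩ (sLe.refl _)
    refine ⟨_, ((q1.shrink_le (Wt ψ _ _) (Wt_mem ψ _ _)).le).trans hq1,
      wit hψ h5 (ys := ys) ?_ (h2.trans ((sLe.refl _).append hle)) h3'⟩
    intro y hy
    have hyA := h1 y (by simp [hy])
    obtain ⟨i, hi, v', h6, h7⟩ := bound_of_mem h0 q1.wf h2 hy
    have h8 : SB i (bas 𝔖 x :: s) := h7.of_sLe h6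
    have h9 : pt 10 (𝔖.kap x) ≤ i := (SB_cons.1 h8).1.1
    refine hW y hyA.1 i hi _ ⟨h5.wf, h8.of_sLe hle⟩ _ ?_
    refine upd_mem_LvB 𝔖 h0 he (hLv i (SB_cons.1 h8).2) x (hACv x hxA.1) le_rfl ?_
    exact (pt_le_pt h0 (by norm_num) _).trans h9
  have step : ∀ (x : 𝔖.X) (e' : Ent κ) (s : Stem κ) (t' : TT κ), x ∈ A → entLe e' (bas 𝔖 x) →
      (∀ i, SB i s → t' ∈ LvB e t i) → frc (dcd φ) (e' :: s) (upd 𝔖 x t') →
      frc (dcd φ) s t' := by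
    intro x e' s t' hx he' hLv hfrc
    have hwf := hfrc.wf
    obtain ⟨i, hi, hsi⟩ := hwf.2.2.1
    have hk : e'.1 = 𝔖.kap x := he'.1
    have hki : i < 𝔖.kap x := hk ▸ hi
    have ht' : #(dm t') ≤ κ := by have := hfrc.ht; rwa [dm_upd] at this
    have hsT : s ∈ ST i := ⟨hwf.tail, hsi⟩
    have h1 : frc (dcd φ) ((𝔖.kap x, Cf (𝔖.kap x)) :: s) (upd 𝔖 x t') := by
      refine (hCf (𝔖.kap x)).2 s (ST_mono hki.le hsT) (upd 𝔖 x t') ?_ e'.2 ?_ ?_ ?_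
      · exact upd_mem_LvB 𝔖 h0 he (hLv i hsi) x (hACv x hx)
          (hki.trans (lt_pt h0 (by norm_num) _)).le le_rfl
      · rw [← hk]; exact hwf.1
      · exact (hACf x hx).trans he'.2
      · have : ((𝔖.kap x, e'.2) : Ent κ) = e' := by rw [← hk]
        rw [this]; exact hfrc
    have hxB := hAB x hx i hki s hsT t' (hLv i hsi)
    rcases hB s t' with h2 | h2 | h2
    · exact (up φ hd hr (fun x hx i hi s hs t' ht' => (hAB x hx i hi s hs t' ht').2.1) s t'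
        hwf.tail ht' hLv h2).subset subset_union_left
    · exact (up (fnot φ) hd' hr' (fun x hx i hi s hs t' ht' => (hAB x hx i hi s hs t' ht').2.2) s t'
        hwf.tail ht' hLv h2).subset subset_union_right
    · exact absurd h1 (h2 x hxB.1)
  have peel : ∀ (xs : List 𝔖.X) (s : Stem κ), (∀ x ∈ xs, x ∈ A) →
      sLe s (xs.map (bas 𝔖) ++ p.s) → frc (dcd φ) s (addt 𝔖 xs t) →
      ∃ s1, sLe s1 p.s ∧ frc (dcd φ) s1 t := by
    intro xs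
    induction xs with
    | nil => intro s _ hs hf; exact ⟨s, hs, hf⟩
    | cons x xs ih =>
      intro s hxs hs hf
      rw [List.map_cons, List.cons_append] at hs
      obtain ⟨e', s', rfl, h1, h2⟩ := sLe_cons_iff hs
      refine ih s' (fun y hy => hxs y (List.mem_cons_of_mem _ hy)) h2 ?_
      refine step x e' s' _ (hxs x List.mem_cons_self) h1 (fun i hi => ?_) hf
      exact addt_mem_LvB 𝔖 h0 he xs
        (fun y hy => hACv y (hxs y (List.mem_cons_of_mem _ hy))) h2 hi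
  obtain ⟨q, ⟨xs, hxs⟩, hq⟩ := dcd_dense (φ := φ)
    (⟨p.s, t, p.A ∩ A, p.wf, ht2, Filter.inter_mem p.hA hAW⟩ : Cnd 𝔖)
  obtain ⟨i, hi⟩ := exists_SB h0 q.wf
  have hM : addt 𝔖 xs t ∈ Mods t := LvB_subset_Mods h0 e t i
    (addt_mem_LvB 𝔖 h0 he xs (fun x hx => hACv x (hxs.1 x hx).2) hxs.2.1 hi)
  have h1 : frc (dcd φ) q.s (addt 𝔖 xs t) := by
    rcases ht3 ⟨q.s, q.wf⟩ _ hM with h2 | h2
    · exact h2
    · exact absurd ⟨q, hq, rfl, rfl⟩ (h2 q.t hxs.2.2.1 q.ht)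
  obtain ⟨s1, h2, r, h3, h4, h5⟩ := peel xs q.s (fun x hx => (hxs.1 x hx).2) hxs.2.1 h1
  refine ⟨⟨s1, t, p.A ∩ r.A, by rw [← h4]; exact r.wf, ht2, Filter.inter_mem p.hA r.hA⟩,
    ⟨h2, ht1, inter_subset_left⟩, hdd r h3 _ (DLe.le ⟨?_, ?_, inter_subset_right⟩)⟩
  · show sLe s1 r.s
    rw [h4]; exact sLe.refl _
  · show PSub r.t t
    rw [h5]; exact PSub.refl _

end

end Run7.h699
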