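import Mathlib
import Pool.Agent.Run7.h699.Prikry

set_option autoImplicit false

/-!
# Deciding many statements up to the lower part of the stem
-/

namespace Run7.h699

open Cardinal Set Pool.Agent.Helper669.K Pool.Agent.Helper669.Forcing

section

variable {κ : Cardinal.{0}}

theorem sLe_nil {s : Stem κ} (h : sLe s []) : s = [] := by
  cases h
  rfl

theorem WF.change {e e' : Ent κ} {s : Stem κ} (h : WF (e :: s)) (he : entLe e' e)
    (hR : e'.2 ∈ RR e'.1) : WF (e' :: s) := by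
  obtain ⟨h1, h2, ⟨i, hi, h3⟩, h4⟩ := h
  exact ⟨hR, he.1 ▸ h2, ⟨i, he.1 ▸ hi, h3⟩, h4⟩

theorem WF.le_pt {u : Stem κ} {e0 : Ent κ} {s : Stem κ} (h : WF (u ++ e0 :: s)) {e : Ent κ}
    (he : e ∈ u) : pt 10 e0.1 < e.1 := by
  obtain ⟨i, hi, h1⟩ := h.bound he
  exact (SB_cons.1 h1).1.1.trans_lt hi

theorem w9_le_of_lt (h0 : Inacc κ) {a b : KK κ} (h : pt 10 a < b) : w 9 a < #(Iio b) := by
  have h1 : #(Iio (pt 10 a)) = w 10 a := mk_Iio_pt h0 10 a
  calc w 9 a < w 10 a := w_lt (by norm_num) a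
    _ = #(Iio (pt 10 a)) := h1.symm
    _ ≤ #(Iio b) := mk_le_mk_of_subset (Iio_subset_Iio h.le)

theorem stem_union (h0 : Inacc κ) {D : Type} [Nonempty D] {θ : Cardinal.{0}} (hD : #D ≤ θ)
    (u0 s0 : Stem κ) (hθ : ∀ e ∈ u0, θ ≤ w 9 e.1) (F : D → Stem κ) (hF : ∀ d, sLe (F d) u0)
    (hwf : ∀ d, WF (F d ++ s0)) (hdir : ∀ a b, ∃ c, sLe (F c) (F a) ∧ sLe (F c) (F b)) :
    ∃ U, (∀ d, sLe U (F d)) ∧ WF (U ++ s0) ∧ ∀ i, (∀ d, SB i (F d)) → SB i U := by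
  induction u0 generalizing F with
  | nil =>
    have h1 : ∀ d, F d = [] := fun d => sLe_nil (hF d)
    refine ⟨[], fun d => by rw [h1 d]; exact sLe.refl _, ?_, fun i _ => SB_nil i⟩
    have := hwf (Classical.arbitrary D)
    rw [h1] at this
    exact this
  | cons e0 u0 ih =>
    have h1 : ∀ d, ∃ e' F', F d = e' :: F' ∧ entLe e' e0 ∧ sLe F' u0 := fun d =>
      sLe_cons_iff (hF d)
    choose e' F' h2 h3 h4 using h1
    have h5 : ∀ d d', sLe (F d) (F d') → entLe (e' d) (e' d') ∧ sLe (F' d) (F' d') := by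
      intro d d' h
      rw [h2, h2] at h
      cases h with
      | cons h6 h7 => exact ⟨h6, h7⟩
    have hwf' : ∀ d, WF (e' d :: (F' d ++ s0)) := fun d => by
      have := hwf d
      rw [h2] at this
      exact this
    obtain ⟨U', hU1, hU2, hU3⟩ := ih (fun e he => hθ e (List.mem_cons_of_mem _ he)) F' h4
      (fun d => (hwf' d).tail)
      (fun a b => by
        obtain ⟨c, hc1, hc2⟩ := hdir a b
        exact ⟨c, (h5 c a hc1).2, (h5 c b hc2).2⟩)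
    have hcomp : PCompat fun d : D => (e' d).2 := PCompat_of_directed fun a b => by
      obtain ⟨c, hc1, hc2⟩ := hdir a b
      exact ⟨c, (h5 c a hc1).1.2, (h5 c b hc2).1.2⟩
    have he1 : ∀ d, (e' d).1 = e0.1 := fun d => (h3 d).1
    have hbd : ∃ i < e0.1, ∀ d, SB i (F' d ++ s0) := by
      have h6 : ∀ d, ∃ i < e0.1, SB i (F' d ++ s0) := fun d => by
        obtain ⟨i, hi, h⟩ := (hwf' d).2.2.1
        exact ⟨i, he1 d ▸ hi, h⟩
      choose idx hidx1 hidx2 using h6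
      cases hu : u0 with
      | nil =>
        have h7 : ∀ d, F' d = [] := fun d => sLe_nil (by rw [← hu]; exact h4 d)
        obtain ⟨d⟩ : Nonempty D := inferInstance
        refine ⟨idx d, hidx1 d, fun d' => ?_⟩
        rw [h7, ← h7 d]
        exact hidx2 d
      | cons e1 u1 =>
        obtain ⟨d⟩ : Nonempty D := inferInstance
        have h7 : pt 10 e1.1 < e0.1 := by
          have h8 := h4 d
          rw [hu] at h8
          obtain ⟨e2, v2, h9, h10, h11⟩ := sLe_cons_iff h8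
          have h12 := hwf' d
          rw [h9] at h12
          obtain ⟨i, hi, h13⟩ := h12.2.2.1
          have h14 := h13 e2 (by simp)
          rw [← he1 d, ← h10.1]
          exact h14.1.trans_lt hi
        have h8 : #(range idx) < #(Iio e0.1) := by
          refine (mk_range_le.trans hD).trans_lt ?_
          refine (hθ e1 (by rw [hu]; simp)).trans_lt ?_
          exact w9_le_of_lt h0 h7
        obtain ⟨i, hi, h9⟩ := (he1 d ▸ (hwf' d).2.1 : RegPt e0.1).2 (range idx)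
          (by rintro _ ⟨d, rfl⟩; exact hidx1 d) h8
        exact ⟨i, hi, fun d => (hidx2 d).mono (h9 _ ⟨d, rfl⟩).le⟩
    obtain ⟨i0, hi0, hb⟩ := hbd
    refine ⟨(e0.1, pU fun d : D => (e' d).2) :: U', fun d => ?_, ?_, fun i hi => ?_⟩
    · rw [h2]
      exact List.Forall₂.cons ⟨(he1 d).symm, le_pU hcomp d⟩ (hU1 d)
    · refine ⟨?_, ?_, ⟨i0, hi0, ?_⟩, hU2⟩
      · refine pU_mem_RR (hD.trans (hθ e0 List.mem_cons_self)) hcomp fun d => ?_
        have := (hwf' d).1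
        rwa [he1 d] at this
      · obtain ⟨d⟩ : Nonempty D := inferInstance
        exact he1 d ▸ (hwf' d).2.1
      · refine SB_append.2 ⟨hU3 i0 fun d => (SB_append.1 (hb d)).1, ?_⟩
        obtain ⟨d⟩ : Nonempty D := inferInstance
        exact (SB_append.1 (hb d)).2
    · refine SB_cons.2 ⟨⟨?_, fun a b hab => ?_⟩, hU3 i fun d => ?_⟩
      · obtain ⟨d⟩ : Nonempty D := inferInstance
        have h6 := hi d
        rw [h2, SB_cons] at h6
        rw [← he1 d]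
        exact h6.1.1
      · obtain ⟨d, hd⟩ := (pU_eq_some hcomp).1 hab
        have h6 := hi d
        rw [h2, SB_cons] at h6
        exact h6.1.2 a b hd
      · have h6 := hi d
        rw [h2, SB_cons] at h6
        exact h6.2

variable (𝔖 : Setup κ)

/-- the conditions with the lower part of the stem fixed -/
structure Up (u0 s0 : Stem κ) where
  /-- the upper part of the stem -/
  u : Stem κ
  /-- the partial function -/
  t : TT κ
  /-- the set of measure one -/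
  A : Set 𝔖.X
  hu : sLe u u0
  wf : WF (u ++ s0)
  ht : #(dm t) ≤ κ
  hA : A ∈ 𝔖.W

instance (u0 s0 : Stem κ) : Preorder (Up 𝔖 u0 s0) where
  le a b := sLe a.u b.u ∧ PSub b.t a.t ∧ a.A ⊆ b.A
  le_refl a := ⟨sLe.refl _, PSub.refl _, subset_rfl⟩
  le_trans _ _ _ h h' := ⟨h.1.trans h'.1, h'.2.1.trans h.2.1, h.2.2.trans h'.2.2⟩

theorem dirClosed_Up (h0 : Inacc κ) {u0 s0 : Stem κ} {θ : Cardinal.{0}} (hθκ : θ < κ)
    (hθ : ∀ e ∈ u0, θ ≤ w 9 e.1) : DirClosed (Order.succ θ) (Up 𝔖 u0 s0) := by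
  intro D hD hne hdir
  have hD' : #D ≤ θ := Order.lt_succ_iff.1 hD
  have : Nonempty D := hne.to_subtype
  obtain ⟨U, hU1, hU2, -⟩ := stem_union h0 hD' u0 s0 hθ (fun d : D => d.1.u) (fun d => d.1.hu)
    (fun d => d.1.wf) (fun a b => by
      obtain ⟨c, hc, h1, h2⟩ := hdir a.1 a.2 b.1 b.2
      exact ⟨⟨c, hc⟩, h1.1, h2.1⟩)
  have hcomp : PCompat fun d : D => d.1.t := PCompat_of_directed fun i j => by
    obtain ⟨c, hc, h1, h2⟩ := hdir i.1 i.2 j.1 j.2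
    exact ⟨⟨c, hc⟩, h1.2.1, h2.2.1⟩
  refine ⟨⟨U, pU fun d : D => d.1.t, ⋂ d : D, d.1.A, ?_, hU2,
    mk_dm_pU_le h0 (hD'.trans hθκ.le) hcomp fun d => d.1.ht,
    𝔖.complete _ (hD'.trans_lt hθκ) _ fun d => d.1.hA⟩, fun a ha => ⟨hU1 ⟨a, ha⟩,
      le_pU hcomp (⟨a, ha⟩ : D), iInter_subset _ (⟨a, ha⟩ : D)⟩⟩
  obtain ⟨d⟩ : Nonempty D := inferInstance
  exact (hU1 d).trans d.1.hu

variable {𝔖}

/-- deciding many statements -/
theorem split (h0 : Inacc κ) (p : Cnd 𝔖) (u1 : Stem κ) (e0 : Ent κ) (s0 : Stem κ)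
    (hp : p.s = u1 ++ e0 :: s0) {N : Type} (hN : #N ≤ w 9 e0.1) (φ : N → Set (Cnd 𝔖))
    (hd : ∀ i, Down (φ i)) (hr : ∀ i, en_Reg (φ i)) :
    ∃ (q : Cnd 𝔖) (u2 : Stem κ) (e2 : Ent κ), q.s = u2 ++ e2 :: s0 ∧ sLe u2 u1 ∧ entLe e2 e0 ∧
      PSub p.t q.t ∧ q.A ⊆ p.A ∧ ∀ i s1, sLe s1 s0 → WF (e0 :: s1) → ∃ s2, sLe s2 s1 ∧
        ∃ q' : Cnd 𝔖, q'.s = u2 ++ e2 :: s2 ∧ q'.t = q.t ∧ q'.A = q.A ∧ q' ∈ dcd (φ i) := by
  have hwf : WF (u1 ++ e0 :: s0) := hp ▸ p.wf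
  have hθ : ∀ e ∈ u1 ++ [e0], w 9 e0.1 ≤ w 9 e.1 := by
    intro e he
    rcases List.mem_append.1 he with h | h
    · exact w_mono_pt (((lt_pt h0 (by norm_num) _).le).trans (hwf.le_pt h).le) 9
    · rw [List.mem_singleton] at h
      rw [h]
  have hM : #(N × {s1 : Stem κ | sLe s1 s0 ∧ WF (e0 :: s1)}) < Order.succ (w 9 e0.1) := by
    rw [Order.lt_succ_iff]
    refine mk_prod_le_w hN ?_
    refine (mk_le_mk_of_subset ?_).trans ((mk_ST_le h0 e0.1).trans (w_le (by norm_num) _))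
    rintro s1 ⟨_, h1⟩
    obtain ⟨i, hi, h2⟩ := h1.2.2.1
    exact ⟨h1.tail, h2.mono hi.le⟩
  -- changing the lower part
  have hrep : ∀ {u s s' : Stem κ} {e : Ent κ}, sLe u (u1 ++ [e0]) → WF (u ++ s) →
      WF (e0 :: s') → WF (u ++ s') := by
    intro u s s' e hu h1 h2
    obtain ⟨u', v', rfl, h3, h4⟩ := sLe_append_iff hu
    obtain ⟨e', v'', rfl, h5, h6⟩ := sLe_cons_iff h4
    cases h6
    rw [List.append_assoc] at h1 ⊢
    refine WF.replace_cons h0 h1 (h2.change h5 ?_)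
    exact h1.right.1
  obtain ⟨a, ha1, ha2⟩ := exists_forall_mem ((aleph0_le_w 9 e0.1).trans (Order.le_succ _))
    (dirClosed_Up 𝔖 h0 (u0 := u1 ++ [e0]) (s0 := s0) (w_lt_kappa h0 9 e0.1) hθ) hM
    (fun y => {a : Up 𝔖 (u1 ++ [e0]) s0 | ∃ s2, sLe s2 y.2.1 ∧ ∃ q' : Cnd 𝔖, q'.s = a.u ++ s2 ∧
      q'.t = a.t ∧ q'.A = a.A ∧ q' ∈ dcd (φ y.1)})
    (fun y a h b hb => by
      obtain ⟨s2, h1, q', h2, h3, h4, h5⟩ := h
      have hw : WF (b.u ++ s2) := by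
        obtain ⟨u', v', h6, h7, h8⟩ := sLe_append_iff a.hu
        obtain ⟨e', v'', h9, h10, h11⟩ := sLe_cons_iff h8
        cases h11
        have h12 : WF (a.u ++ s2) := h2 ▸ q'.wf
        rw [h6, h9, List.append_assoc] at h12
        refine hrep (e := e0) b.hu b.wf ?_
        have h13 : WF (e' :: s2) := h12.right
        obtain ⟨h14, h15, ⟨i, hi, h16⟩, h17⟩ := h13
        refine ⟨?_, h10.1 ▸ h15, ⟨i, h10.1 ▸ hi, h16⟩, h17⟩
        exact hwf.right.1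
      refine ⟨s2, h1, ⟨b.u ++ s2, b.t, b.A, hw, b.ht, b.hA⟩, rfl, rfl, rfl, ?_⟩
      refine down_dcd (hd y.1) q' h5 _ (DLe.le ⟨?_, ?_, ?_⟩)
      · show sLe (b.u ++ s2) q'.s
        rw [h2]
        exact hb.1.append (sLe.refl _)
      · show PSub q'.t b.t
        rw [h3]; exact hb.2.1
      · show b.A ⊆ q'.A
        rw [h4]; exact hb.2.2)
    (fun y a => by
      have hw : WF (a.u ++ y.2.1) := hrep (e := e0) a.hu a.wf y.2.2.2
      obtain ⟨q', h1, h2⟩ := prikry h0 (hd y.1) (hr y.1)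
        (⟨a.u ++ y.2.1, a.t, a.A, hw, a.ht, a.hA⟩ : Cnd 𝔖)
      obtain ⟨u', s2, h3, h4, h5⟩ := sLe_append_iff h1.1
      have hw' : WF (u' ++ s0) := by
        have h6 : WF (u' ++ s2) := h3 ▸ q'.wf
        exact h6.of_sLe ((sLe.refl _).append (h5.trans y.2.2.1))
      exact ⟨⟨u', q'.t, q'.A, h4.trans a.hu, hw', q'.ht, q'.hA⟩, ⟨h4, h1.2.1, h1.2.2⟩, s2, h5, q',
        h3, rfl, rfl, h2⟩)
    ⟨u1 ++ [e0], p.t, p.A, sLe.refl _, by
      have : (u1 ++ [e0]) ++ s0 = u1 ++ e0 :: s0 := by simp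
      rw [this]; exact hwf, p.ht, p.hA⟩
  obtain ⟨u2, v', h6, h7, h8⟩ := sLe_append_iff a.hu
  obtain ⟨e2, v'', h9, h10, h11⟩ := sLe_cons_iff h8
  cases h11
  have h12 : ∀ s : Stem κ, a.u ++ s = u2 ++ e2 :: s := fun s => by
    rw [h6, h9, List.append_assoc]; rfl
  refine ⟨⟨a.u ++ s0, a.t, a.A, a.wf, a.ht, a.hA⟩, u2, e2, h12 s0, h7, h10, ha1.2.1, ha1.2.2,
    fun i s1 hs1 hs1' => ?_⟩
  obtain ⟨s2, h13, q', h14, h15, h16, h17⟩ := ha2 (i, ⟨s1, hs1, hs1'⟩)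
  exact ⟨s2, h13, q', by rw [h14, h12], h15, h16, h17⟩

end

end Run7.h699
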