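import Mathlib
import Pool.Agent.Run7.h699.Split

set_option autoImplicit false

/-!
# Prepared conditions, for a family of `κ` many statements
-/

namespace Run7.h699

open Cardinal Set Pool.Agent.Helper669.K Pool.Agent.Helper669.Forcing

section

variable {κ : Cardinal.{0}} {𝔖 : Setup κ}

/-- the first statements are decided, up to the lower part of the stem -/
def Good (φ : KK κ → Set (Cnd 𝔖)) (s0 : Stem κ) (t : TT κ) (e : Ent κ) : Prop :=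
  WF (e :: s0) → ∀ b < pt 8 e.1, ∀ s1, sLe s1 s0 → WF (e :: s1) → ∃ s2, sLe s2 s1 ∧
    frc (dcd (φ b)) (e :: s2) t

/-- The data prepared for the family `φ`. -/
structure Prep (φ : KK κ → Set (Cnd 𝔖)) where
  /-- the partial function -/
  t : TT κ
  /-- an enumeration of the support -/
  e : KK κ → II κ
  /-- the guiding collapses -/
  C : KK κ → CC κ
  /-- the set of measure one -/
  A : Set 𝔖.X
  ht : #(dm t) ≤ κ
  he : dm t ⊆ range e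
  hA : A ∈ 𝔖.W
  hC : ∀ ξ, C ξ ∈ RR ξ
  good : ∀ ξ, ∀ s ∈ ST ξ, ∀ t' ∈ LvB e t (pt 5 ξ), Good φ s t' (ξ, C ξ)
  cov : ∀ x ∈ A, x ∈ Cv 𝔖 e
  sub : ∀ x ∈ A, PSub (C (𝔖.kap x)) (𝔖.rs x)
  wt : ∀ x ∈ A, ∀ i < 𝔖.kap x, ∀ s ∈ ST i, ∀ t' ∈ LvB e t i, ∀ b ≤ i,
    x ∈ Wt (φ b) s t' ∧ x ∈ Wt (fnot (φ b)) s t'

theorem exists_prep (h0 : Inacc κ) (φ : KK κ → Set (Cnd 𝔖)) (hd : ∀ b, Down (φ b))
    (hr : ∀ b, en_Reg (φ b)) (t0 : TT κ) (ht0 : #(dm t0) ≤ κ) :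
    ∃ P : Prep φ, PSub t0 P.t := by
  obtain ⟨t, ht1, ht2, ht3⟩ := fusion h0 (J := {s : Stem κ | WF s}) (mk_WF_le h0)
    (fun s t => ∀ e s0, s.1 = e :: s0 → Good φ s0 t e)
    (fun s t t' h1 h2 h3 e s0 hs hw b hb s1 hs1 hw1 => by
      obtain ⟨s2, h4, h5⟩ := h3 e s0 hs hw b hb s1 hs1 hw1
      exact ⟨s2, h4, h5.mono (down_dcd (hd b)) (sLe.refl _) h5.wf h1 h2⟩) t0 ht0
  obtain ⟨e, he⟩ := exists_enum ht2
  obtain ⟨C, hC, hCW⟩ := guide' h0 𝔖 e t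
    (fun ξ s t' => {c | Good φ s t' (ξ, c)})
    (fun ξ s t' c hc c' hc' hcc hw b hb s1 hs1 hw1 => by
      have hle : ∀ v : Stem κ, sLe ((ξ, c') :: v) ((ξ, c) :: v) := fun v =>
        List.Forall₂.cons ⟨rfl, hcc⟩ (sLe.refl _)
      obtain ⟨s2, h4, h5⟩ := hc (hw.of_sLe (hle s)) b hb s1 hs1 (hw1.of_sLe (hle s1))
      exact ⟨s2, h4, h5.mono (down_dcd (hd b)) (hle s2) (h5.wf.change ⟨rfl, hcc⟩ hc')
        (PSub.refl _) h5.ht⟩)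
    (fun ξ s hs t' ht' c hc => by
      have htk : #(dm t') ≤ κ := by rw [ht'.1]; exact ht2
      by_cases hw : WF ((ξ, c) :: s)
      · obtain ⟨q, u2, e2, h1, h2, h3, h4, h5, h6⟩ := split h0
          (⟨(ξ, c) :: s, t', univ, hw, htk, Filter.univ_mem⟩ : Cnd 𝔖) [] (ξ, c) s rfl
          (N := Iio (pt 8 ξ)) (by rw [mk_Iio_pt h0]; exact w_le (by norm_num) ξ)
          (fun b => φ b.1) (fun b => hd b.1) (fun b => hr b.1)
        have hu2 := sLe_nil h2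
        subst hu2
        obtain ⟨ξ2, c'⟩ := e2
        have h3' : ξ2 = ξ := h3.1
        subst h3'
        have hwq : WF ((ξ2, c') :: s) := by
          have := q.wf
          rw [h1] at this
          exact this
        have hG : Good φ s q.t (ξ2, c') := by
          intro _ b hb s1 hs1 hw1
          obtain ⟨s2, h7, q', h8, h9, h10, h11⟩ := h6 ⟨b, hb⟩ s1 hs1
            (hw1.of_sLe (List.Forall₂.cons h3 (sLe.refl _)))
          exact ⟨s2, h7, q', h11, h8, h9⟩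
        refine ⟨c', hwq.1, h3.2, ?_⟩
        rcases ht3 ⟨(ξ2, c') :: s, hwq⟩ t' (LvB_subset_Mods h0 e t _ ht') with h7 | h7
        · exact h7 _ _ rfl
        · refine absurd ?_ (h7 q.t h4 q.ht)
          intro e3 s3 h8
          simp only [List.cons.injEq] at h8
          obtain ⟨rfl, rfl⟩ := h8
          exact hG
      · exact ⟨c, hc, PSub.refl _, fun h => absurd h hw⟩)
  obtain ⟨A, hA⟩ : ∃ A : Set 𝔖.X, A = {x | ∀ i < 𝔖.kap x, ∀ s ∈ ST i, ∀ t' ∈ LvB e t i, ∀ b ≤ i,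
    x ∈ (fun (s : Stem κ) (t' : TT κ) (b : KK κ) => (Wt (φ b) s t' ∩ Wt (fnot (φ b)) s t')) s t' b}
      ∩ (Cv 𝔖 e ∩ {x | PSub (C (𝔖.kap x)) (𝔖.rs x)}) := ⟨_, rfl⟩
  have hAW : A ∈ 𝔖.W := by
    rw [hA]
    exact Filter.inter_mem (diag 𝔖 h0 e t _ fun s t' b =>
      (Filter.inter_mem (Wt_mem _ _ _) (Wt_mem _ _ _))) (Filter.inter_mem (Cv_mem 𝔖 e) hCW)
  refine ⟨⟨t, e, C, A, ht2, he, hAW, fun ξ => (hC ξ).1, fun ξ s hs t' ht' => (hC ξ).2 s hs t' ht',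
    fun x hx => ?_, fun x hx => ?_, fun x hx i hi s hs t' ht' b hb => ?_⟩, ht1⟩
  · rw [hA] at hx; exact hx.2.1
  · rw [hA] at hx; exact hx.2.2
  · rw [hA] at hx; exact hx.1 i hi s hs t' ht' b hb

variable {φ : KK κ → Set (Cnd 𝔖)}

/-- the condition of the prepared data -/
def Prep.cnd (P : Prep φ) (s : Stem κ) (hs : WF s) : Cnd 𝔖 := ⟨s, P.t, P.A, hs, P.ht, P.hA⟩

/-- the table of the decided statements -/
def Prep.val (P : Prep φ) (ξ : KK κ) (t' : TT κ) (b : KK κ) : Set (Stem κ) :=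
  {s | frc (φ b) ((ξ, P.C ξ) :: s) t'}

theorem Prep.val_subset (P : Prep φ) (ξ : KK κ) (t' : TT κ) (b : KK κ) : P.val ξ t' b ⊆ ST ξ := by
  intro s hs
  have h := frc.wf hs
  obtain ⟨i, hi, h1⟩ := h.2.2.1
  exact ⟨h.tail, h1.mono hi.le⟩

/-- `r` extends prepared data through the point `x` -/
structure Thr (P : Prep φ) (r : Cnd 𝔖) (u : Stem κ) (e : Ent κ) (s1 : Stem κ) (x : 𝔖.X)
    (t1 : TT κ) : Prop where
  hs : r.s = u ++ e :: s1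
  he : entLe e (bas 𝔖 x)
  hx : x ∈ P.A
  lv : ∀ i, SB i s1 → t1 ∈ LvB P.e P.t i
  ex : ∃ ys, sLe u (ys.map (bas 𝔖)) ∧ (∀ y ∈ ys, y ∈ P.A) ∧ PSub (addt 𝔖 ys (upd 𝔖 x t1)) r.t

theorem Thr.kap_eq {P : Prep φ} {r : Cnd 𝔖} {u : Stem κ} {e : Ent κ} {s1 : Stem κ} {x : 𝔖.X}
    {t1 : TT κ} (h : Thr P r u e s1 x t1) : e.1 = 𝔖.kap x := h.he.1

theorem Thr.entLe_C {P : Prep φ} {r : Cnd 𝔖} {u : Stem κ} {e : Ent κ} {s1 : Stem κ} {x : 𝔖.X}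
    {t1 : TT κ} (h : Thr P r u e s1 x t1) : entLe e (e.1, P.C e.1) := by
  refine ⟨rfl, ?_⟩
  rw [h.kap_eq]
  exact (P.sub x h.hx).trans h.he.2

theorem Thr.wf {P : Prep φ} {r : Cnd 𝔖} {u : Stem κ} {e : Ent κ} {s1 : Stem κ} {x : 𝔖.X}
    {t1 : TT κ} (h : Thr P r u e s1 x t1) : WF (e :: s1) := by
  have h1 := r.wf
  rw [h.hs] at h1
  exact h1.right

theorem Thr.lvB (h0 : Inacc κ) {P : Prep φ} {r : Cnd 𝔖} {u : Stem κ} {e : Ent κ} {s1 : Stem κ}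
    {x : 𝔖.X} {t1 : TT κ} (h : Thr P r u e s1 x t1) : upd 𝔖 x t1 ∈ LvB P.e P.t (pt 5 e.1) := by
  obtain ⟨i, hi, h1⟩ := h.wf.2.2.1
  exact upd_mem_LvB 𝔖 h0 P.he (h.lv i h1) x (P.cov x h.hx)
    (hi.trans (lt_pt h0 (by norm_num) _)).le (by rw [h.kap_eq])

/-- deciding at the point -/
theorem Thr.decide (h0 : Inacc κ) {P : Prep φ} {r : Cnd 𝔖} {u : Stem κ} {e : Ent κ} {s1 : Stem κ}
    {x : 𝔖.X} {t1 : TT κ} (h : Thr P r u e s1 x t1) {b : KK κ} (hb : b < pt 8 e.1) :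
    ∃ s2, sLe s2 s1 ∧ frc (dcd (φ b)) ((e.1, P.C e.1) :: s2) (upd 𝔖 x t1) := by
  obtain ⟨i, hi, h1⟩ := h.wf.2.2.1
  have h2 : WF ((e.1, P.C e.1) :: s1) := h.wf.of_sLe (List.Forall₂.cons h.entLe_C (sLe.refl _))
  exact P.good e.1 s1 ⟨h.wf.tail, h1.mono hi.le⟩ _ (h.lvB h0) h2 b hb s1 (sLe.refl _) h2

theorem Thr.ext (h0 : Inacc κ) {P : Prep φ} {r : Cnd 𝔖} {u : Stem κ} {e : Ent κ} {s1 : Stem κ}
    {x : 𝔖.X} {t1 : TT κ} (h : Thr P r u e s1 x t1) {b : KK κ} (hb : b < pt 8 e.1)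
    {s2 : Stem κ} (hs2 : sLe s2 s1) {ψ : Set (Cnd 𝔖)} (hψ : Down ψ)
    (hW : ∀ x ∈ P.A, ∀ i < 𝔖.kap x, ∀ s ∈ ST i, ∀ t' ∈ LvB P.e P.t i, b ≤ i → x ∈ Wt ψ s t')
    (hf : frc ψ ((e.1, P.C e.1) :: s2) (upd 𝔖 x t1)) : ∃ r', DLe r' r ∧ r' ∈ ψ := by
  have h1 : WF (e :: s2) := by
    have h2 := h.wf
    exact hf.wf.change h.entLe_C h2.1
  have h2 : WF (u ++ e :: s2) := by
    have h3 := r.wf
    rw [h.hs] at h3
    exact h3.replace_cons h0 h1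
  obtain ⟨ys, hy1, hy2, hy3⟩ := h.ex
  have h3 : sLe (u ++ e :: s2) (ys.map (bas 𝔖) ++ (e.1, P.C e.1) :: s2) :=
    hy1.append (List.Forall₂.cons h.entLe_C (sLe.refl _))
  refine ⟨_, ?_, wit hψ hf (ys := ys) (q := ⟨u ++ e :: s2, r.t, r.A, h2, r.ht, r.hA⟩) ?_ h3 hy3⟩
  · refine (Cnd.shrink_le _ _ _).trans ⟨?_, PSub.refl _, subset_rfl⟩
    rw [h.hs]
    exact (sLe.refl _).append (List.Forall₂.cons (entLe.refl _) hs2)
  · intro y hy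
    obtain ⟨i, hi, v', h4, h5⟩ := bound_of_mem h0 h2 h3 hy
    have h6 : SB i ((e.1, P.C e.1) :: s2) := h5.of_sLe h4
    have h7 : pt 10 e.1 ≤ i := (SB_cons.1 h6).1.1
    refine hW y (hy2 y hy) i hi _ ⟨hf.wf, h6⟩ _ ?_ ?_
    · refine upd_mem_LvB 𝔖 h0 P.he (h.lv i ((SB_cons.1 h6).2.of_sLe hs2)) x (P.cov x h.hx) le_rfl ?_
      rw [← h.kap_eq]
      exact (pt_le_pt h0 (by norm_num) _).trans h7
    · exact (hb.le.trans (pt_le_pt h0 (by norm_num) _)).trans h7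

/-- **The transfer lemma** -/
theorem transfer (h0 : Inacc κ) {φ φ' : KK κ → Set (Cnd 𝔖)} (hd : ∀ b, Down (φ b))
    (hd' : ∀ b, Down (φ' b)) {P : Prep φ} {P' : Prep φ'} {r : Cnd 𝔖} {u : Stem κ} {e : Ent κ}
    {s1 : Stem κ} {x x' : 𝔖.X} {t1 t1' : TT κ} (h : Thr P r u e s1 x t1)
    (h' : Thr P' r u e s1 x' t1') {b b' : KK κ} (hb : b < pt 8 e.1) (hb' : b' < pt 8 e.1)
    (hval : P.val e.1 (upd 𝔖 x t1) b ⊆ P'.val e.1 (upd 𝔖 x' t1') b') (h1 : r ∈ φ b)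
    (h2 : r ∈ fnot (φ' b')) : False := by
  obtain ⟨s2, hs2, h3⟩ := h.decide h0 hb
  rcases frc_dcd.1 h3 with h4 | h4
  · have h5 : frc (φ' b') ((e.1, P'.C e.1) :: s2) (upd 𝔖 x' t1') := hval h4
    obtain ⟨r', h6, h7⟩ := h'.ext h0 hb' hs2 (hd' b')
      (fun x hx i hi s hs t' ht' hbi => (P'.wt x hx i hi s hs t' ht' b' hbi).1) h5
    exact h2 r' h6.le h7
  · obtain ⟨r', h6, h7⟩ := h.ext h0 hb hs2 (down_fnot _)
      (fun x hx i hi s hs t' ht' hbi => (P.wt x hx i hi s hs t' ht' b hbi).2) h4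
    exact h7 r' le_rfl (hd b r h1 r' h6.le)

/-- extensions of prepared conditions go through their points -/
theorem thr_of_leBy (h0 : Inacc κ) (P : Prep φ) {q r : Cnd 𝔖} (ht : PSub P.t q.t)
    (hA : q.A ⊆ P.A) {ys zs : List 𝔖.X} {x : 𝔖.X} (h : LeBy (ys ++ x :: zs) r q) :
    ∃ u e s1, u.length = ys.length ∧ s1.length = zs.length + q.s.length ∧
      Thr P r u e s1 x (addt 𝔖 zs P.t) := by
  obtain ⟨h1, h2, h3, h4⟩ := h
  rw [List.map_append, List.append_assoc, List.map_cons, List.cons_append] at h2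
  obtain ⟨u, v, h5, h6, h7⟩ := sLe_append_iff h2
  obtain ⟨e, s1, rfl, h8, h9⟩ := sLe_cons_iff h7
  refine ⟨u, e, s1, by rw [h6.length, List.length_map], by
    rw [h9.length, List.length_append, List.length_map], ?_⟩
  refine ⟨h5, h8, hA (h1 x (by simp)), fun i hi => ?_, ys, h6, fun y hy => hA (h1 y (by simp [hy])), ?_⟩
  · refine addt_mem_LvB 𝔖 h0 P.he zs (fun y hy => P.cov y (hA (h1 y (by simp [hy])))) h9 hi
  · have h10 := addt_mono 𝔖 (ys ++ x :: zs) ht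
    rw [addt_append, addt_cons] at h10
    exact h10.trans h3

end

end Run7.h699
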