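import Mathlib
import Pool.Agent.Run7.h699.Prep

set_option autoImplicit false

/-!
# The chain condition and the preservation of the cardinals above `κ`
-/

namespace Run7.h699

open Cardinal Set Pool.Agent.Helper669.K Pool.Agent.Helper669.Forcing

section

theorem exists_ne_of_lt {α β : Type} (f : α → β) (h : #β < #α) : ∃ a b, a ≠ b ∧ f a = f b := by
  by_contra hcon
  push Not at hcon
  have hinj : Function.Injective f := fun a b hab => by
    by_contra hne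
    exact hcon a b hne hab
  exact absurd h (not_lt.2 (mk_le_of_injective hinj))

theorem pigeon {α β : Type} {c : Cardinal.{0}} (hc : ℵ₀ ≤ c) (f : α → β) (hβ : #β ≤ c)
    (hα : c < #α) : ∃ b, c < #(f ⁻¹' {b}) := by
  by_contra hcon
  push Not at hcon
  have h1 : (univ : Set α) = ⋃ b : β, f ⁻¹' {b} := by
    ext a; simp
  have h2 : #(univ : Set α) ≤ c := by
    rw [h1]
    refine (mk_iUnion_le _).trans ?_
    exact (mul_le_mul' hβ (ciSup_le' hcon)).trans (mul_eq_self hc).le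
  rw [mk_univ] at h2
  exact absurd hα (not_lt.2 h2)

variable {κ : Cardinal.{0}}

theorem inf_succ (h0 : Inacc κ) : ℵ₀ ≤ Order.succ κ := h0.inf.trans (Order.le_succ κ)

theorem inf_succ2 (h0 : Inacc κ) : ℵ₀ ≤ Order.succ (Order.succ κ) :=
  (inf_succ h0).trans (Order.le_succ _)

theorem succ_pow (h0 : Inacc κ) (h2 : (2 : Cardinal.{0}) ^ κ = Order.succ κ) :
    (Order.succ κ) ^ κ = Order.succ κ := by
  rw [← h2, ← power_mul, mul_eq_self h0.inf]

theorem mk_fun_le (h0 : Inacc κ) (h2 : (2 : Cardinal.{0}) ^ κ = Order.succ κ) :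
    #(KK κ → KK κ) ≤ Order.succ κ := by
  rw [mk_arrow, lift_id, mk_KK, ← succ_pow h0 h2]
  exact power_le_power_right (Order.le_succ κ)

/-- sets of size less than `κ⁺⁺` are bounded -/
theorem bddI (h0 : Inacc κ) {S : Set (II κ)} (hS : #S ≤ Order.succ κ) : ∃ b, ∀ s ∈ S, s < b := by
  by_contra hcon
  push Not at hcon
  have hcof : IsCofinal S := fun b => by
    obtain ⟨s, hs, hbs⟩ := hcon b
    exact ⟨s, hs, hbs⟩
  have h1 := Order.cof_le hcof
  rw [Ordinal.cof_toType, (isRegular_succ (inf_succ h0)).cof_ord] at h1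
  exact absurd (h1.trans hS) (not_le.2 (Order.lt_succ _))

theorem mk_funI_le (h0 : Inacc κ) (h2 : (2 : Cardinal.{0}) ^ κ = Order.succ κ) :
    (Order.succ (Order.succ κ)) ^ κ ≤ Order.succ (Order.succ κ) := by
  have h1 : (Order.succ (Order.succ κ)) ^ κ = #(KK κ → II κ) := by
    rw [mk_arrow, lift_id, lift_id, mk_II, mk_KK (κ := κ)]
  rw [h1]
  have h3 : (univ : Set (KK κ → II κ)) ⊆ ⋃ a : II κ, range fun g : KK κ → Iio a => fun i =>
      (g i).1 := by
    intro f _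
    obtain ⟨a, ha⟩ := bddI h0 (S := range f) (mk_range_le.trans (by
      rw [mk_KK]; exact Order.le_succ κ))
    exact mem_iUnion.2 ⟨a, fun i => ⟨f i, ha _ ⟨i, rfl⟩⟩, rfl⟩
  rw [← mk_univ]
  refine (mk_le_mk_of_subset h3).trans ((mk_iUnion_le _).trans ?_)
  rw [mk_II]
  refine (mul_le_mul' le_rfl (ciSup_le' fun a => ?_)).trans (mul_eq_self (inf_succ2 h0)).le
  refine mk_range_le.trans ?_
  rw [mk_arrow, lift_id, lift_id, mk_KK]
  have h4 : #(Iio a) ≤ Order.succ κ := by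
    have := Cardinal.mk_Iio_lt a (by simp)
    rw [mk_II] at this
    exact Order.lt_succ_iff.1 this
  refine (power_le_power_right h4).trans ?_
  rw [succ_pow h0 h2]
  exact Order.le_succ _

/-- two conditions with the same stem and compatible partial functions are compatible -/
theorem compat_of_agree (h0 : Inacc κ) {𝔖 : Setup κ} {p q : Cnd 𝔖} (hs : p.s = q.s)
    (ht : ∀ a f g, p.t a = some f → q.t a = some g → f = g) : ∃ r, r ≤ p ∧ r ≤ q := by
  have hcomp : PCompat fun i : Bool => (if i then p.t else q.t) := by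
    intro i j a b b' h1 h2
    cases i <;> cases j <;> simp at h1 h2
    · rw [h1, Option.some.injEq] at h2; exact h2
    · exact (ht a b' b h2 h1).symm
    · exact ht a b b' h1 h2
    · rw [h1, Option.some.injEq] at h2; exact h2
  refine ⟨⟨p.s, pU fun i : Bool => (if i then p.t else q.t), p.A ∩ q.A, p.wf,
    mk_dm_pU_le h0 ?_ hcomp fun i => ?_, Filter.inter_mem p.hA q.hA⟩, ?_, ?_⟩
  · exact (mk_le_aleph0 (α := Bool)).trans h0.inf
  · cases i
    · exact q.ht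
    · exact p.ht
  · exact DLe.le ⟨sLe.refl _, le_pU hcomp true, inter_subset_left⟩
  · refine DLe.le ⟨?_, le_pU hcomp false, inter_subset_right⟩
    show sLe p.s q.s
    rw [hs]; exact sLe.refl _

/-- **the chain condition** -/
theorem chain_condition (h0 : Inacc κ) (h2 : (2 : Cardinal.{0}) ^ κ = Order.succ κ)
    (𝔖 : Setup κ) (ι : Type) (f : ι → Cnd 𝔖) (hι : Order.succ κ < #ι) :
    ∃ i j, i ≠ j ∧ ∃ r, r ≤ f i ∧ r ≤ f j := by
  classical
  obtain ⟨T, R, hT, hR, hTR⟩ := Pool.Agent.Helper669.KDelta.weak_delta (c := Order.succ κ)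
    (inf_succ h0) (not_le.2 hι) (fun i => dm (f i).t)
    (fun i => (f i).ht.trans_lt (Order.lt_succ κ))
  have hα : #(R × (KK κ → KK κ)) ≤ Order.succ κ := by
    rw [mk_prod, lift_id, lift_id]
    exact (mul_le_mul' hR (mk_fun_le h0 h2)).trans (mul_eq_self (inf_succ h0)).le
  have hβ : #({s : Stem κ | WF s} × {S : Set (R × (KK κ → KK κ)) // #S ≤ κ}) ≤ Order.succ κ := by
    rw [mk_prod, lift_id, lift_id]
    refine (mul_le_mul' ((mk_WF_le h0).trans (Order.le_succ κ)) ?_).trans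
      (mul_eq_self (inf_succ h0)).le
    refine (mk_bounded_set_le _ _).trans ?_
    refine (power_le_power_right (max_le hα (inf_succ h0))).trans ?_
    rw [succ_pow h0 h2]
  obtain ⟨i, j, hij, h3⟩ := exists_ne_of_lt (α := T)
    (β := {s : Stem κ | WF s} × {S : Set (R × (KK κ → KK κ)) // #S ≤ κ})
    (fun i => (⟨(f i.1).s, (f i.1).wf⟩, ⟨{y | (f i.1).t y.1.1 = some y.2}, by
      refine le_trans ?_ (f i.1).ht
      refine mk_le_of_injective (f := fun y : {y : R × (KK κ → KK κ) | (f i.1).t y.1.1 = some y.2}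
        => (⟨y.1.1.1, mem_dm_iff.2 ⟨_, y.2⟩⟩ : dm (f i.1).t)) ?_
      rintro ⟨⟨a, g⟩, h⟩ ⟨⟨b, g'⟩, h'⟩ hab
      simp only [Subtype.mk.injEq] at hab
      have hab' : a = b := Subtype.ext hab
      subst hab'
      simp only [mem_ofPred_eq] at h h'
      rw [h, Option.some.injEq] at h'
      subst h'
      rfl⟩)) (hβ.trans_lt (not_le.1 hT))
  refine ⟨i.1, j.1, fun h => hij (Subtype.ext h), ?_⟩
  simp only [Prod.mk.injEq, Subtype.mk.injEq] at h3
  refine compat_of_agree h0 h3.1 fun a g g' hg hg' => ?_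
  have hne : i.1 ≠ j.1 := fun h => hij (Subtype.ext h)
  have haR : a ∈ R := hTR i.1 i.2 j.1 j.2 hne ⟨mem_dm_iff.2 ⟨g, hg⟩, mem_dm_iff.2 ⟨g', hg'⟩⟩
  have h4 := (Set.ext_iff.1 h3.2 (⟨a, haR⟩, g)).1 hg
  simp only [mem_ofPred_eq] at h4
  rw [h4, Option.some.injEq] at hg'
  exact hg'

end

/-- regular cardinals above the chain condition stay regular -/
theorem staysRegular_cc {Q : Type} [Preorder Q] {c μ : Cardinal.{0}} (hc : ℵ₀ ≤ c)
    (hcμ : c < μ) (hμ : μ.IsRegular)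
    (hcc : ∀ (ι : Type) (f : ι → Q), c < #ι → ∃ i j, i ≠ j ∧ ∃ r, r ≤ f i ∧ r ≤ f j) (q : Q) :
    q ∈ StaysRegular Q μ := by
  classical
  intro ν hν R
  rw [mem_fimp]
  intro q' _ hR
  have hV : ∀ x : ν.out, #{y : μ.ord.ToType | ∃ q1 ≤ q', q1 ∈ meets (R x y)} ≤ c := by
    intro x
    by_contra hcon
    push Not at hcon
    choose f hf1 hf2 using fun y : {y : μ.ord.ToType | ∃ q1 ≤ q', q1 ∈ meets (R x y)} => y.2
    obtain ⟨i, j, hij, r, hri, hrj⟩ := hcc _ f hcon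
    apply hij
    have hr' : r ∈ IsFun R := down_IsFun R _ hR _ (hri.trans (hf1 i))
    exact Subtype.ext (IsFun.unique hr' (down_meets _ _ (hf2 i) _ hri)
      (down_meets _ _ (hf2 j) _ hrj))
  have hS : #(⋃ x : ν.out, {y : μ.ord.ToType | ∃ q1 ≤ q', q1 ∈ meets (R x y)} : Set _) < μ := by
    refine (Cardinal.mk_iUnion_le _).trans_lt ?_
    refine (mul_le_mul' (le_refl _) (ciSup_le' hV)).trans_lt ?_
    rw [Cardinal.mk_out]
    exact Cardinal.mul_lt_of_lt hμ.aleph0_le hν hcμ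
  have hcof : Order.cof μ.ord.ToType = μ := by
    rw [Ordinal.cof_toType]
    exact hμ.cof_ord
  have hnc : ¬ IsCofinal (⋃ x : ν.out, {y : μ.ord.ToType | ∃ q1 ≤ q', q1 ∈ meets (R x y)}) := by
    intro h
    have h1 := Order.cof_le h
    rw [hcof] at h1
    exact absurd hS (not_lt.2 h1)
  unfold IsCofinal at hnc
  push Not at hnc
  obtain ⟨b, hb⟩ := hnc
  refine ⟨q', le_rfl, mem_fex_of_mem b ?_ ?_⟩
  · exact down_fall fun x => down_fall fun y => down_fimp _ _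
  · intro x y
    rw [mem_fimp]
    intro q1 hq1 hm
    exact ⟨q1, le_rfl, hb y (Set.mem_iUnion.2 ⟨x, q1, hq1, hm⟩)⟩

section

variable {κ : Cardinal.{0}} {𝔖 : Setup κ}

theorem upd_mem_Mods (h0 : Inacc κ) {t t' : TT κ} (h : t' ∈ Mods t) (x : 𝔖.X) :
    upd 𝔖 x t' ∈ Mods t := by
  refine ⟨by rw [dm_upd]; exact h.1, ?_⟩
  have h1 : {y : II κ × KK κ | ∃ f f', t y.1 = some f ∧ upd 𝔖 x t' y.1 = some f' ∧ f y.2 ≠ f' y.2} ⊆
      {y : II κ × KK κ | ∃ f f', t y.1 = some f ∧ t' y.1 = some f' ∧ f y.2 ≠ f' y.2} ∪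
        ((fun a => (a, 𝔖.kap x)) '' 𝔖.mem x) := by
    rintro ⟨a, z⟩ ⟨f, f', h1, h2, h3⟩
    simp only at h1 h2 h3
    rw [upd_eq_some] at h2
    obtain ⟨g, h4, h5⟩ := h2
    rcases h5 with ⟨h5, rfl⟩ | ⟨h5, rfl⟩
    · by_cases hz : z = 𝔖.kap x
      · right
        exact ⟨a, h5, by rw [hz]⟩
      · left
        rw [Function.update_of_ne hz] at h3
        exact ⟨f, g, h1, h4, h3⟩
    · left
      exact ⟨f, f', h1, h4, h3⟩
  refine (mk_le_mk_of_subset h1).trans_lt ((mk_union_le _ _).trans_lt ?_)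
  exact add_lt_of_lt h0.inf h.2 (mk_image_le.trans_lt (𝔖.mem_small x))

theorem addt_mem_Mods (h0 : Inacc κ) (t : TT κ) (xs : List 𝔖.X) : addt 𝔖 xs t ∈ Mods t := by
  induction xs with
  | nil => exact self_mem_Mods h0 t
  | cons x xs ih => rw [addt_cons]; exact upd_mem_Mods h0 ih x

/-- `κ⁺` stays regular -/
theorem staysRegular_succ_kappa (h0 : Inacc κ) (p : Cnd 𝔖) :
    p ∈ StaysRegular (Cnd 𝔖) (Order.succ κ) := by
  classical
  intro ν hν R
  rw [mem_fimp]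
  intro p1 _ hR
  have hν' : ν ≤ κ := Order.lt_succ_iff.1 hν
  have hJ : #(ν.out × {s : Stem κ | WF s}) ≤ κ := by
    rw [mk_prod, lift_id, lift_id, mk_out]
    exact (mul_le_mul' hν' (mk_WF_le h0)).trans (mul_eq_self h0.inf).le
  obtain ⟨t, ht1, ht2, ht3⟩ := fusion h0 hJ
    (fun j t => ∃ y, frc (meets (R j.1 y)) j.2.1 t)
    (fun j t t' h1 h2 ⟨y, h3⟩ => ⟨y, h3.mono (down_meets _) (sLe.refl _) j.2.2 h1 h2⟩) p1.t p1.ht
  have hJM : #((ν.out × {s : Stem κ | WF s}) × Mods t) ≤ κ := by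
    rw [mk_prod, lift_id, lift_id]
    exact (mul_le_mul' hJ (mk_Mods h0 ht2)).trans (mul_eq_self h0.inf).le
  have hne : Nonempty (Order.succ κ).ord.ToType := by
    rw [← mk_ne_zero_iff, mk_ord_toType]
    exact (zero_le.trans_lt (Order.lt_succ _)).ne'
  obtain ⟨b0, hb0⟩ := h400_bdd h0.inf _ hJM
    (fun j => if h : ∃ y, frc (meets (R j.1.1 y)) j.1.2.1 j.2.1 then h.choose else hne.some)
  obtain ⟨b, hb⟩ : ∃ b, b0 < b := by
    obtain ⟨b, hb⟩ := (Cardinal.noMaxOrder (inf_succ h0)).exists_gt b0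
    exact ⟨b, hb⟩
  refine ⟨⟨p1.s, t, p1.A, p1.wf, ht2, p1.hA⟩, DLe.le ⟨sLe.refl _, ht1, subset_rfl⟩,
    mem_fex_of_mem b (down_fall fun x => down_fall fun y => down_fimp _ _) ?_⟩
  intro x y
  rw [mem_fimp]
  intro q ⟨xs, hxs⟩ hq
  refine ⟨q, le_rfl, ?_⟩
  rw [mem_fground]
  have hM := addt_mem_Mods h0 t xs
  rcases ht3 (x, ⟨q.s, q.wf⟩) _ hM with h1 | h1
  · have h2 := hb0 ((x, ⟨q.s, q.wf⟩), ⟨_, hM⟩)
    simp only at h1 h2
    rw [dif_pos h1] at h2
    obtain ⟨q2, h3, h4, h5⟩ := h1.choose_spec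
    have h6 : q.shrink q2.A q2.hA ≤ q := (q.shrink_le _ _).le
    have h7 : q.shrink q2.A q2.hA ≤ q2 := by
      refine DLe.le ⟨?_, ?_, inter_subset_right⟩
      · show sLe q.s q2.s
        rw [h4]; exact sLe.refl _
      · show PSub q2.t q.t
        rw [h5]; exact hxs.2.2.1
    have h8 : q.shrink q2.A q2.hA ∈ IsFun R := by
      refine down_IsFun R _ hR _ (h6.trans ?_)
      have h9 : q ≤ (⟨p1.s, t, p1.A, p1.wf, ht2, p1.hA⟩ : Cnd 𝔖) := ⟨xs, hxs⟩
      exact h9.trans (DLe.le ⟨sLe.refl _, ht1, subset_rfl⟩)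
    have h10 := IsFun.unique h8 (down_meets _ _ hq _ h6) (down_meets _ _ h3 _ h7)
    rw [h10]
    exact h2.trans_lt hb
  · exact absurd ⟨y, q, hq, rfl, rfl⟩ (h1 q.t hxs.2.2.1 q.ht)

/-- all regular cardinals above `κ` stay regular -/
theorem staysRegular_above (h0 : Inacc κ) (h2 : (2 : Cardinal.{0}) ^ κ = Order.succ κ)
    {μ : Cardinal.{0}} (hμ : μ.IsRegular) (hκμ : κ < μ) (p : Cnd 𝔖) :
    p ∈ StaysRegular (Cnd 𝔖) μ := by
  rcases (Order.succ_le_iff.2 hκμ).eq_or_lt with h | h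
  · rw [← h]
    exact staysRegular_succ_kappa h0 p
  · exact staysRegular_cc (inf_succ h0) h hμ (chain_condition h0 h2 𝔖) p

end

end Run7.h699
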