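import Mathlib
import Pool.Agent.Helper669.KDefs

set_option autoImplicit false

/-!
# Supercompact cardinals, and further statements of the forcing language
-/

namespace Run7.h699

open Cardinal Pool.Agent.Helper669.K Pool.Agent.Helper669.Forcing

/-- `κ` is `μ`-supercompact: there is a normal fine `κ`-complete ultrafilter on the set of the
subsets of `μ` of size less than `κ`. (Subsets of `μ` are sets of elements of `μ.ord.ToType`, the
set of the ordinals below the initial ordinal of `μ`. Normality says that every function
choosing an element of almost every set is almost everywhere constant.) -/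
def Supercompact (κ μ : Cardinal.{0}) : Prop :=
  ℵ₀ < κ ∧ κ ≤ μ ∧ ∃ U : Ultrafilter (Set μ.ord.ToType),
    {x : Set μ.ord.ToType | #x < κ} ∈ U ∧
    (∀ a : μ.ord.ToType, {x | a ∈ x} ∈ U) ∧
    (∀ ν < κ, ∀ A : ν.out → Set (Set μ.ord.ToType), (∀ i, A i ∈ U) → (⋂ i, A i) ∈ U) ∧
    ∀ f : Set μ.ord.ToType → μ.ord.ToType, {x | f x ∈ x} ∈ U → ∃ a, {x | f x = a} ∈ U

section

variable {P : Type} [Preorder P]

/-- The named subsets `X` and `Y` of `K` are equal. -/
def SameSet {K : Type} (X Y : K → Set P) : Set P :=
  fall fun a => fand (fimp (meets (X a)) (meets (Y a))) (fimp (meets (Y a)) (meets (X a)))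

/-- `κ` is a strong limit in the extension: for every cardinal `ν < κ` there are a cardinal
`l < κ` and a function from `l` onto the set of all subsets of `ν`. -/
def StaysStrongLimit (P : Type) [Preorder P] (κ : Cardinal.{0}) : Set P :=
  fall fun ν : Cardinal.{0} => fall fun _ : ν < κ =>
    fex fun l : {l : Cardinal.{0} // l < κ} => fex fun F : l.1.out → ν.out → Set P =>
      fall fun X : ν.out → Set P => fex fun i : l.1.out => SameSet (F i) X

/-- `κ` has countable cofinality in the extension: there is a function from `ℕ` to `κ` whose
values are unbounded in `κ`. -/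
def CofinalityOmega (P : Type) [Preorder P] (κ : Cardinal.{0}) : Set P :=
  fex fun g : ℕ → κ.ord.ToType → Set P =>
    fand (IsFun g) (fall fun b : κ.ord.ToType => fex fun n : ℕ => fex fun y : κ.ord.ToType =>
      fand (meets (g n y)) (fground (b < y)))

/-- `κ` is not a limit of measurable cardinals in the extension: for some `η < κ` there is no
measurable cardinal `δ` with `η < δ < κ`. -/
def NotLimitOfMeasurables (P : Type) [Preorder P] (κ : Cardinal.{0}) : Set P :=
  fex fun η : {η : Cardinal.{0} // η < κ} => fall fun δ : Cardinal.{0} => fall fun _ : η.1 < δ =>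
    fall fun _ : δ < κ => fnot (fex fun U : (δ.ord.ToType → Set P) → Set P => IsMeasure δ U)

/-- `μ ≤ 2 ^ κ` in the extension: there is a family of `μ` pairwise different subsets of `κ`. -/
def LeTwoPow (P : Type) [Preorder P] (μ κ : Cardinal.{0}) : Set P :=
  fex fun F : μ.ord.ToType → κ.ord.ToType → Set P =>
    fall fun x => fall fun y => fall fun _ : x ≠ y => fnot (SameSet (F x) (F y))

end

end Run7.h699
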