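import Mathlib
import Pool.Agent.Run7.h699.Card
import Pool.Agent.Run7.h699.Defs

set_option autoImplicit false

/-!
# Extending conditions; `κ` is a strong limit of countable cofinality
-/

namespace Run7.h699

open Cardinal Set Pool.Agent.Helper669.K Pool.Agent.Helper669.Forcing

section

variable {κ : Cardinal.{0}} {𝔖 : Setup κ}

theorem decomp_unique (h0 : Inacc κ) {u u' s s' : Stem κ} {e e' : Ent κ}
    (hw : WF (u ++ e :: s)) (h : u ++ e :: s = u' ++ e' :: s') (he : e.1 = e'.1) :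
    u = u' ∧ e = e' ∧ s = s' := by
  induction u generalizing u' with
  | nil =>
    cases u' with
    | nil =>
      simp only [List.nil_append, List.cons.injEq] at h
      exact ⟨rfl, h.1, h.2⟩
    | cons a u' =>
      exfalso
      simp only [List.nil_append, List.cons_append, List.cons.injEq] at h
      obtain ⟨rfl, rfl⟩ := h
      have h1 : WF ((e :: u') ++ e' :: s') := hw
      have h2 := h1.le_pt (List.mem_cons_self (a := e) (l := u'))
      rw [he] at h2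
      exact absurd (h2.trans (lt_pt h0 (by norm_num) e'.1)) (lt_irrefl _)
  | cons a u ih =>
    cases u' with
    | nil =>
      exfalso
      simp only [List.nil_append, List.cons_append, List.cons.injEq] at h
      obtain ⟨rfl, h3⟩ := h
      have h2 := hw.le_pt (List.mem_cons_self (a := a) (l := u))
      rw [he] at h2
      exact absurd (h2.trans' (lt_pt h0 (by norm_num) a.1)) (lt_irrefl _)
    | cons b u' =>
      simp only [List.cons_append, List.cons.injEq] at h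
      obtain ⟨rfl, h3⟩ := h
      obtain ⟨h4, h5⟩ := ih hw.tail h3
      exact ⟨by rw [h4], h5⟩

theorem decomp_unique_len {u u' s s' : Stem κ} {e e' : Ent κ}
    (h : u ++ e :: s = u' ++ e' :: s') (hl : s.length = s'.length) :
    u = u' ∧ e = e' ∧ s = s' := by
  obtain ⟨h1, h2⟩ := List.append_inj' h (by simp [hl])
  simp only [List.cons.injEq] at h2
  exact ⟨h1, h2⟩

/-- `r` extends `q`, which has the given entry, by the points in the list -/
structure Ext (xs : List 𝔖.X) (r q : Cnd 𝔖) (u : Stem κ) (e : Ent κ) (s : Stem κ)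
    (u' : Stem κ) (e' : Ent κ) (s' : Stem κ) : Prop where
  hx : ∀ x ∈ xs, x ∈ q.A
  hs : r.s = u' ++ e' :: s'
  hu : sLe u' (xs.map (bas 𝔖) ++ u)
  he : entLe e' e
  hl : sLe s' s
  ht : PSub (addt 𝔖 xs q.t) r.t
  hA : r.A ⊆ q.A

theorem le_decomp {r q : Cnd 𝔖} {u : Stem κ} {e : Ent κ} {s : Stem κ} (h : r ≤ q)
    (hq : q.s = u ++ e :: s) : ∃ xs u' e' s', Ext xs r q u e s u' e' s' := by
  obtain ⟨xs, h1, h2, h3, h4⟩ := h
  rw [hq, ← List.append_assoc] at h2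
  obtain ⟨u', v', h5, h6, h7⟩ := sLe_append_iff h2
  obtain ⟨e', s', rfl, h8, h9⟩ := sLe_cons_iff h7
  exact ⟨xs, u', e', s', h1, h5, h6, h8, h9, h3, h4⟩

theorem replace_low (h0 : Inacc κ) {xs : List 𝔖.X} {r q q' : Cnd 𝔖} {u : Stem κ} {e : Ent κ}
    {s u' : Stem κ} {e' : Ent κ} {s' s2 : Stem κ} (h : Ext xs r q u e s u' e' s')
    (hs2 : sLe s2 s') (hq1 : q'.s = u ++ e :: s2) (hq2 : q'.t = q.t) (hq3 : q'.A = q.A) :
    ∃ r' : Cnd 𝔖, r' ≤ r ∧ r' ≤ q' ∧ r'.s = u' ++ e' :: s2 := by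
  have h1 : WF (e :: s2) := by
    have := q'.wf
    rw [hq1] at this
    exact this.right
  have h2 : WF (u' ++ e' :: s') := h.hs ▸ r.wf
  have h3 : WF (u' ++ e' :: s2) := h2.replace_cons h0 (h1.change h.he h2.right.1)
  refine ⟨⟨u' ++ e' :: s2, r.t, r.A, h3, r.ht, r.hA⟩, DLe.le ⟨?_, PSub.refl _, subset_rfl⟩,
    ⟨xs, ?_, ?_, ?_, ?_⟩, rfl⟩
  · show sLe (u' ++ e' :: s2) r.s
    rw [h.hs]
    exact (sLe.refl _).append (List.Forall₂.cons (entLe.refl _) hs2)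
  · rw [hq3]; exact h.hx
  · show sLe (u' ++ e' :: s2) (xs.map (bas 𝔖) ++ q'.s)
    rw [hq1, ← List.append_assoc]
    exact h.hu.append (List.Forall₂.cons h.he (sLe.refl _))
  · show PSub (addt 𝔖 xs q'.t) r.t
    rw [hq2]; exact h.ht
  · rw [hq3]; exact h.hA

/-- the entry of the given length stays -/
theorem length_of_decomp {xs : List 𝔖.X} {r q : Cnd 𝔖} {u : Stem κ} {e : Ent κ}
    {s u' : Stem κ} {e' : Ent κ} {s' : Stem κ} (h : Ext xs r q u e s u' e' s') :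
    s'.length = s.length := h.hl.length

theorem ext_one (h0 : Inacc κ) (q : Cnd 𝔖) (b : KK κ) :
    ∃ r ≤ q, ∃ e, r.s = e :: q.s ∧ b < e.1 := by
  obtain ⟨x, hx, hxb, hb⟩ := exists_point_above h0 q (𝔖.fineK b)
  obtain ⟨r, h1, h2, -⟩ := exists_point_ext q x hx hb
  exact ⟨r, ⟨_, h1⟩, _, h2, hxb⟩

/-- extending to a given length -/
theorem ext_len (h0 : Inacc κ) (q : Cnd 𝔖) {n : ℕ} (hn : q.s.length ≤ n) (b : KK κ) :
    ∃ r ≤ q, ∃ e s, r.s = e :: s ∧ s.length = n ∧ b < e.1 := by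
  obtain ⟨k, rfl⟩ := Nat.exists_eq_add_of_le hn
  clear hn
  induction k generalizing q with
  | zero =>
    obtain ⟨r, h1, e, h2, h3⟩ := ext_one h0 q b
    exact ⟨r, h1, e, q.s, h2, rfl, h3⟩
  | succ k ih =>
    obtain ⟨q1, h1, e, h2, -⟩ := ext_one h0 q b
    obtain ⟨r, h4, e', s, h5, h6, h7⟩ := ih q1
    refine ⟨r, h4.trans h1, e', s, h5, ?_, h7⟩
    rw [h6, h2, List.length_cons]
    omega

/-- deciding countably many statements -/
theorem decide_all (h0 : Inacc κ) (p : Cnd 𝔖) {N : Type} (hN : #N ≤ ℵ₀) (φ : N → Set (Cnd 𝔖))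
    (hd : ∀ i, Down (φ i)) (hr : ∀ i, en_Reg (φ i)) : ∃ q ≤ p, ∀ i, q ∈ dcd (φ i) := by
  obtain ⟨p1, h1, e, h2, -⟩ := ext_one h0 p h0.nonempty.some
  rcases List.eq_nil_or_concat p1.s with h3 | ⟨u1, e0, h3⟩
  · rw [h2] at h3; simp at h3
  · have h3' : p1.s = u1 ++ e0 :: [] := by rw [h3]; simp
    obtain ⟨q, u2, e2, h4, h5, h6, h7, h8, h9⟩ := split h0 p1 u1 e0 [] h3' (N := N)
      (hN.trans (aleph0_le_w 9 e0.1)) φ hd hr
    have h10 : DLe q p1 := by
      refine ⟨?_, h7, h8⟩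
      rw [h4, h3']
      exact h5.append (List.Forall₂.cons h6 (sLe.refl _))
    refine ⟨q, h10.le.trans h1, fun i => ?_⟩
    have h11 : WF (e0 :: []) := by
      have := p1.wf
      rw [h3'] at this
      exact this.right
    obtain ⟨s2, h12, q', h13, h14, h15, h16⟩ := h9 i [] (sLe.refl _) h11
    have h17 := sLe_nil h12
    subst h17
    refine down_dcd (hd i) q' h16 q (DLe.le ⟨?_, ?_, ?_⟩)
    · rw [h13, h4]; exact sLe.refl _
    · rw [h14]; exact PSub.refl _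
    · rw [h15]

/-- the powers of the cardinals below `κ` -/
theorem staysStrongLimit (h0 : Inacc κ) (p : Cnd 𝔖) : p ∈ StaysStrongLimit (Cnd 𝔖) κ := by
  classical
  intro ν hν
  rw [mem_fex]
  intro p0 _
  obtain ⟨b, hb⟩ := exists_pt hν
  obtain ⟨p1, hp1, e0, h1, h2⟩ := ext_one h0 p0 b
  obtain ⟨ξ, hξ⟩ : ∃ ξ, ξ = e0.1 := ⟨_, rfl⟩
  have hνξ : ν ≤ w 9 ξ := by
    rw [hξ, ← hb]
    exact (mk_le_mk_of_subset (Iio_subset_Iio h2.le)).trans (mk_Iio_le_w 9 _)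
  have hl : #(Set (ST ξ × ν.out)) < κ := by
    rw [mk_set]
    refine h0.lim _ ?_
    rw [mk_prod, lift_id, lift_id, mk_out]
    exact mul_lt_of_lt h0.inf ((mk_ST_le h0 ξ).trans_lt (w_lt_kappa h0 1 ξ)) hν
  obtain ⟨l, hl'⟩ : ∃ l, l = #(Set (ST ξ × ν.out)) := ⟨_, rfl⟩
  have hequiv : Nonempty (l.out ≃ Set (ST ξ × ν.out)) := by
    rw [← Cardinal.eq, mk_out]; exact hl'
  obtain ⟨ε⟩ := hequiv
  obtain ⟨F, hF⟩ : ∃ F : l.out → ν.out → Set (Cnd 𝔖), F = fun j i =>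
      {r | ∃ u e s, r.s = u ++ e :: s ∧ e.1 = ξ ∧ ∃ s1 : ST ξ, (s1, i) ∈ ε j ∧ sLe s s1.1} :=
    ⟨_, rfl⟩
  have hFd : ∀ j i, Down (F j i) := by
    intro j i r hr r' hr'
    rw [hF] at hr ⊢
    obtain ⟨u, e, s, h3, h4, s1, h5, h6⟩ := hr
    obtain ⟨xs, u', e', s', h7⟩ := le_decomp hr' h3
    exact ⟨u', e', s', h7.hs, h7.he.1.trans h4, s1, h5, h7.hl.trans h6⟩
  refine ⟨p1, hp1, ⟨l, hl' ▸ hl⟩, ?_⟩
  refine mem_fex_of_mem F (down_fall fun X => down_fex _) ?_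
  intro X
  rw [mem_fex]
  intro q hq
  obtain ⟨xs, u', e', s', h3⟩ := le_decomp (u := []) hq h1
  have hew : e'.1 = ξ := h3.he.1.trans hξ.symm
  obtain ⟨q1, u2, e2, h4, h5, h6, h7, h8, h9⟩ := split h0 q u' e' s' h3.hs (N := ν.out)
    (by rw [mk_out, hew]; exact hνξ) (fun i => meets (X i)) (fun i => down_meets _)
    (fun i r hr q hq => by
      obtain ⟨r', hr', h⟩ := hr q hq
      obtain ⟨r'', hr'', h⟩ := h r' le_rfl
      exact ⟨r'', hr''.trans hr', h⟩)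
  have h10 : DLe q1 q := by
    refine ⟨?_, h7, h8⟩
    rw [h4, h3.hs]
    exact h5.append (List.Forall₂.cons h6 (sLe.refl _))
  have he2 : e2.1 = ξ := h6.1.trans hew
  obtain ⟨Y, hY⟩ : ∃ Y : Set (ST ξ × ν.out), Y = {y | ∃ q' : Cnd 𝔖, q'.s = u2 ++ e2 :: y.1.1 ∧
    q'.t = q1.t ∧ q'.A = q1.A ∧ q' ∈ meets (X y.2)} := ⟨_, rfl⟩
  refine ⟨q1, h10.le, ε.symm Y, fun i => ⟨?_, ?_⟩⟩
  · rw [mem_fimp]
    intro r hr hrm
    obtain ⟨r', hr', hr'F⟩ := exists_of_meets (hFd _ i) hrm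
    rw [hF] at hr'F
    obtain ⟨u3, e3, s3, h11, h12, s1, h13, h14⟩ := hr'F
    rw [Equiv.apply_symm_apply, hY] at h13
    obtain ⟨q', h15, h16, h17, h18⟩ := h13
    obtain ⟨xs4, u4, e4, s4, h19⟩ := le_decomp (hr'.trans hr) h4
    have h20 := decomp_unique h0 (h11 ▸ r'.wf) (h11.symm.trans h19.hs)
      (h12.trans (h19.he.1.trans he2).symm)
    obtain ⟨rfl, rfl, rfl⟩ := h20
    obtain ⟨r2, h21, h22, -⟩ : ∃ r2 : Cnd 𝔖, r2 ≤ r' ∧ r2 ≤ q' ∧ True := by
      refine ⟨r', le_rfl, ⟨xs4, ?_, ?_, ?_, ?_⟩, trivial⟩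
      · rw [h17]; exact h19.hx
      · rw [h15, h11, ← List.append_assoc]
        exact h19.hu.append (List.Forall₂.cons h19.he h14)
      · rw [h16]; exact h19.ht
      · rw [h17]; exact h19.hA
    exact ⟨r2, h21.trans hr', down_meets _ _ h18 _ h22⟩
  · rw [mem_fimp]
    intro r hr hrm
    obtain ⟨xs4, u4, e4, s4, h19⟩ := le_decomp hr h4
    have hw4 : WF (e4 :: s4) := by
      have := r.wf
      rw [h19.hs] at this
      exact this.right
    have hw4' : WF (e' :: s4) := hw4.of_sLe (List.Forall₂.cons (h19.he.trans h6) (sLe.refl _))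
    obtain ⟨s2, h20, q', h21, h22, h23, h24⟩ := h9 i s4 h19.hl hw4'
    obtain ⟨r', h25, h26, h27⟩ := replace_low h0 h19 h20 h21 h22 h23
    have h28 : q' ∈ meets (X i) := by
      rcases h24 with h | h
      · exact h
      · exact absurd (down_meets _ _ hrm _ h25) (h r' h26)
    have hw5 : WF (e2 :: s2) := by
      have := q'.wf
      rw [h21] at this
      exact this.right
    have h29 : s2 ∈ ST ξ := by
      obtain ⟨i, hi, h30⟩ := hw5.2.2.1
      rw [he2] at hi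
      exact ⟨hw5.tail, h30.mono hi.le⟩
    refine ⟨r', h25, meets_of_mem ?_⟩
    rw [hF]
    refine ⟨u4, e4, s2, h27, h19.he.1.trans he2, ⟨s2, h29⟩, ?_, sLe.refl _⟩
    rw [Equiv.apply_symm_apply, hY]
    exact ⟨q', h21, h22, h23, h28⟩

/-- `κ` has countable cofinality -/
theorem cofinalityOmega (h0 : Inacc κ) (p : Cnd 𝔖) : p ∈ CofinalityOmega (Cnd 𝔖) κ := by
  obtain ⟨g, hg⟩ : ∃ g : ℕ → KK κ → Set (Cnd 𝔖), g = fun n y =>
      {r | ∃ u e s, r.s = u ++ e :: s ∧ s.length = n ∧ e.1 = y} := ⟨_, rfl⟩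
  have hgd : ∀ n y, Down (g n y) := by
    intro n y r hr r' hr'
    rw [hg] at hr ⊢
    obtain ⟨u, e, s, h3, h4, h5⟩ := hr
    obtain ⟨xs, u', e', s', h7⟩ := le_decomp hr' h3
    exact ⟨u', e', s', h7.hs, h7.hl.length.trans h4, h7.he.1.trans h5⟩
  refine mem_fex_of_mem g (down_fand (down_IsFun _) (down_fall fun b => down_fex _))
    ⟨⟨fun n => ?_, fun n y y' => ?_⟩, fun b => ?_⟩
  · rw [mem_fex]
    intro q _
    obtain ⟨r, h1, e, s, h2, h3, -⟩ := ext_len h0 q (n := q.s.length + n) (by omega)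
      h0.nonempty.some
    obtain ⟨s', s'', h4, h5⟩ : ∃ s' s'', r.s = s' ++ s'' ∧ s''.length = n + 1 := by
      refine ⟨r.s.take (r.s.length - (n + 1)), r.s.drop (r.s.length - (n + 1)),
        (List.take_append_drop _ _).symm, ?_⟩
      rw [List.length_drop, h2, List.length_cons, h3]
      omega
    cases s'' with
    | nil => simp at h5
    | cons e'' s'' =>
      refine ⟨r, h1, e''.1, meets_of_mem ?_⟩
      rw [hg]
      exact ⟨s', e'', s'', h4, by simpa using h5, rfl⟩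
  · rw [mem_fimp]
    intro q _ hq
    obtain ⟨r, h1, h2⟩ := exists_of_meets (hgd _ _) hq.1
    obtain ⟨r', h3, h4⟩ := exists_of_meets (hgd _ _) (down_meets _ _ hq.2 _ h1)
    have h5 := hgd _ _ _ h2 _ h3
    rw [hg] at h4 h5
    obtain ⟨u, e, s, h6, h7, h8⟩ := h4
    obtain ⟨u', e', s', h9, h10, h11⟩ := h5
    obtain ⟨-, h12, -⟩ := decomp_unique_len (h6.symm.trans h9) (h7.trans h10.symm)
    refine ⟨r', h3.trans h1, ?_⟩
    rw [mem_fground, ← h8, ← h11, h12]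
  · rw [mem_fex]
    intro q _
    obtain ⟨r, h1, e, h2, h3⟩ := ext_one h0 q b
    refine ⟨r, h1, q.s.length, mem_fex_of_mem e.1 (down_fand (down_meets _) (down_fground _))
      ⟨meets_of_mem ?_, h3⟩⟩
    rw [hg]
    exact ⟨[], e, q.s, h2, rfl, rfl⟩

/-- a criterion for named sets to have size `κ` -/
theorem fullSize_of (h0 : Inacc κ) (B : KK κ → Set (Cnd 𝔖)) (p : Cnd 𝔖)
    (h : ∀ ν < κ, ∀ q ≤ p, ∃ r ≤ q, ∃ u e s, r.s = u ++ e :: s ∧ ν ≤ w 1 e.1 ∧
      ∃ Z : Set (KK κ), (∀ y ∈ Z, y < pt 8 e.1 ∧ r ∈ meets (B y)) ∧ w 1 e.1 < #Z) :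
    p ∈ HasFullSize B := by
  classical
  intro ν hν q hq hex
  rw [mk_KK] at hν
  obtain ⟨q2, hq2, R, hR, hcov⟩ := mem_fex.1 hex q le_rfl
  obtain ⟨r, hr, u, e, s, h1, h2, Z, h3, h4⟩ := h ν hν q2 (hq2.trans hq)
  have hN : #(ν.out × Iio (pt 8 e.1)) ≤ w 9 e.1 := by
    refine mk_prod_le_w ?_ ?_
    · rw [mk_out]; exact h2.trans (w_le (by norm_num) _)
    · rw [mk_Iio_pt h0]; exact w_le (by norm_num) _
  obtain ⟨q1, u2, e2, h5, h6, h7, h8, h9, h10⟩ := split h0 r u e s h1 hN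
    (fun i => meets (R i.1 i.2.1)) (fun i => down_meets _)
    (fun i r hr q hq => by
      obtain ⟨r', hr', h⟩ := hr q hq
      obtain ⟨r'', hr'', h⟩ := h r' le_rfl
      exact ⟨r'', hr''.trans hr', h⟩)
  have h11 : DLe q1 r := by
    refine ⟨?_, h8, h9⟩
    rw [h5, h1]
    exact h6.append (List.Forall₂.cons h7 (sLe.refl _))
  have he2 : e2.1 = e.1 := h7.1
  have key : ∀ y : Z, ∃ (c : ν.out × ST e.1) (q' : Cnd 𝔖), q'.s = u2 ++ e2 :: c.2.1 ∧
      q'.t = q1.t ∧ q'.A = q1.A ∧ q' ∈ meets (R c.1 y.1) ∧ sLe c.2.1 s := by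
    intro y
    obtain ⟨h12, h13⟩ := h3 y.1 y.2
    obtain ⟨r1, hr1, h14⟩ := mem_fimp.1 (hcov y.1) q1 (h11.le.trans hr)
      (down_meets _ _ h13 _ h11.le)
    obtain ⟨r2, hr2, x, h15⟩ := mem_fex.1 h14 r1 le_rfl
    obtain ⟨xs, u3, e3, s3, h16⟩ := le_decomp (hr2.trans hr1) h5
    have hw3 : WF (e3 :: s3) := by
      have := r2.wf
      rw [h16.hs] at this
      exact this.right
    obtain ⟨s2, h17, q', h18, h19, h20, h21⟩ := h10 (x, ⟨y.1, h12⟩) s3 h16.hl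
      (hw3.of_sLe (List.Forall₂.cons (h16.he.trans h7) (sLe.refl _)))
    obtain ⟨r', h22, h23, -⟩ := replace_low h0 h16 h17 h18 h19 h20
    have hw5 : WF (e2 :: s2) := by
      have := q'.wf
      rw [h18] at this
      exact this.right
    have h29 : s2 ∈ ST e.1 := by
      obtain ⟨i, hi, h30⟩ := hw5.2.2.1
      rw [he2] at hi
      exact ⟨hw5.tail, h30.mono hi.le⟩
    refine ⟨(x, ⟨s2, h29⟩), q', h18, h19, h20, ?_, h17.trans h16.hl⟩
    rcases h21 with h | h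
    · exact h
    · exact absurd (down_meets _ _ h15 _ h22) (h r' h23)
  choose c q' hc1 hc2 hc3 hc4 hc5 using key
  have hcard : #(ν.out × ST e.1) < #Z := by
    refine lt_of_le_of_lt ?_ h4
    refine mk_prod_le_w ?_ (mk_ST_le h0 _)
    rw [mk_out]; exact h2
  obtain ⟨y, y', hne, hyy⟩ := exists_ne_of_lt c hcard
  apply hne
  have h12 : q' y ≤ q' y' := by
    refine DLe.le ⟨?_, ?_, ?_⟩
    · rw [hc1, hc1, hyy]; exact sLe.refl _
    · rw [hc2, hc2]; exact PSub.refl _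
    · rw [hc3, hc3]
  have h13 : q' y ≤ q1 := by
    refine DLe.le ⟨?_, ?_, ?_⟩
    · rw [hc1, h5]
      exact (sLe.refl _).append (List.Forall₂.cons (entLe.refl _) (hc5 y))
    · rw [hc2]; exact PSub.refl _
    · rw [hc3]
  have h14 : q' y ∈ IsFun R := down_IsFun R _ hR _ (h13.trans (h11.le.trans hr))
  refine Subtype.ext (IsFun.unique h14 (hc4 y) ?_)
  have := down_meets _ _ (hc4 y') _ h12
  rw [hyy]
  exact this

end

end Run7.h699
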