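import Mathlib
import Pool.Agent.Run7.h699.Ext

set_option autoImplicit false

/-!
# `κ` is not a limit of measurable cardinals in the extension
-/

namespace Run7.h699

open Cardinal Set Pool.Agent.Helper669.K Pool.Agent.Helper669.Forcing

section

variable {P : Type} [Preorder P]

theorem down_IsMeasure' {κ : Cardinal.{0}} {K : Type} (U : (K → Set P) → Set P) :
    Down (IsMeasure κ U) := en_down_IsMeasure U

theorem not_measure {δ ν : Cardinal.{0}} (hν : ν < δ) {q : P}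
    (U : (δ.ord.ToType → Set P) → Set P) (hU : q ∈ IsMeasure δ U)
    (X : ν.out → δ.ord.ToType → Set P) (hX : ∀ i, q ∈ meets (U (X i)))
    (h1 : ∀ r ≤ q, ∀ a b, r ∈ meets (nInter X a) → r ∈ meets (nInter X b) → a = b) : False := by
  obtain ⟨r, hr, hrU⟩ := mem_fimp.1 (hU.2.2.1 ν hν X) q le_rfl hX
  have key : ∀ r' ≤ r, ∀ a, (∀ r'' ≤ r', ∀ b, r'' ∈ meets (nInter X b) → b = a) → False := by
    intro r' hr' a ha
    obtain ⟨r2, hr2, h2⟩ := mem_fimp.1 (hU.1 (nInter X) (fun b => fground (b = a))) r'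
      (hr'.trans hr) ⟨down_meets _ _ hrU _ hr', fun b => mem_fimp.2 fun r'' hr'' hb =>
        ⟨r'', le_rfl, meets_of_mem (ha r'' hr'' b hb)⟩⟩
    exact hU.2.2.2 a r2 (hr2.trans (hr'.trans hr)) h2
  by_cases hcase : ∃ r' ≤ r, ∃ a, r' ∈ meets (nInter X a)
  · obtain ⟨r', hr', a, ha⟩ := hcase
    exact key r' hr' a fun r'' hr'' b hb =>
      h1 r'' (hr''.trans (hr'.trans hr)) b a hb (down_meets _ _ ha _ hr'')
  · push Not at hcase
    have hne : Nonempty δ.ord.ToType := by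
      rw [← mk_ne_zero_iff, mk_ord_toType]
      exact (zero_le.trans_lt hν).ne'
    exact key r le_rfl hne.some fun r'' hr'' b hb => absurd hb (hcase r'' hr'' b)

/-- no measurable cardinal lies between a smaller ground model cardinal and its power -/
theorem not_measure_of_le_pow {δ ν : Cardinal.{0}} (hν : ν < δ) (hδ : δ ≤ 2 ^ ν) {q : P}
    (U : (δ.ord.ToType → Set P) → Set P) (hU : q ∈ IsMeasure δ U) : False := by
  have h0 : #(δ.ord.ToType) ≤ #(Set ν.out) := by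
    rw [mk_ord_toType, mk_set, mk_out]; exact hδ
  obtain ⟨f⟩ := (Cardinal.le_def _ _).1 h0
  obtain ⟨Y, hY⟩ : ∃ Y : ν.out → δ.ord.ToType → Set P, Y = fun i a => fground (i ∈ f a) := ⟨_, rfl⟩
  obtain ⟨X, hX⟩ : ∃ X : ν.out → δ.ord.ToType → Set P, X = fun i a =>
      {r | (r ∈ meets (U (Y i)) ∧ i ∈ f a) ∨ (r ∈ fnot (meets (U (Y i))) ∧ i ∉ f a)} := ⟨_, rfl⟩
  have hXd : ∀ i a, Down (X i a) := by
    intro i a r hr r' hr'
    rw [hX] at hr ⊢
    rcases hr with ⟨h1, h2⟩ | ⟨h1, h2⟩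
    · exact Or.inl ⟨down_meets _ _ h1 _ hr', h2⟩
    · exact Or.inr ⟨down_fnot _ _ h1 _ hr', h2⟩
  have hYm : ∀ i a r, r ∈ meets (Y i a) ↔ i ∈ f a := by
    intro i a r
    rw [hY]
    constructor
    · intro h
      obtain ⟨r1, _, s, hs, _⟩ := h r le_rfl
      exact hs
    · intro h
      exact meets_of_mem h
  refine not_measure hν U hU X (fun i => ?_) fun r hr a b ha hb => ?_
  · intro r hr
    by_cases hcase : ∃ r' ≤ r, r' ∈ meets (U (Y i))
    · obtain ⟨r', hr', h1⟩ := hcase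
      obtain ⟨r2, hr2, h2⟩ := mem_fimp.1 (hU.1 (Y i) (X i)) r' (hr'.trans hr)
        ⟨h1, fun b => mem_fimp.2 fun r'' hr'' hb => ⟨r'', le_rfl, meets_of_mem (by
          rw [hX]
          exact Or.inl ⟨down_meets _ _ h1 _ hr'', (hYm i b r'').1 hb⟩)⟩⟩
      obtain ⟨r3, hr3, s, hs, hs'⟩ := h2 r2 le_rfl
      exact ⟨r3, hr3.trans (hr2.trans hr'), s, hs, hs'⟩
    · push Not at hcase
      have h1 : r ∈ fnot (meets (U (Y i))) := hcase
      obtain ⟨r1, hr1, h2⟩ := mem_fimp.1 ((hU.2.1 (Y i)).2) r hr h1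
      obtain ⟨r2, hr2, h3⟩ := mem_fimp.1 (hU.1 (nCompl (Y i)) (X i)) r1 (hr1.trans hr)
        ⟨h2, fun b => mem_fimp.2 fun r'' hr'' hb => ⟨r'', le_rfl, meets_of_mem (by
          rw [hX]
          refine Or.inr ⟨down_fnot _ _ h1 _ (hr''.trans hr1), fun hib => ?_⟩
          obtain ⟨r3, hr3, hb'⟩ := exists_of_meets (down_fnot _) hb
          exact hb' r3 le_rfl ((hYm i b r3).2 hib))⟩⟩
      obtain ⟨r3, hr3, s, hs, hs'⟩ := h3 r2 le_rfl
      exact ⟨r3, hr3.trans (hr2.trans hr1), s, hs, hs'⟩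
  · apply f.injective
    have key : ∀ a b, r ∈ meets (nInter X a) → r ∈ meets (nInter X b) → ∀ i, i ∈ f a → i ∈ f b := by
      intro a b ha hb i hi
      by_contra hib
      have hd : ∀ a, Down (nInter X a) := fun a => down_fall fun i => down_meets _
      obtain ⟨r1, hr1, h1⟩ := exists_of_meets (hd a) ha
      obtain ⟨r2, hr2, h2⟩ := exists_of_meets (hd b) (down_meets _ _ hb _ hr1)
      obtain ⟨r3, hr3, h3⟩ := exists_of_meets (hXd i a) (down_meets _ _ (h1 i) _ hr2)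
      obtain ⟨r4, hr4, h4⟩ := exists_of_meets (hXd i b) (down_meets _ _ (h2 i) _ hr3)
      have h5 := hXd i a _ h3 _ hr4
      rw [hX] at h4 h5
      rcases h4 with ⟨h6, h7⟩ | ⟨h6, h7⟩
      · exact hib h7
      · rcases h5 with ⟨h8, h9⟩ | ⟨h8, h9⟩
        · exact h6 r4 le_rfl h8
        · exact h9 hi
    ext i
    exact ⟨key a b ha hb i, key b a hb ha i⟩

end

section

variable {κ : Cardinal.{0}} {𝔖 : Setup κ}

theorem RegPt.exists_between {ξ : KK κ} (h : RegPt ξ) {z i : KK κ} (hz : z < ξ) (hi : i < ξ) :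
    ∃ j < ξ, z < j ∧ i < j := by
  obtain ⟨j, hj, h1⟩ := h.2 {z, i} (by
    rintro y (rfl | hy)
    · exact hz
    · rw [mem_singleton_iff.1 hy]; exact hi) (by
    refine lt_of_lt_of_le ?_ h.1
    exact lt_aleph0_iff_finite.2 (Set.toFinite _))
  exact ⟨j, hj, h1 z (by simp), h1 i (by simp)⟩

/-- extending a collapse -/
theorem ext_collapse (h0 : Inacc κ) (r : Cnd 𝔖) {u : Stem κ} {e' e : Ent κ} {s : Stem κ}
    (hr : r.s = u ++ e' :: e :: s) {z v : KK κ} (hz : z < pt 10 e.1) (hv : v < e'.1)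
    (hn : e.2 z = none) : ∃ r' ≤ r, ∃ c : CC κ, r'.s = u ++ e' :: (e.1, c) :: s ∧ c z = some v := by
  classical
  have hw : WF (u ++ e' :: (e :: s)) := hr ▸ r.wf
  have hw2 : WF (e' :: e :: s) := hw.right
  obtain ⟨h1, h2, ⟨i, hi, h3⟩, h4⟩ := hw2
  obtain ⟨j, hj, h5, h6⟩ := h2.exists_between hv hi
  obtain ⟨c, hc⟩ : ∃ c : CC κ, c = Function.update e.2 z (some v) := ⟨_, rfl⟩
  have hcz : c z = some v := by rw [hc, Function.update_self]
  have hsub : PSub e.2 c := by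
    intro a b hab
    rw [hc]
    by_cases haz : a = z
    · subst haz
      rw [hn] at hab
      exact absurd hab (by simp)
    · rw [Function.update_of_ne haz]; exact hab
  have hdm : dm c ⊆ insert z (dm e.2) := by
    intro a ha
    by_cases haz : a = z
    · exact Or.inl haz
    · right
      rw [mem_dm, hc, Function.update_of_ne haz] at ha
      exact ha
  have hcR : c ∈ RR e.1 := by
    refine ⟨?_, fun a ha => ?_⟩
    · refine (mk_le_mk_of_subset hdm).trans (mk_insert_le.trans ?_)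
      exact w_add_le h4.1.1 (one_le_w 9 e.1)
    · rcases hdm ha with h | h
      · rw [h]; exact hz
      · exact h4.1.2 a h
  have hent : entLe (e.1, c) e := ⟨rfl, hsub⟩
  have hw3 : WF ((e.1, c) :: s) := h4.change hent hcR
  have hw4 : WF (e' :: (e.1, c) :: s) := by
    refine ⟨h1, h2, ⟨j, hj, ?_⟩, hw3⟩
    have h7 := h3.mono h6.le
    rw [SB_cons] at h7 ⊢
    refine ⟨⟨h7.1.1, fun a b hab => ?_⟩, h7.2⟩
    by_cases haz : a = z
    · subst haz
      have hab' : c a = some b := hab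
      rw [hcz, Option.some.injEq] at hab'
      rw [← hab']; exact h5
    · have hab' : c a = some b := hab
      rw [hc, Function.update_of_ne haz] at hab'
      exact h7.1.2 a b hab'
  refine ⟨⟨u ++ e' :: (e.1, c) :: s, r.t, r.A, hw.replace_cons h0 hw4, r.ht, r.hA⟩,
    DLe.le ⟨?_, PSub.refl _, subset_rfl⟩, c, rfl, hcz⟩
  rw [hr]
  exact (sLe.refl _).append (List.Forall₂.cons (entLe.refl _)
    (List.Forall₂.cons hent (sLe.refl _)))

/-- no measurable cardinal between consecutive points, above the collapse -/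
theorem not_measure_collapse (h0 : Inacc κ) {q : Cnd 𝔖} {u : Stem κ} {e' e : Ent κ} {s : Stem κ}
    (hq : q.s = u ++ e' :: e :: s) {δ : Cardinal.{0}} (h1 : w 10 e.1 < δ) (h2 : δ ≤ #(Iio e'.1))
    (U : (δ.ord.ToType → Set (Cnd 𝔖)) → Set (Cnd 𝔖)) (hU : q ∈ IsMeasure δ U) : False := by
  classical
  have hj : #(δ.ord.ToType) ≤ #(Iio e'.1) := by rw [mk_ord_toType]; exact h2
  obtain ⟨j⟩ := (Cardinal.le_def _ _).1 hj
  have hε : Nonempty ((w 10 e.1).out ≃ Iio (pt 10 e.1)) := by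
    rw [← Cardinal.eq, mk_out, mk_Iio_pt h0]
  obtain ⟨ε⟩ := hε
  have hne : Nonempty δ.ord.ToType := by
    rw [← mk_ne_zero_iff, mk_ord_toType]
    exact (zero_le.trans_lt h1).ne'
  obtain ⟨G, hG⟩ : ∃ G : (w 10 e.1).out → δ.ord.ToType → Set (Cnd 𝔖), G = fun i a =>
      {r | ∃ u1 e1 s1, r.s = u1 ++ e1 :: s1 ∧ e1.1 = e.1 ∧ e1.2 (ε i).1 = some (j a).1} := ⟨_, rfl⟩
  have hGd : ∀ i a, Down (G i a) := by
    intro i a r hr r' hr'
    rw [hG] at hr ⊢
    obtain ⟨u1, e1, s1, h3, h4, h5⟩ := hr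
    obtain ⟨xs, u', e2, s', h7⟩ := le_decomp hr' h3
    exact ⟨u', e2, s', h7.hs, h7.he.1.trans h4, h7.he.2 _ _ h5⟩
  -- the shape of the extensions
  have shape : ∀ r ≤ q, ∃ u1 e1' e1 s1, r.s = u1 ++ e1' :: e1 :: s1 ∧ e1'.1 = e'.1 ∧
      e1.1 = e.1 := by
    intro r hr
    obtain ⟨xs, u1, e1', s', h7⟩ := le_decomp hr hq
    obtain ⟨e1, s1, rfl, h8, h9⟩ := sLe_cons_iff h7.hl
    exact ⟨u1, e1', e1, s1, h7.hs, h7.he.1, h8.1⟩
  have shape' : ∀ r ≤ q, ∀ u1 e1 s1, r.s = u1 ++ e1 :: s1 → e1.1 = e.1 → ∀ u2 e2 s2,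
      r.s = u2 ++ e2 :: s2 → e2.1 = e.1 → e1 = e2 := by
    intro r _ u1 e1 s1 h3 h4 u2 e2 s2 h5 h6
    exact (decomp_unique h0 (h3 ▸ r.wf) (h3.symm.trans h5) (h4.trans h6.symm)).2.1
  refine not_measure h1 U hU (fun i a => fnot (G i a)) (fun i => ?_) fun r hr a b ha hb => ?_
  · intro r hr
    -- define the value
    have hval : ∃ r1 ≤ r, ∃ u1 e1 s1, r1.s = u1 ++ e1 :: s1 ∧ e1.1 = e.1 ∧
        ∃ v, e1.2 (ε i).1 = some v := by
      obtain ⟨u1, e1', e1, s1, h3, h4, h5⟩ := shape r hr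
      by_cases hn : e1.2 (ε i).1 = none
      · obtain ⟨r', hr', c, h6, h7⟩ := ext_collapse h0 r h3 (z := (ε i).1) (v := (j hne.some).1)
          (by rw [h5]; exact (ε i).2) (by rw [h4]; exact (j hne.some).2) hn
        exact ⟨r', hr', u1 ++ [e1'], (e1.1, c), s1, by rw [h6]; simp, h5, _, h7⟩
      · obtain ⟨v, hv⟩ := Option.ne_none_iff_exists'.1 hn
        exact ⟨r, le_rfl, u1 ++ [e1'], e1, s1, by rw [h3]; simp, h5, v, hv⟩
    obtain ⟨r1, hr1, u1, e1, s1, h3, h4, v, hv⟩ := hval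
    obtain ⟨a, ha⟩ : ∃ a, ∀ b, v = (j b).1 → b = a := by
      by_cases hb : ∃ b, v = (j b).1
      · obtain ⟨a, ha⟩ := hb
        exact ⟨a, fun b hb => j.injective (Subtype.ext (hb.symm.trans ha))⟩
      · push Not at hb
        exact ⟨hne.some, fun b hb' => absurd hb' (hb b)⟩
    have h5 : r1 ∈ fnot (meets (U fun b => fground (b = a))) :=
      down_fnot _ _ (hU.2.2.2 a) _ (hr1.trans hr)
    obtain ⟨r2, hr2, h6⟩ := mem_fimp.1 ((hU.2.1 fun b => fground (b = a)).2) r1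
      (hr1.trans hr) h5
    have hk : ∀ r4 ≤ r2, ∀ b, r4 ∈ meets (nCompl (fun b => fground (b = a)) b) →
        r4 ∈ fnot (G i b) := by
      intro r4 hr4 b hb r5 hr5 h8
      rw [hG] at h8
      obtain ⟨u2, e2, s2, h9, h10, h11⟩ := h8
      obtain ⟨xs, u3, e3, s3, h12⟩ := le_decomp (hr5.trans (hr4.trans hr2)) h3
      have h13 := shape' r5 (hr5.trans (hr4.trans (hr2.trans (hr1.trans hr)))) u2 e2 s2 h9 h10
        u3 e3 s3 h12.hs (h12.he.1.trans h4)
      have h14 := h12.he.2 _ _ hv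
      rw [← h13, h11, Option.some.injEq] at h14
      have h15 := ha b h14.symm
      obtain ⟨r6, hr6, hb'⟩ := exists_of_meets (down_fnot _) hb
      exact hb' r6 le_rfl (meets_of_mem h15)
    obtain ⟨r3, hr3, h7⟩ := mem_fimp.1 (hU.1 (nCompl fun b => fground (b = a))
      (fun a => fnot (G i a))) r2 (hr2.trans (hr1.trans hr)) ⟨h6, fun b => mem_fimp.2
        fun r4 hr4 hb => ⟨r4, le_rfl, meets_of_mem (hk r4 hr4 b hb)⟩⟩
    obtain ⟨r4, hr4, s', hs, hs'⟩ := h7 r3 le_rfl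
    exact ⟨r4, hr4.trans (hr3.trans (hr2.trans hr1)), s', hs, hs'⟩
  · exfalso
    obtain ⟨r1, hr1, h3⟩ := exists_of_meets
      (down_fall fun i => down_meets _ : Down (nInter (fun i a => fnot (G i a)) a)) ha
    obtain ⟨u1, e1', e1, s1, h4, h5, h6⟩ := shape r1 (hr1.trans hr)
    have hw : WF (e1 :: s1) := by
      have h7 : WF (u1 ++ e1' :: e1 :: s1) := h4 ▸ r1.wf
      exact h7.right.tail
    obtain ⟨z, hz, hzn⟩ : ∃ z < pt 10 e1.1, e1.2 z = none := by
      by_contra hcon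
      push Not at hcon
      have h8 : Iio (pt 10 e1.1) ⊆ dm e1.2 := fun z hz => hcon z hz
      have h9 := (mk_le_mk_of_subset h8).trans hw.1.1
      rw [mk_Iio_pt h0] at h9
      exact absurd (w_lt (by norm_num : 9 < 10) e1.1) (not_lt.2 h9)
    have hz' : z < pt 10 e.1 := by rw [← h6]; exact hz
    obtain ⟨r', hr', c, h7, h8⟩ := ext_collapse h0 r1 h4 (z := z) (v := (j a).1) hz
      (by rw [h5]; exact (j a).2) hzn
    have h9 : r' ∈ G (ε.symm ⟨z, hz'⟩) a := by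
      rw [hG]
      refine ⟨u1 ++ [e1'], (e1.1, c), s1, by rw [h7]; simp, h6, ?_⟩
      simp only [Equiv.apply_symm_apply]
      exact h8
    obtain ⟨r2, hr2, h10⟩ := exists_of_meets (down_fnot _)
      (down_meets _ _ (h3 (ε.symm ⟨z, hz'⟩)) _ hr')
    exact h10 r2 le_rfl (hGd _ _ _ h9 _ hr2)

/-- **`κ` is not a limit of measurable cardinals in the extension** -/
theorem notLimitOfMeasurables (h0 : Inacc κ) (p : Cnd 𝔖) :
    p ∈ NotLimitOfMeasurables (Cnd 𝔖) κ := by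
  unfold NotLimitOfMeasurables
  rw [mem_fex]
  intro p1 _
  obtain ⟨p0, hp0, e0, h1, -⟩ := ext_one h0 p1 h0.nonempty.some
  refine ⟨p0, hp0, ⟨#(Iio e0.1), mk_Iio_KK _⟩, fun δ hδ hδκ q hq hex => ?_⟩
  obtain ⟨q1, hq1, U, hU⟩ := mem_fex.1 hex q le_rfl
  obtain ⟨b, hb⟩ := exists_pt hδκ
  obtain ⟨r, hr, e', h2, h3⟩ := ext_one h0 q1 b
  obtain ⟨xs, u, e, s, h4⟩ := le_decomp (u := []) (hr.trans (hq1.trans hq)) h1
  have h5 : δ ≤ #(Iio e'.1) := by
    rw [← hb]; exact mk_le_mk_of_subset (Iio_subset_Iio h3.le)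
  have h6 : #(Iio e.1) < δ := by rw [h4.he.1]; exact hδ
  have key : ∀ (u : Stem κ) (l : Stem κ), l = u ++ e :: s → (∀ e', l.head? = some e' →
      δ ≤ #(Iio e'.1)) → ∃ u1 e1' e1 s1, l = u1 ++ e1' :: e1 :: s1 ∧ #(Iio e1.1) < δ ∧
      δ ≤ #(Iio e1'.1) := by
    intro u
    induction u with
    | nil =>
      intro l hl hh
      exfalso
      have := hh e (by rw [hl]; rfl)
      exact absurd h6 (not_lt.2 this)
    | cons a u ih =>
      intro l hl hh
      have ha : δ ≤ #(Iio a.1) := hh a (by rw [hl]; rfl)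
      by_cases hc : ∀ e', (u ++ e :: s).head? = some e' → δ ≤ #(Iio e'.1)
      · obtain ⟨u1, e1', e1, s1, h7, h8, h9⟩ := ih _ rfl hc
        exact ⟨a :: u1, e1', e1, s1, by rw [hl, List.cons_append, h7]; rfl, h8, h9⟩
      · push Not at hc
        obtain ⟨e2, h7, h8⟩ := hc
        cases hu : u ++ e :: s with
        | nil => simp at hu
        | cons c l' =>
          rw [hu] at h7
          simp only [List.head?_cons, Option.some.injEq] at h7
          subst h7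
          exact ⟨[], a, c, l', by rw [hl, List.cons_append, hu]; rfl, h8, ha⟩
  obtain ⟨u1, e1', e1, s1, h7, h8, h9⟩ := key u r.s h4.hs (fun e2 he2 => by
    rw [h2] at he2
    simp only [List.head?_cons, Option.some.injEq] at he2
    rw [← he2]; exact h5)
  have hUr := down_IsMeasure' U _ hU _ hr
  have hreg : RegPt e1.1 := by
    have h10 : WF (u1 ++ e1' :: e1 :: s1) := h7 ▸ r.wf
    exact h10.right.tail.2.1
  by_cases h10 : w 10 e1.1 < δ
  · exact not_measure_collapse h0 h7 h10 h9 U hUr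
  · rw [not_lt] at h10
    have h11 : w 0 e1.1 < δ := by
      rw [w_zero, max_eq_right hreg.1]; exact h8
    have h12 : ∃ n, w n e1.1 < δ ∧ δ ≤ w (n + 1) e1.1 := by
      by_contra hcon
      push Not at hcon
      have h13 : ∀ n, w n e1.1 < δ := fun n => by
        induction n with
        | zero => exact h11
        | succ n ih => exact hcon n ih
      exact absurd (h13 10) (not_lt.2 h10)
    obtain ⟨n, h13, h14⟩ := h12
    exact not_measure_of_le_pow h13 h14 U hUr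

end

end Run7.h699
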