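import Mathlib
import Pool.Agent.Run7.h699.Ext

set_option autoImplicit false

/-!
# There are at most `κ⁺⁺` subsets of `κ` in the extension
-/

namespace Run7.h699

open Cardinal Set Pool.Agent.Helper669.K Pool.Agent.Helper669.Forcing

section

variable {κ : Cardinal.{0}} {𝔖 : Setup κ}

/-- entries above the stem of an earlier condition come from points -/
theorem exists_thr (h0 : Inacc κ) {φ : KK κ → Set (Cnd 𝔖)} (P : Prep φ) {m q r : Cnd 𝔖}
    (ht : PSub P.t m.t) (hA : m.A ⊆ P.A) {xs xs' : List 𝔖.X} (h : LeBy xs q m)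
    (h' : LeBy xs' r q) {u : Stem κ} {e : Ent κ} {s : Stem κ} (hs : r.s = u ++ e :: s)
    (hn : q.s.length ≤ s.length) : ∃ ys x zs, xs' = ys ++ x :: zs ∧ sLe u (ys.map (bas 𝔖)) ∧
      Thr P r u e s x (addt 𝔖 (zs ++ xs) P.t) := by
  have h1 := h'.2.1
  have h2 := h1.length
  rw [hs, List.length_append, List.length_append, List.length_cons, List.length_map] at h2
  have h3 : u.length < xs'.length := by omega
  obtain ⟨ys, x, zs, h4, h5⟩ : ∃ ys x zs, xs' = ys ++ x :: zs ∧ ys.length = u.length := by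
    have h6 : (xs'.drop u.length) ≠ [] := by
      intro h
      have := congrArg List.length h
      rw [List.length_drop, List.length_nil] at this
      omega
    obtain ⟨x, zs, h7⟩ := List.exists_cons_of_ne_nil h6
    exact ⟨xs'.take u.length, x, zs, by rw [← h7, List.take_append_drop], by
      rw [List.length_take]; omega⟩
  have h6 : LeBy (ys ++ x :: (zs ++ xs)) r m := by
    have h7 := h'.trans h
    rw [h4, List.append_assoc] at h7
    exact h7
  obtain ⟨u', e', s1', h7, h8, h9⟩ := thr_of_leBy h0 P ht hA h6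
  obtain ⟨h10, h11⟩ := List.append_inj (hs.symm.trans h9.hs) (by omega)
  simp only [List.cons.injEq] at h11
  obtain ⟨rfl, rfl⟩ := h11
  subst h10
  refine ⟨ys, x, zs, h4, ?_, h9⟩
  rw [hs, h4, List.map_append, List.append_assoc] at h1
  obtain ⟨u'', v'', h12, h13, h14⟩ := sLe_append_iff h1
  obtain ⟨rfl, -⟩ := List.append_inj h12 (by rw [h13.length, List.length_map]; omega)
  exact h13

theorem leBy_self (q : Cnd 𝔖) : LeBy [] q q := leBy_nil.2 (DLe.refl q)

/-- **there are at most `κ⁺⁺` subsets of `κ`** -/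
theorem not_leTwoPow (h0 : Inacc κ) (h2 : (2 : Cardinal.{0}) ^ κ = Order.succ κ)
    {μ : Cardinal.{0}} (hμ : Order.succ (Order.succ κ) < μ) (p : Cnd 𝔖) :
    p ∉ LeTwoPow (Cnd 𝔖) μ κ := by
  classical
  intro hp
  obtain ⟨q, hq, F, hF⟩ := mem_fex.1 hp p le_rfl
  have hreg : ∀ (N : Set (Cnd 𝔖)), en_Reg (meets N) := fun N r hr q hq => by
    obtain ⟨r', hr', h⟩ := hr q hq
    obtain ⟨r'', hr'', h⟩ := h r' le_rfl
    exact ⟨r'', hr''.trans hr', h⟩
  have hP := fun α : μ.ord.ToType => exists_prep h0 (fun b => meets (F α b))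
    (fun b => down_meets _) (fun b => hreg _) q.t q.ht
  choose P hPt using hP
  -- first pigeonhole
  have hc1 : #{t : TT κ // #(dm t) ≤ κ} ≤ Order.succ (Order.succ κ) := by
    have hα : #(II κ × (KK κ → KK κ)) ≤ Order.succ (Order.succ κ) := by
      rw [mk_prod, lift_id, lift_id, mk_II]
      exact (mul_le_mul' le_rfl ((mk_fun_le h0 h2).trans (Order.le_succ _))).trans
        (mul_eq_self (inf_succ2 h0)).le
    have hb : #{S : Set (II κ × (KK κ → KK κ)) // #S ≤ κ} ≤ Order.succ (Order.succ κ) := by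
      refine (mk_bounded_set_le _ _).trans ?_
      refine (power_le_power_right (max_le hα (inf_succ2 h0))).trans ?_
      exact mk_funI_le h0 h2
    refine le_trans (mk_le_of_injective (f := fun t : {t : TT κ // #(dm t) ≤ κ} =>
      (⟨{y | t.1 y.1 = some y.2}, ?_⟩ : {S : Set (II κ × (KK κ → KK κ)) // #S ≤ κ})) ?_) hb
    · refine le_trans ?_ t.2
      refine mk_le_of_injective (f := fun y : {y : II κ × (KK κ → KK κ) | t.1 y.1 = some y.2}
        => (⟨y.1.1, mem_dm_iff.2 ⟨_, y.2⟩⟩ : dm t.1)) ?_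
      rintro ⟨⟨a, g⟩, h⟩ ⟨⟨b, g'⟩, h'⟩ hab
      simp only [Subtype.mk.injEq] at hab
      subst hab
      simp only [mem_ofPred_eq] at h h'
      rw [h, Option.some.injEq] at h'
      subst h'
      rfl
    · intro t t' htt
      simp only [Subtype.mk.injEq] at htt
      apply Subtype.ext
      apply PSub.antisymm
      · intro a b hab
        exact (Set.ext_iff.1 htt (a, b)).1 hab
      · intro a b hab
        exact (Set.ext_iff.1 htt (a, b)).2 hab
  obtain ⟨t, ht⟩ := pigeon (inf_succ2 h0)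
    (fun α : μ.ord.ToType => (⟨(P α).t, (P α).ht⟩ : {t : TT κ // #(dm t) ≤ κ})) hc1
    (by rw [mk_ord_toType]; exact hμ)
  -- second pigeonhole
  have hCC : #(CC κ) ≤ Order.succ κ := by
    rw [mk_arrow, lift_id, lift_id, mk_KK, mk_option, mk_KK, ← succ_pow h0 h2]
    refine power_le_power_right ?_
    exact (add_le_add (Order.le_succ κ) (one_lt_aleph0.le.trans (inf_succ h0))).trans
      (add_eq_self (inf_succ h0)).le
  have hc2 : #((KK κ → II κ) × (KK κ → CC κ) ×
      Set (KK κ × Mods t.1 × KK κ × {s : Stem κ | WF s})) ≤ Order.succ (Order.succ κ) := by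
    have h3 : #(KK κ → II κ) ≤ Order.succ (Order.succ κ) := by
      rw [mk_arrow, lift_id, lift_id, mk_II, mk_KK (κ := κ)]
      exact mk_funI_le h0 h2
    have h4 : #(KK κ → CC κ) ≤ Order.succ (Order.succ κ) := by
      rw [mk_arrow, lift_id, lift_id, mk_KK]
      refine (power_le_power_right hCC).trans ?_
      rw [succ_pow h0 h2]
      exact Order.le_succ _
    have h5 : #(Set (KK κ × Mods t.1 × KK κ × {s : Stem κ | WF s})) ≤
        Order.succ (Order.succ κ) := by
      rw [mk_set]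
      refine le_trans (power_le_power_left two_ne_zero (?_ : _ ≤ κ)) ?_
      · simp only [mk_prod, lift_id]
        rw [mk_KK]
        refine (mul_le_mul' le_rfl ((mul_le_mul' (mk_Mods h0 t.2) (mul_le_mul' le_rfl
          (mk_WF_le h0))).trans ?_)).trans (mul_eq_self h0.inf).le
        rw [mul_eq_self h0.inf, mul_eq_self h0.inf]
      · rw [h2]; exact Order.le_succ _
    rw [mk_prod, mk_prod]
    simp only [lift_id]
    refine (mul_le_mul' h3 (mul_le_mul' h4 h5)).trans ?_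
    rw [mul_eq_self (inf_succ2 h0), mul_eq_self (inf_succ2 h0)]
  obtain ⟨α, β, hne, hαβ⟩ := exists_ne_of_lt (α := (fun α : μ.ord.ToType =>
      (⟨(P α).t, (P α).ht⟩ : {t : TT κ // #(dm t) ≤ κ})) ⁻¹' {t})
    (β := (KK κ → II κ) × (KK κ → CC κ) × Set (KK κ × Mods t.1 × KK κ × {s : Stem κ | WF s}))
    (fun α => ((P α.1).e, (P α.1).C, {y | y.2.2.2.1 ∈ (P α.1).val y.1 y.2.1.1 y.2.2.1}))
    (hc2.trans_lt ht)
  simp only [Prod.mk.injEq] at hαβ
  obtain ⟨h3, h4, h5⟩ := hαβ
  have hαt : (P α.1).t = t.1 := congrArg Subtype.val α.2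
  have hβt : (P β.1).t = t.1 := congrArg Subtype.val β.2
  have hne' : α.1 ≠ β.1 := fun h => hne (Subtype.ext h)
  obtain ⟨q', hq's, hq't, hq'A⟩ : ∃ q' : Cnd 𝔖, q'.s = q.s ∧ q'.t = t.1 ∧
      q'.A = q.A ∩ ((P α.1).A ∩ (P β.1).A) :=
    ⟨⟨q.s, t.1, q.A ∩ ((P α.1).A ∩ (P β.1).A), q.wf, t.2,
      Filter.inter_mem q.hA (Filter.inter_mem (P α.1).hA (P β.1).hA)⟩, rfl, rfl, rfl⟩
  have hq' : q' ≤ q := by
    refine DLe.le ⟨?_, ?_, ?_⟩
    · rw [hq's]; exact sLe.refl _
    · rw [hq't, ← hαt]; exact hPt α.1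
    · rw [hq'A]; exact inter_subset_left
  have key : ∀ (α β : μ.ord.ToType), (P α).t = t.1 → (P β).t = t.1 → q'.A ⊆ (P α).A →
      q'.A ⊆ (P β).A → (∀ y : KK κ × Mods t.1 × KK κ × {s : Stem κ | WF s},
        y.2.2.2.1 ∈ (P α).val y.1 y.2.1.1 y.2.2.1 → y.2.2.2.1 ∈ (P β).val y.1 y.2.1.1 y.2.2.1) →
      ∀ b, q' ∈ fimp (meets (F α b)) (meets (F β b)) := by
    intro α β hα hβ hαA hβA hval b
    rw [mem_fimp]
    intro r hr hrα
    by_contra hcon
    push Not at hcon
    have hrβ : r ∈ fnot (meets (F β b)) := hcon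
    obtain ⟨xs, hxs⟩ := hr
    obtain ⟨x, hx, hxb, hb⟩ := exists_point_above h0 r (𝔖.fineK b)
    obtain ⟨r1, h6, h7, -⟩ := exists_point_ext r x hx hb
    have h8 : LeBy ([] ++ x :: xs) r1 q' := h6.trans hxs
    obtain ⟨u, e, s1, h9, h10, h11⟩ := thr_of_leBy h0 (P α) (q := q')
      (by rw [hα, hq't]; exact PSub.refl _) hαA h8
    obtain ⟨u', e', s1', h9', h10', h11'⟩ := thr_of_leBy h0 (P β) (q := q')
      (by rw [hβ, hq't]; exact PSub.refl _) hβA h8
    obtain ⟨h12, h13⟩ := List.append_inj (h11.hs.symm.trans h11'.hs) (h9.trans h9'.symm)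
    simp only [List.cons.injEq] at h13
    obtain ⟨rfl, rfl⟩ := h13
    subst h12
    have hb8 : b < pt 8 e.1 := by
      rw [h11.kap_eq]
      exact lt_trans hxb (lt_pt h0 (by norm_num) _)
    refine transfer h0 (fun b => down_meets _) (fun b => down_meets _) h11 h11' hb8 hb8 ?_
      (down_meets _ _ hrα _ ⟨_, h6⟩) (down_fnot _ _ hrβ _ ⟨_, h6⟩)
    intro s hs
    have hMods : upd 𝔖 x (addt 𝔖 xs t.1) ∈ Mods t.1 :=
      upd_mem_Mods h0 (addt_mem_Mods h0 _ _) x
    have h14 := hval (e.1, ⟨_, hMods⟩, b, ⟨s, ((P α).val_subset _ _ _ hs).1⟩)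
    simp only at h14
    rw [hα] at hs
    rw [hβ]
    exact h14 hs
  refine hF α.1 β.1 hne' q' hq' fun b => ⟨?_, ?_⟩
  · exact key α.1 β.1 hαt hβt (by rw [hq'A]; exact fun x hx => hx.2.1)
      (by rw [hq'A]; exact fun x hx => hx.2.2) (fun y hy => (Set.ext_iff.1 h5 y).1 hy) b
  · exact key β.1 α.1 hβt hαt (by rw [hq'A]; exact fun x hx => hx.2.2)
      (by rw [hq'A]; exact fun x hx => hx.2.1) (fun y hy => (Set.ext_iff.1 h5 y).2 hy) b

end

end Run7.h699
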