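import Mathlib
import Pool.Agent.Run7.h699.Pow

set_option autoImplicit false

/-!
# The strong polarized relation
-/

namespace Run7.h699

open Cardinal Set Pool.Agent.Helper669.K Pool.Agent.Helper669.Forcing

section

variable {P : Type} [Preorder P]

theorem en_Reg_meets (N : Set P) : en_Reg (meets N) := fun r hr q hq => by
  obtain ⟨r', hr', h⟩ := hr q hq
  obtain ⟨r'', hr'', h⟩ := h r' le_rfl
  exact ⟨r'', hr''.trans hr', h⟩

/-- the colouring is constant on the set with value `b` -/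
def hom {Y : Type} (φ B : Y → Set P) (b : Bool) : Set P :=
  fall fun y => fimp (meets (B y)) (if b then meets (φ y) else fnot (meets (φ y)))

theorem down_hom {Y : Type} (φ B : Y → Set P) (b : Bool) : Down (hom φ B b) :=
  down_fall fun _ => down_fimp _ _

theorem en_Reg_hom {Y : Type} (φ B : Y → Set P) (b : Bool) : en_Reg (hom φ B b) :=
  en_Reg_fall fun _ => en_Reg_fimp (down_meets _)

/-- a criterion for the strong polarized relation -/
theorem polarized_of {μ : Cardinal.{0}} (hμ : ℵ₀ ≤ μ)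
    (hreg : ∀ q : P, q ∈ StaysRegular P μ) {Y : Type} (q : P)
    (H : ∀ c : μ.ord.ToType → Y → Set P, ∀ q' ≤ q, ∃ q0 ≤ q', ∃ (Tg : Type) (B : Tg → Y → Set P)
      (col : Tg → Bool), #Tg < μ ∧ (∀ τ, q0 ∈ HasFullSize (B τ)) ∧
      ∀ r ≤ q0, ∀ α, ∃ r' ≤ r, ∃ τ, r' ∈ hom (c α) (B τ) (col τ)) :
    q ∈ Polarized P μ.ord.ToType Y := by
  classical
  intro c
  rw [mem_fex]
  intro q' hq'
  obtain ⟨q0, hq0, Tg, B, col, hTg, hB, hdense⟩ := H c q' hq'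
  obtain ⟨A, hA⟩ : ∃ A : Tg → μ.ord.ToType → Set P, A = fun τ α => hom (c α) (B τ) (col τ) :=
    ⟨_, rfl⟩
  have hAd : ∀ τ α, Down (A τ α) := fun τ α => by rw [hA]; exact down_hom _ _ _
  have hAr : ∀ τ α, en_Reg (A τ α) := fun τ α => by rw [hA]; exact en_Reg_hom _ _ _
  have claim : ∃ r ≤ q0, ∃ τ, ∀ q' ≤ r, ∀ β, ∃ r' ≤ q', ∃ γ, β ≤ γ ∧ r' ∈ A τ γ := by
    by_contra hcon
    push Not at hcon
    obtain ⟨ε⟩ : Nonempty ((#Tg).out ≃ Tg) := by rw [← Cardinal.eq, mk_out]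
    obtain ⟨bd, hbd⟩ : ∃ bd : Tg → μ.ord.ToType → Set P, bd = fun τ β =>
        fall fun γ => fall fun _ : β ≤ γ => fnot (A τ γ) := ⟨_, rfl⟩
    have hbdd : ∀ τ β, Down (bd τ β) := fun τ β => by
      rw [hbd]; exact down_fall fun γ => down_fall fun _ => down_fnot _
    obtain ⟨R, hR⟩ : ∃ R : (#Tg).out → μ.ord.ToType → Set P, R = fun i β =>
        fand (bd (ε i) β) (fall fun β' => fall fun _ : β' < β => fnot (bd (ε i) β')) := ⟨_, rfl⟩
    have hRd : ∀ i β, Down (R i β) := fun i β => by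
      rw [hR]; exact down_fand (hbdd _ _) (down_fall fun _ => down_fall fun _ => down_fnot _)
    have hIs : q0 ∈ IsFun R := by
      refine ⟨fun i => ?_, fun i β β' => ?_⟩
      · rw [mem_fex]
        intro r hr
        have hex : ∃ β, ∃ r' ≤ r, r' ∈ bd (ε i) β := by
          obtain ⟨r', hr', β, h1⟩ := hcon r hr (ε i)
          refine ⟨β, r', hr', ?_⟩
          rw [hbd]
          exact fun γ hγ r'' hr'' => h1 r'' hr'' γ hγ
        obtain ⟨β, ⟨r', hr', h1⟩, hmin⟩ := (wellFounded_lt (α := μ.ord.ToType)).has_min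
          {β | ∃ r' ≤ r, r' ∈ bd (ε i) β} hex
        refine ⟨r', hr', β, meets_of_mem ?_⟩
        rw [hR]
        refine ⟨h1, fun β' hβ' r'' hr'' h2 => ?_⟩
        exact hmin β' ⟨r'', hr''.trans hr', h2⟩ hβ'
      · rw [mem_fimp]
        intro r _ hr
        obtain ⟨r1, h1, h2⟩ := exists_of_meets (hRd _ _) hr.1
        obtain ⟨r2, h3, h4⟩ := exists_of_meets (hRd _ _) (down_meets _ _ hr.2 _ h1)
        have h5 := hRd _ _ _ h2 _ h3
        refine ⟨r2, h3.trans h1, ?_⟩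
        rw [mem_fground]
        rw [hR] at h4 h5
        rcases lt_trichotomy β β' with h | h | h
        · exact absurd h5.1 (h4.2 β h r2 le_rfl)
        · exact h
        · exact absurd h4.1 (h5.2 β' h r2 le_rfl)
    obtain ⟨r1, hr1, h1⟩ := mem_fimp.1 (hreg q0 (#Tg) hTg R) q0 le_rfl hIs
    obtain ⟨r2, hr2, b, hb⟩ := mem_fex.1 h1 r1 le_rfl
    obtain ⟨r3, hr3, τ, h3⟩ := hdense r2 (hr2.trans hr1) b
    obtain ⟨r4, hr4, β, h4⟩ := mem_fex.1 (hIs.1 (ε.symm τ)) r3 (hr3.trans (hr2.trans hr1))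
    obtain ⟨r5, hr5, h5⟩ := mem_fimp.1 (hb (ε.symm τ) β) r4 (hr4.trans hr3) h4
    rw [mem_fground] at h5
    obtain ⟨r6, hr6, h6⟩ := exists_of_meets (hRd _ _) h4
    rw [hR] at h6
    have h7 := h6.1
    rw [Equiv.apply_symm_apply, hbd] at h7
    refine h7 b h5.le r6 le_rfl ?_
    rw [hA]
    exact down_hom _ _ _ _ h3 _ (hr6.trans hr4)
  obtain ⟨r, hr, τ, h1⟩ := claim
  refine ⟨r, hr.trans hq0, A τ, mem_fex_of_mem (B τ) ?_ ?_⟩
  · refine down_fand ?_ (down_fand ?_ (down_fnot _))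
    · exact down_fall fun _ => down_fall fun _ => down_fnot _
    · exact down_fall fun _ => down_fall fun _ => down_fnot _
  · refine ⟨hasFullSize_of_unbounded hμ hreg (A τ) r fun q' hq' β => ?_,
      down_fall (fun _ => down_fall fun _ => down_fnot _) _ (hB τ) _ hr, ?_⟩
    · obtain ⟨r', hr', γ, h2, h3⟩ := h1 q' hq' β
      exact ⟨r', hr', γ, h2, meets_of_mem h3⟩
    · intro r' hr' h2
      have hmem : ∀ s : P, ∀ x, s ∈ meets (A τ x) → s ∈ A τ x := fun s x hs =>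
        hAr τ x s fun s' hs' => by
          obtain ⟨s1, h3, h4⟩ := exists_of_meets (hAd τ x) (down_meets _ _ hs _ hs')
          exact ⟨s1, h3, h4⟩
      cases hcol : col τ with
      | true =>
        refine h2.1 r' le_rfl fun x y => mem_fimp.2 fun s _ hs => ?_
        have h3 := hmem s x hs.1
        rw [hA] at h3
        obtain ⟨s', hs', h4⟩ := mem_fimp.1 (h3 y) s le_rfl hs.2
        rw [hcol] at h4
        exact ⟨s', hs', h4⟩
      | false =>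
        refine h2.2 r' le_rfl fun x y => mem_fimp.2 fun s _ hs => ?_
        have h3 := hmem s x hs.1
        rw [hA] at h3
        obtain ⟨s', hs', h4⟩ := mem_fimp.1 (h3 y) s le_rfl hs.2
        rw [hcol] at h4
        exact ⟨s', hs', h4⟩

end

section

variable {κ : Cardinal.{0}} {𝔖 : Setup κ}

/-- The union of the sets attached to the entries with numbers in `E`. -/
def BN (S : Cnd 𝔖 → KK κ → Set (KK κ)) (E : Set ℕ) (y : KK κ) : Set (Cnd 𝔖) :=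
  {r | ∃ u e s, r.s = u ++ e :: s ∧ s.length ∈ E ∧ y ∈ S r e.1}

/-- `S` is preserved by extensions -/
def Pres (S : Cnd 𝔖 → KK κ → Set (KK κ)) : Prop :=
  ∀ r' r : Cnd 𝔖, ∀ u e s, r' ≤ r → r.s = u ++ e :: s → S r e.1 ⊆ S r' e.1

theorem down_BN {S : Cnd 𝔖 → KK κ → Set (KK κ)} (hS : Pres S) (E : Set ℕ) (y : KK κ) :
    Down (BN S E y) := by
  rintro r ⟨u, e, s, h1, h2, h3⟩ r' hr'
  obtain ⟨xs, u', e', s', h7⟩ := le_decomp hr' h1
  refine ⟨u', e', s', h7.hs, by rw [h7.hl.length]; exact h2, ?_⟩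
  rw [h7.he.1]
  exact hS r' r u e s hr' h1 h3

/-- homogeneity at each late entry gives a homogeneous set -/
theorem exists_hom (h0 : Inacc κ) {S : Cnd 𝔖 → KK κ → Set (KK κ)} (hS : Pres S)
    (φ : KK κ → Set (Cnd 𝔖)) (q : Cnd 𝔖) (n0 : ℕ)
    (hH : ∀ r ≤ q, ∀ u e s, r.s = u ++ e :: s → n0 ≤ s.length → ∀ y ∈ S r e.1, ∀ y' ∈ S r e.1,
      r ∈ meets (φ y) → r ∈ fnot (meets (φ y')) → False) :
    ∃ r ≤ q, ∃ E : Set ℕ, E.Infinite ∧ ∃ b : Bool, r ∈ hom φ (BN S E) b := by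
  obtain ⟨r, hr, hdec⟩ := decide_all h0 q (N := ℕ) (by simp)
    (fun n => hom φ (BN S {n}) true) (fun n => down_hom _ _ _) (fun n => en_Reg_hom _ _ _)
  have hinf : ({n : ℕ | n0 ≤ n ∧ r ∈ hom φ (BN S {n}) true} ∪
      {n : ℕ | n0 ≤ n ∧ r ∈ fnot (hom φ (BN S {n}) true)}).Infinite := by
    refine (Set.Ici_infinite n0).mono ?_
    intro n hn
    rcases hdec n with h | h
    · exact Or.inl ⟨hn, h⟩
    · exact Or.inr ⟨hn, h⟩
  rw [Set.infinite_union] at hinf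
  rcases hinf with hE | hE
  · refine ⟨r, hr, _, hE, true, fun y => mem_fimp.2 fun r' hr' hm => ?_⟩
    obtain ⟨r1, hr1, u, e, s, h1, h2, h3⟩ := exists_of_meets (down_BN hS _ _) hm
    have h4 : r1 ∈ BN S {s.length} y := ⟨u, e, s, h1, rfl, h3⟩
    obtain ⟨r2, hr2, h5⟩ := mem_fimp.1 (h2.2 y) r1 (hr1.trans hr') (meets_of_mem h4)
    exact ⟨r2, hr2.trans hr1, h5⟩
  · refine ⟨r, hr, _, hE, false, fun y => mem_fimp.2 fun r' hr' hm => ?_⟩
    obtain ⟨r1, hr1, u, e, s, h1, h2, h3⟩ := exists_of_meets (down_BN hS _ _) hm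
    by_contra hcon
    push Not at hcon
    have h4 := hcon r1 hr1
    simp only [Bool.false_eq_true, if_false] at h4
    have h5 : ∃ r2 ≤ r1, r2 ∈ meets (φ y) := by
      by_contra h6
      push Not at h6
      exact h4 h6
    obtain ⟨r2, hr2, h6⟩ := h5
    have h7 : r2 ∉ hom φ (BN S {s.length}) true := h2.2 r2 (hr2.trans (hr1.trans hr'))
    have h8 : ∃ y', r2 ∉ fimp (meets (BN S {s.length} y')) (meets (φ y')) := by
      by_contra h9
      push Not at h9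
      exact h7 h9
    obtain ⟨y', h9⟩ := h8
    rw [mem_fimp] at h9
    push Not at h9
    obtain ⟨r3, hr3, h10, h11⟩ := h9
    obtain ⟨r4, hr4, u4, e4, s4, h12, h13, h14⟩ := exists_of_meets (down_BN hS _ _) h10
    obtain ⟨xs, u5, e5, s5, h15⟩ := le_decomp (hr4.trans (hr3.trans hr2)) h1
    obtain ⟨-, h16, -⟩ := decomp_unique_len (h12.symm.trans h15.hs)
      ((mem_singleton_iff.1 h13).trans h15.hl.length.symm)
    have h17 : e4.1 = e.1 := by rw [h16]; exact h15.he.1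
    refine hH r4 (hr4.trans (hr3.trans (hr2.trans (hr1.trans (hr'.trans hr))))) u4 e4 s4 h12 ?_
      y ?_ y' h14 (down_meets _ _ h6 _ (hr4.trans hr3)) ?_
    · rw [mem_singleton_iff.1 h13]; exact h2.1
    · rw [h17]
      exact hS r4 r1 u e s (hr4.trans (hr3.trans hr2)) h1 h3
    · intro r5 hr5 h18
      exact h11 r5 (hr5.trans hr4) h18

/-- the named sets have size `κ` -/
theorem fullSize_BN (h0 : Inacc κ) {S : Cnd 𝔖 → KK κ → Set (KK κ)} (p : Cnd 𝔖)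
    (hsize : ∀ r ≤ p, ∀ e s, r.s = e :: s → (∀ y ∈ S r e.1, y < pt 8 e.1) ∧
      w 1 e.1 < #(S r e.1)) {E : Set ℕ} (hE : E.Infinite) : p ∈ HasFullSize (BN S E) := by
  refine fullSize_of h0 _ p fun ν hν q hq => ?_
  obtain ⟨b, hb⟩ := exists_pt hν
  obtain ⟨n, hn, hnq⟩ := hE.exists_gt q.s.length
  obtain ⟨r, hr, e, s, h1, h2, h3⟩ := ext_len h0 q hnq.le b
  obtain ⟨h4, h5⟩ := hsize r (hr.trans hq) e s h1
  refine ⟨r, hr, [], e, s, h1, ?_, S r e.1, fun y hy => ⟨h4 y hy, meets_of_mem ?_⟩, h5⟩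
  · rw [← hb]
    exact (mk_le_mk_of_subset (Iio_subset_Iio h3.le)).trans (mk_Iio_le_w 1 _)
  · exact ⟨[], e, s, h1, by rw [h2]; exact hn, hy⟩

/-! ### The relation at `κ⁺⁺` -/

/-- the ground model sequences of sets used at `κ⁺⁺` -/
def Gs (κ : Cardinal.{0}) : Type :=
  {g : KK κ → Set (KK κ) // ∀ ξ, (∀ y ∈ g ξ, y < pt 8 ξ) ∧ w 7 ξ < #(g ξ)}

theorem mk_Gs_le (h0 : Inacc κ) (h2 : (2 : Cardinal.{0}) ^ κ = Order.succ κ) :
    #(Gs κ) ≤ Order.succ κ := by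
  refine (mk_subtype_le _).trans ?_
  rw [mk_arrow, lift_id, lift_id, mk_set, mk_KK, h2, succ_pow h0 h2]

theorem pres_const (g : KK κ → Set (KK κ)) : Pres (fun (_ : Cnd 𝔖) ξ => g ξ) :=
  fun _ _ _ _ _ _ _ => subset_rfl

theorem exists_g (h0 : Inacc κ) {φ : KK κ → Set (Cnd 𝔖)} (P : Prep φ) :
    ∃ g : Gs κ, ∀ ξ, ∀ t' ∈ LvB P.e P.t (pt 5 ξ), ∀ y ∈ g.1 ξ, ∀ y' ∈ g.1 ξ,
      P.val ξ t' y ⊆ P.val ξ t' y' := by
  have key : ∀ ξ, ∃ G : Set (KK κ), ((∀ y ∈ G, y < pt 8 ξ) ∧ w 7 ξ < #G) ∧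
      ∀ t' ∈ LvB P.e P.t (pt 5 ξ), ∀ y ∈ G, ∀ y' ∈ G, P.val ξ t' y ⊆ P.val ξ t' y' := by
    intro ξ
    have h1 : #(LvB P.e P.t (pt 5 ξ) → Set (ST ξ)) ≤ w 7 ξ := by
      rw [mk_arrow, lift_id, lift_id]
      refine w_power_le ?_ ?_
      · exact (w_mk_set_le (mk_ST_le h0 ξ)).trans (w_le (by norm_num) _)
      · refine (mk_LvB_le _ _ _).trans ?_
        rw [w_pt h0]
    obtain ⟨b, hb⟩ := pigeon (c := w 7 ξ) (aleph0_le_w 7 ξ)
      (fun y : Iio (pt 8 ξ) => (fun t' : LvB P.e P.t (pt 5 ξ) =>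
        (Subtype.val ⁻¹' (P.val ξ t'.1 y.1) : Set (ST ξ)))) h1
      (by rw [mk_Iio_pt h0]; exact w_lt (by norm_num) ξ)
    refine ⟨Subtype.val '' ((fun y : Iio (pt 8 ξ) => (fun t' : LvB P.e P.t (pt 5 ξ) =>
        (Subtype.val ⁻¹' (P.val ξ t'.1 y.1) : Set (ST ξ)))) ⁻¹' {b}), ⟨?_, ?_⟩, ?_⟩
    · rintro _ ⟨y, _, rfl⟩
      exact y.2
    · rw [mk_image_eq Subtype.val_injective]
      exact hb
    · rintro t' ht' _ ⟨y, hy, rfl⟩ _ ⟨y', hy', rfl⟩ s hs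
      have h2 := congrFun (hy.trans hy'.symm) ⟨t', ht'⟩
      simp only at h2
      have h3 := (Set.ext_iff.1 h2 ⟨s, P.val_subset _ _ _ hs⟩).1 hs
      exact h3
  choose G hG1 hG2 using key
  exact ⟨⟨G, hG1⟩, hG2⟩

theorem polarized_succ2 (h0 : Inacc κ) (h2 : (2 : Cardinal.{0}) ^ κ = Order.succ κ) (p : Cnd 𝔖) :
    p ∈ Polarized (Cnd 𝔖) (Order.succ (Order.succ κ)).ord.ToType κ.ord.ToType := by
  refine polarized_of (inf_succ2 h0) (fun q => staysRegular_above h0 h2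
    (isRegular_succ (inf_succ h0)) ((Order.lt_succ κ).trans (Order.lt_succ _)) q) p ?_
  intro c q _
  refine ⟨q, le_rfl, Gs κ × {E : Set ℕ // E.Infinite} × Bool,
    fun τ => BN (fun _ ξ => τ.1.1 ξ) τ.2.1.1, fun τ => τ.2.2, ?_, fun τ => ?_, ?_⟩
  · refine lt_of_le_of_lt ?_ (Order.lt_succ (Order.succ κ))
    rw [mk_prod, mk_prod]
    simp only [lift_id]
    refine (mul_le_mul' (mk_Gs_le h0 h2) ((?_ : _ ≤ Order.succ κ))).trans
      (mul_eq_self (inf_succ h0)).le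
    refine (mul_le_mul' (?_ : _ ≤ Order.succ κ) (?_ : _ ≤ Order.succ κ)).trans
      (mul_eq_self (inf_succ h0)).le
    · refine (mk_subtype_le _).trans ?_
      rw [mk_set, mk_nat]
      exact (h0.lim _ h0.unc).le.trans (Order.le_succ κ)
    · exact (mk_le_aleph0 (α := Bool)).trans (inf_succ h0)
  · refine fullSize_BN h0 q (fun r _ e s _ => ⟨(τ.1.2 e.1).1, ?_⟩) τ.2.1.2
    exact (w_lt (by norm_num) _).trans (τ.1.2 e.1).2
  · intro r _ α
    obtain ⟨P, hP⟩ := exists_prep h0 (fun b => meets (c α b)) (fun b => down_meets _)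
      (fun b => en_Reg_meets _) r.t r.ht
    obtain ⟨g, hg⟩ := exists_g h0 P
    obtain ⟨q1, hq1s, hq1t, hq1A⟩ : ∃ q1 : Cnd 𝔖, q1.s = r.s ∧ q1.t = P.t ∧ q1.A = r.A ∩ P.A :=
      ⟨⟨r.s, P.t, r.A ∩ P.A, r.wf, P.ht, Filter.inter_mem r.hA P.hA⟩, rfl, rfl, rfl⟩
    have hq1 : q1 ≤ r := by
      refine DLe.le ⟨?_, ?_, ?_⟩
      · rw [hq1s]; exact sLe.refl _
      · rw [hq1t]; exact hP
      · rw [hq1A]; exact inter_subset_left
    obtain ⟨r', hr', E, hE, b, h1⟩ := exists_hom h0 (pres_const g.1) (fun b => c α b) q1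
      q1.s.length (fun r2 hr2 u e s hs hn y hy y' hy' h3 h4 => by
        obtain ⟨xs, hxs⟩ := hr2
        obtain ⟨ys, x, zs, h5, h6, h7⟩ := exists_thr h0 P (by rw [hq1t]; exact PSub.refl _)
          (by rw [hq1A]; exact inter_subset_right) (leBy_self q1) hxs hs hn
        exact transfer h0 (fun b => down_meets _) (fun b => down_meets _) h7 h7
          ((g.2 e.1).1 y hy) ((g.2 e.1).1 y' hy') (hg e.1 _ (h7.lvB h0) y hy y' hy') h3 h4)
    exact ⟨r', hr'.trans hq1, (g, ⟨E, hE⟩, b), h1⟩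

/-! ### The relation at `κ⁺` -/

/-- the sets given by the value of the partial function at `a` -/
def Sa (a : II κ) (r : Cnd 𝔖) (ξ : KK κ) : Set (KK κ) :=
  {y | ∃ f, r.t a = some f ∧ y ∈ 𝔖.B1 ξ (f ξ)}

theorem addt_val (xs : List 𝔖.X) {t : TT κ} {a : II κ} {f : KK κ → KK κ} (h : t a = some f) :
    ∃ f', addt 𝔖 xs t a = some f' ∧ ∀ ξ, (∀ x ∈ xs, 𝔖.kap x ≠ ξ) → f' ξ = f ξ := by
  induction xs with
  | nil => exact ⟨f, h, fun _ _ => rfl⟩
  | cons x xs ih =>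
    obtain ⟨f', h1, h2⟩ := ih
    by_cases ha : a ∈ 𝔖.mem x
    · refine ⟨Function.update f' (𝔖.kap x) (𝔖.sv a x), ?_, fun ξ hξ => ?_⟩
      · rw [addt_cons, upd_eq_some]
        exact ⟨f', h1, Or.inl ⟨ha, rfl⟩⟩
      · rw [Function.update_of_ne (hξ x List.mem_cons_self).symm]
        exact h2 ξ fun y hy => hξ y (List.mem_cons_of_mem _ hy)
    · refine ⟨f', ?_, fun ξ hξ => h2 ξ fun y hy => hξ y (List.mem_cons_of_mem _ hy)⟩
      rw [addt_cons, upd_eq_some]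
      exact ⟨f', h1, Or.inr ⟨ha, rfl⟩⟩

theorem kap_ne_of_mem (h0 : Inacc κ) {ys : List 𝔖.X} {u : Stem κ} {e : Ent κ} {s : Stem κ}
    (hw : WF (u ++ e :: s)) (hu : sLe u (ys.map (bas 𝔖))) : ∀ y ∈ ys, 𝔖.kap y ≠ e.1 := by
  intro y hy
  obtain ⟨i, hi, v', h1, h2⟩ := bound_of_mem h0 hw (hu.append (sLe.refl (e :: s))) hy
  have h3 := (SB_cons.1 (h2.of_sLe h1)).1.1
  exact ((lt_pt h0 (by norm_num) e.1).trans_le (h3.trans hi.le)).ne'

theorem pres_Sa (h0 : Inacc κ) (a : II κ) : Pres (Sa (𝔖 := 𝔖) a) := by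
  rintro r' r u e s hr' hs y ⟨f, h1, h2⟩
  obtain ⟨xs, u', e', s', h3⟩ := le_decomp hr' hs
  obtain ⟨f', h4, h5⟩ := addt_val (𝔖 := 𝔖) xs h1
  refine ⟨f', h3.ht a f' h4, ?_⟩
  rw [h5 e.1]
  · exact h2
  · intro x hx
    have hw : WF (u' ++ e' :: s') := h3.hs ▸ r'.wf
    obtain ⟨i, hi, v', h6, h7⟩ := bound_of_mem (𝔖 := 𝔖) (ys := xs) (v := u ++ e :: s) h0 hw (by
      rw [← List.append_assoc]
      exact h3.hu.append (List.Forall₂.cons h3.he h3.hl)) hx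
    have h8 := (SB_cons.1 (SB_append.1 (h7.of_sLe h6)).2).1.1
    exact ((lt_pt h0 (by norm_num) e.1).trans_le (h8.trans hi.le)).ne'

theorem exists_code (h0 : Inacc κ) : ∃ cd : KK κ → Set (Stem κ) → KK κ,
    (∀ ξ V, cd ξ V < pt 2 ξ) ∧ ∀ ξ V V', V ⊆ ST ξ → V' ⊆ ST ξ → cd ξ V = cd ξ V' → V = V' := by
  have h1 : ∀ ξ : KK κ, Nonempty (Set (ST ξ) ↪ Iio (pt 2 ξ)) := by
    intro ξ
    rw [← Cardinal.le_def, mk_Iio_pt h0]
    exact w_mk_set_le (mk_ST_le h0 ξ)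
  obtain ⟨j⟩ : Nonempty (∀ ξ : KK κ, Set (ST ξ) ↪ Iio (pt 2 ξ)) := ⟨fun ξ => (h1 ξ).some⟩
  refine ⟨fun ξ V => (j ξ (Subtype.val ⁻¹' V)).1, fun ξ V => (j ξ (Subtype.val ⁻¹' V)).2,
    fun ξ V V' hV hV' h => ?_⟩
  have h2 := (j ξ).injective (Subtype.ext h)
  ext s
  constructor
  · intro hs
    exact (Set.ext_iff.1 h2 ⟨s, hV hs⟩).1 hs
  · intro hs
    exact (Set.ext_iff.1 h2 ⟨s, hV' hs⟩).2 hs

theorem exists_lv (h0 : Inacc κ) (e : KK κ → II κ) (t : TT κ) : ∃ L : KK κ → KK κ → TT κ,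
    ∀ i, ∀ t' ∈ LvB e t i, ∃ δ < pt 1 i, L i δ = t' := by
  classical
  have h1 : ∀ i : KK κ, Nonempty (LvB e t i ↪ Iio (pt 1 i)) := by
    intro i
    rw [← Cardinal.le_def, mk_Iio_pt h0]
    exact mk_LvB_le e t i
  obtain ⟨j⟩ : Nonempty (∀ i : KK κ, LvB e t i ↪ Iio (pt 1 i)) := ⟨fun i => (h1 i).some⟩
  refine ⟨fun i δ => if h : ∃ t' : LvB e t i, (j i t').1 = δ then h.choose.1 else t,
    fun i t' ht' => ⟨(j i ⟨t', ht'⟩).1, (j i ⟨t', ht'⟩).2, ?_⟩⟩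
  have h2 : ∃ t'' : LvB e t i, (j i t'').1 = (j i ⟨t', ht'⟩).1 := ⟨_, rfl⟩
  simp only
  rw [dif_pos h2]
  have h3 := (j i).injective (Subtype.ext h2.choose_spec)
  rw [h3]

/-- homogeneity of the sets attached to the points -/
theorem hom_capture (h0 : Inacc κ) {φ : KK κ → Set (Cnd 𝔖)} (P : Prep φ) (a : II κ)
    (ha : ∀ i, P.e i < a) : ∃ A ∈ 𝔖.W, ∀ x ∈ A, a ∈ 𝔖.mem x ∧ ∀ t1, (∃ i < 𝔖.kap x,
      t1 ∈ LvB P.e P.t i) → ∀ y ∈ 𝔖.B1 (𝔖.kap x) (𝔖.sv a x), ∀ y' ∈ 𝔖.B1 (𝔖.kap x) (𝔖.sv a x),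
        P.val (𝔖.kap x) (upd 𝔖 x t1) y ⊆ P.val (𝔖.kap x) (upd 𝔖 x t1) y' := by
  classical
  obtain ⟨cd, hcd1, hcd2⟩ := exists_code h0
  obtain ⟨L, hL⟩ := exists_lv h0 P.e P.t
  obtain ⟨T, hT⟩ : ∃ T : KK κ → KK κ → KK κ → (KK κ → KK κ) → TT κ, T = fun γ δ ξ v b =>
      if h : ∃ j < ξ, P.e j = b then (L γ δ b).map (fun f => Function.update f ξ (v h.choose))
      else L γ δ b := ⟨_, rfl⟩
  have hcap := 𝔖.capture P.e a ha (fun γ δ ξ v b => cd ξ (P.val ξ (T γ δ ξ v) b))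
    (fun γ δ ξ v b => hcd1 _ _)
  have hn1 := 𝔖.normal (fun i => {x | pt 1 i < 𝔖.kap x}) (fun i => 𝔖.fineK _)
  have hn2 := 𝔖.normal (fun i => {x | P.e i ∈ 𝔖.mem x}) (fun i => 𝔖.fineI _)
  refine ⟨_, Filter.inter_mem hcap (Filter.inter_mem (Filter.inter_mem hn1 hn2)
    (Filter.inter_mem (𝔖.fineI a) (Cv_mem 𝔖 P.e))), ?_⟩
  rintro x ⟨hx1, ⟨hx2, hx3⟩, hx4, hx5⟩
  refine ⟨hx4, ?_⟩
  rintro t1 ⟨i, hi, ht1⟩ y hy y' hy'
  obtain ⟨δ, hδ, hLδ⟩ := hL i t1 ht1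
  have h1 := hx1 i hi δ (hδ.trans (hx2 i hi)) y hy y' hy'
  have h2 : T i δ (𝔖.kap x) (fun i => if i < 𝔖.kap x then 𝔖.sv (P.e i) x else i) =
      upd 𝔖 x t1 := by
    rw [hT]
    funext b
    simp only
    unfold upd
    rw [hLδ]
    by_cases hb : ∃ j < 𝔖.kap x, P.e j = b
    · rw [dif_pos hb]
      have hb1 := hb.choose_spec
      have hbm : b ∈ 𝔖.mem x := by
        rw [← hb1.2]
        exact hx3 _ hb1.1
      rw [if_pos hbm, if_pos hb1.1, hb1.2]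
    · rw [dif_neg hb]
      by_cases hbm : b ∈ 𝔖.mem x
      · rw [if_pos hbm]
        have hbe : t1 b = none := by
          by_contra hne
          have hbd : b ∈ dm t1 := hne
          rw [ht1.1] at hbd
          exact hb (hx5 b hbm (P.he hbd))
        rw [hbe]; rfl
      · rw [if_neg hbm]
  rw [h2] at h1
  exact (hcd2 _ _ _ (P.val_subset _ _ _) (P.val_subset _ _ _) h1).subset

theorem polarized_succ (h0 : Inacc κ) (h2 : (2 : Cardinal.{0}) ^ κ = Order.succ κ) (p : Cnd 𝔖) :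
    p ∈ Polarized (Cnd 𝔖) (Order.succ κ).ord.ToType κ.ord.ToType := by
  classical
  refine polarized_of (inf_succ h0) (fun q => staysRegular_above h0 h2
    (isRegular_succ h0.inf) (Order.lt_succ κ) q) p ?_
  intro c q _
  -- the antichains
  have hD : ∀ α : (Order.succ κ).ord.ToType, ∀ q : Cnd 𝔖, ∃ r ≤ q,
      r ∈ {r : Cnd 𝔖 | ∃ P : Prep (𝔖 := 𝔖) (fun b => meets (c α b)), PSub P.t r.t ∧ r.A ⊆ P.A} := by
    intro α q
    obtain ⟨P, hP⟩ := exists_prep h0 (fun b => meets (c α b)) (fun b => down_meets _)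
      (fun b => en_Reg_meets _) q.t q.ht
    exact ⟨⟨q.s, P.t, q.A ∩ P.A, q.wf, P.ht, Filter.inter_mem q.hA P.hA⟩,
      DLe.le ⟨sLe.refl _, hP, inter_subset_left⟩, P, PSub.refl _, inter_subset_right⟩
  choose M hM1 hM2 hM3 using fun α => en_antichain _ (hD α)
  have hMk : ∀ α, #(M α) ≤ Order.succ κ := by
    intro α
    by_contra hcon
    obtain ⟨i, j, hij, r, hr1, hr2⟩ := chain_condition h0 h2 𝔖 (M α) (fun m => m.1)
      (not_le.1 hcon)
    exact hij (Subtype.ext (hM2 α i.1 i.2 j.1 j.2 r hr1 hr2))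
  choose P hP1 hP2 using fun (α : (Order.succ κ).ord.ToType) (m : M α) => hM1 α m.2
  have hbig : #((⋃ α, ⋃ m : M α, range (P α m).e) ∪ dm q.t : Set (II κ)) ≤ Order.succ κ := by
    refine (mk_union_le _ _).trans ?_
    refine (add_le_add ?_ (q.ht.trans (Order.le_succ κ))).trans (add_eq_self (inf_succ h0)).le
    refine (mk_iUnion_le _).trans ?_
    rw [mk_ord_toType]
    refine (mul_le_mul' le_rfl (ciSup_le' fun α => ?_)).trans (mul_eq_self (inf_succ h0)).le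
    refine (mk_iUnion_le _).trans ?_
    refine (mul_le_mul' (hMk α) (ciSup_le' fun m => ?_)).trans (mul_eq_self (inf_succ h0)).le
    refine mk_range_le.trans ?_
    rw [mk_KK]; exact Order.le_succ κ
  obtain ⟨a, ha⟩ := bddI h0 hbig
  have ha1 : ∀ α (m : M α) i, (P α m).e i < a := fun α m i =>
    ha _ (Or.inl (mem_iUnion.2 ⟨α, mem_iUnion.2 ⟨m, i, rfl⟩⟩))
  have ha2 : q.t a = none := by
    by_contra hne
    exact absurd (ha a (Or.inr hne)) (lt_irrefl _)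
  obtain ⟨q0, hq0s, hq0t, hq0A⟩ : ∃ q0 : Cnd 𝔖, q0.s = q.s ∧
      q0.t = Function.update q.t a (some fun i => i) ∧ q0.A = q.A := by
    refine ⟨⟨q.s, Function.update q.t a (some fun i => i), q.A, q.wf, ?_, q.hA⟩, rfl, rfl, rfl⟩
    have h1 : dm (Function.update q.t a (some fun i => i)) ⊆ insert a (dm q.t) := by
      intro b hb
      by_cases hab : b = a
      · exact Or.inl hab
      · right
        rw [mem_dm, Function.update_of_ne hab] at hb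
        exact hb
    refine (mk_le_mk_of_subset h1).trans (mk_insert_le.trans ?_)
    exact (add_le_add q.ht (one_lt_aleph0.le.trans h0.inf)).trans (add_eq_self h0.inf).le
  have hq0 : q0 ≤ q := by
    refine DLe.le ⟨?_, ?_, ?_⟩
    · rw [hq0s]; exact sLe.refl _
    · rw [hq0t]
      intro b f hbf
      by_cases hab : b = a
      · rw [hab, ha2] at hbf
        exact absurd hbf (by simp)
      · rw [Function.update_of_ne hab]; exact hbf
    · rw [hq0A]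
  have hta : ∀ r ≤ q0, ∃ f, r.t a = some f := by
    rintro r ⟨xs, hxs⟩
    obtain ⟨f, h1, -⟩ := addt_val (𝔖 := 𝔖) xs (t := q0.t) (a := a) (f := fun i => i)
      (by rw [hq0t, Function.update_self])
    exact ⟨f, hxs.2.2.1 a f h1⟩
  refine ⟨q0, hq0, {E : Set ℕ // E.Infinite} × Bool, fun τ => BN (Sa a) τ.1.1, fun τ => τ.2,
    ?_, fun τ => ?_, ?_⟩
  · rw [mk_prod]
    simp only [lift_id]
    refine mul_lt_of_lt (inf_succ h0) ?_ ?_
    · refine (mk_subtype_le _).trans_lt ?_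
      rw [mk_set, mk_nat]
      exact (h0.lim _ h0.unc).trans (Order.lt_succ κ)
    · exact (mk_le_aleph0 (α := Bool)).trans_lt (h0.unc.trans (Order.lt_succ κ))
  · refine fullSize_BN h0 q0 (fun r hr e s _ => ?_) τ.1.2
    obtain ⟨f, hf⟩ := hta r hr
    refine ⟨?_, ?_⟩
    · rintro y ⟨f', _, h1⟩
      exact (𝔖.B1_lt _ _ y h1).trans (pt_lt_pt h0 (by norm_num) _)
    · refine ((w_lt (by norm_num : 1 < 3) e.1).trans (𝔖.B1_card e.1 (f e.1))).trans_le ?_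
      exact mk_le_mk_of_subset fun y hy => ⟨f, hf, hy⟩
  · intro r hr α
    obtain ⟨m, hm, r1, hr1, hr1m⟩ := hM3 α r
    obtain ⟨A, hAW, hA⟩ := hom_capture h0 (P α ⟨m, hm⟩) a (ha1 α ⟨m, hm⟩)
    obtain ⟨xs1, hxs1⟩ := hr1m
    have hr2 : r1.shrink A hAW ≤ r1 := (r1.shrink_le A hAW).le
    have hxs2 : LeBy xs1 (r1.shrink A hAW) m := by
      have := (leBy_nil.2 (r1.shrink_le A hAW)).trans hxs1
      simpa using this
    obtain ⟨r', hr', E, hE, b, h1⟩ := exists_hom h0 (pres_Sa (𝔖 := 𝔖) h0 a) (fun b => c α b)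
      (r1.shrink A hAW) (r1.shrink A hAW).s.length (fun r3 hr3 u e s hs hn y hy y' hy' h3 h4 => by
        obtain ⟨xs, hxs⟩ := hr3
        obtain ⟨ys, x, zs, h5, h6, h7⟩ := exists_thr h0 (P α ⟨m, hm⟩) (hP1 α ⟨m, hm⟩)
          (hP2 α ⟨m, hm⟩) hxs2 hxs hs hn
        have hxA : x ∈ A := (hxs.1 x (by rw [h5]; simp)).2
        obtain ⟨hxa, hhom⟩ := hA x hxA
        -- the value at the point
        obtain ⟨f0, hf0⟩ := hta (r1.shrink A hAW) (hr2.trans (hr1.trans hr))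
        obtain ⟨f1, hf1, -⟩ := addt_val (𝔖 := 𝔖) zs hf0
        have hf2 : addt 𝔖 (x :: zs) (r1.shrink A hAW).t a =
            some (Function.update f1 (𝔖.kap x) (𝔖.sv a x)) := by
          rw [addt_cons, upd_eq_some]
          exact ⟨f1, hf1, Or.inl ⟨hxa, rfl⟩⟩
        obtain ⟨f3, hf3, hf4⟩ := addt_val (𝔖 := 𝔖) ys hf2
        have hf5 : r3.t a = some f3 := by
          apply hxs.2.2.1
          rw [h5, addt_append]
          exact hf3
        have hke : e.1 = 𝔖.kap x := h7.kap_eq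
        have hf6 : f3 e.1 = 𝔖.sv a x := by
          rw [hf4 e.1 (kap_ne_of_mem h0 (hs ▸ r3.wf) h6), hke, Function.update_self]
        have hB : ∀ y ∈ Sa (𝔖 := 𝔖) a r3 e.1, y ∈ 𝔖.B1 (𝔖.kap x) (𝔖.sv a x) := by
          rintro y ⟨f, h8, h9⟩
          rw [hf5, Option.some.injEq] at h8
          rw [← h8, hf6, hke] at h9
          exact h9
        have hlt : ∀ y ∈ Sa (𝔖 := 𝔖) a r3 e.1, y < pt 8 e.1 := by
          intro y hy
          rw [hke]
          exact (𝔖.B1_lt _ _ y (hB y hy)).trans (pt_lt_pt h0 (by norm_num) _)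
        refine transfer h0 (fun b => down_meets _) (fun b => down_meets _) h7 h7 (hlt y hy)
          (hlt y' hy') ?_ h3 h4
        rw [hke]
        refine hhom _ ?_ y (hB y hy) y' (hB y' hy')
        obtain ⟨i, hi, h8⟩ := h7.wf.2.2.1
        exact ⟨i, hke ▸ hi, h7.lv i h8⟩)
    exact ⟨r', hr'.trans (hr2.trans hr1), (⟨E, hE⟩, b), h1⟩

/-- **the full spectrum** -/
theorem full_spectrum (h0 : Inacc κ) (h2 : (2 : Cardinal.{0}) ^ κ = Order.succ κ) (p : Cnd 𝔖)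
    {μ : Cardinal.{0}} (hμ : κ < μ) :
    p ∈ fimp (LeTwoPow (Cnd 𝔖) μ κ) (Polarized (Cnd 𝔖) μ.ord.ToType κ.ord.ToType) := by
  rw [mem_fimp]
  intro q _ hq
  refine ⟨q, le_rfl, ?_⟩
  by_cases h : Order.succ (Order.succ κ) < μ
  · exact absurd hq (not_leTwoPow h0 h2 h q)
  · rw [not_lt] at h
    rcases h.eq_or_lt with h | h
    · rw [h]; exact polarized_succ2 h0 h2 q
    · have h3 : μ = Order.succ κ :=
        le_antisymm (Order.lt_succ_iff.1 h) (Order.succ_le_iff.2 hμ)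
      rw [h3]; exact polarized_succ h0 h2 q

end

end Run7.h699
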