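import Mathlib
import Pool.Agent.Run7.h699.Pol

set_option autoImplicit false

/-!
# There are `κ⁺⁺` subsets of `κ` in the extension
-/

namespace Run7.h699

open Cardinal Set Pool.Agent.Helper669.K Pool.Agent.Helper669.Forcing

section

variable {κ : Cardinal.{0}} {𝔖 : Setup κ}

/-- different coordinates get different values -/
theorem sv_ne (h0 : Inacc κ) {a a' : II κ} (h : a < a') :
    {x | 𝔖.sv a x ≠ 𝔖.sv a' x} ∈ 𝔖.W := by
  classical
  obtain ⟨c0⟩ := h0.nonempty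
  have hne : ∀ ξ g : KK κ, ∃ m, m ∈ 𝔖.B1 ξ g := by
    intro ξ g
    have h1 : #(𝔖.B1 ξ g) ≠ 0 := (zero_le.trans_lt (𝔖.B1_card ξ g)).ne'
    obtain ⟨m⟩ := mk_ne_zero_iff.1 h1
    exact ⟨m.1, m.2⟩
  choose m hm using hne
  have h1 := 𝔖.capture (fun _ => a) a' (fun _ => h)
    (fun _ _ ξ v b => if b = m ξ (v c0) then ξ else pt 1 ξ) (fun _ _ ξ v b => by
      split_ifs
      · exact lt_pt h0 (by norm_num) ξ
      · exact pt_lt_pt h0 (by norm_num) ξ)
  refine Filter.mem_of_superset (Filter.inter_mem h1 (𝔖.fineK c0)) ?_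
  rintro x ⟨hx1, hx2⟩ heq
  have hx2' : c0 < 𝔖.kap x := hx2
  have h2 : ∃ b ∈ 𝔖.B1 (𝔖.kap x) (𝔖.sv a' x), b ≠ m (𝔖.kap x) (𝔖.sv a' x) := by
    by_contra hcon
    push Not at hcon
    have h3 : #(𝔖.B1 (𝔖.kap x) (𝔖.sv a' x)) ≤ 1 := by
      rw [← mk_singleton (m (𝔖.kap x) (𝔖.sv a' x))]
      exact mk_le_mk_of_subset hcon
    exact absurd ((𝔖.B1_card (𝔖.kap x) (𝔖.sv a' x)).trans_le h3)
      (not_lt.2 (one_le_w 3 _))
  obtain ⟨b, hb, hbne⟩ := h2
  have h3 := hx1 c0 hx2' c0 hx2' b hb (m (𝔖.kap x) (𝔖.sv a' x)) (hm _ _)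
  simp only [if_pos hx2', heq] at h3
  rw [if_neg hbne, if_pos trivial] at h3
  exact absurd h3 (lt_pt h0 (by norm_num) _).ne'

/-- the value at a point stays -/
theorem val_stays (h0 : Inacc κ) {q r : Cnd 𝔖} {u : Stem κ} {e : Ent κ} {s : Stem κ}
    (hrq : r ≤ q) (hq : q.s = u ++ e :: s) {a : II κ} {f f' : KK κ → KK κ}
    (hf : q.t a = some f) (hf' : r.t a = some f') : f' e.1 = f e.1 := by
  obtain ⟨xs, u', e', s', h3⟩ := le_decomp hrq hq
  obtain ⟨f'', h4, h5⟩ := addt_val (𝔖 := 𝔖) xs hf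
  have h6 := h3.ht a f'' h4
  rw [hf', Option.some.injEq] at h6
  rw [h6, h5 e.1]
  intro x hx
  have hw : WF (u' ++ e' :: s') := h3.hs ▸ r.wf
  obtain ⟨i, hi, v', h7, h8⟩ := bound_of_mem (𝔖 := 𝔖) (ys := xs) (v := u ++ e :: s) h0 hw (by
    rw [← List.append_assoc]
    exact h3.hu.append (List.Forall₂.cons h3.he h3.hl)) hx
  have h9 := (SB_cons.1 (SB_append.1 (h8.of_sLe h7)).2).1.1
  exact ((lt_pt h0 (by norm_num) e.1).trans_le (h9.trans hi.le)).ne'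

/-- adding a coordinate -/
theorem ext_coord (h0 : Inacc κ) (q : Cnd 𝔖) (a : II κ) :
    ∃ r, DLe r q ∧ ∃ f, r.t a = some f := by
  classical
  by_cases ha : q.t a = none
  · refine ⟨⟨q.s, Function.update q.t a (some fun i => i), q.A, q.wf, ?_, q.hA⟩,
      ⟨sLe.refl _, fun b f hbf => ?_, subset_rfl⟩, fun i => i, by simp⟩
    · have h1 : dm (Function.update q.t a (some fun i => i)) ⊆ insert a (dm q.t) := by
        intro b hb
        by_cases hab : b = a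
        · exact Or.inl hab
        · right
          rw [mem_dm, Function.update_of_ne hab] at hb
          exact hb
      refine (mk_le_mk_of_subset h1).trans (mk_insert_le.trans ?_)
      exact (add_le_add q.ht (one_lt_aleph0.le.trans h0.inf)).trans (add_eq_self h0.inf).le
    · by_cases hab : b = a
      · rw [hab, ha] at hbf
        exact absurd hbf (by simp)
      · show Function.update q.t a (some fun i => i) b = some f
        rw [Function.update_of_ne hab]; exact hbf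
  · obtain ⟨f, hf⟩ := Option.ne_none_iff_exists'.1 ha
    exact ⟨q, DLe.refl q, f, hf⟩

theorem leTwoPow_succ2 (h0 : Inacc κ) (p : Cnd 𝔖) :
    p ∈ LeTwoPow (Cnd 𝔖) (Order.succ (Order.succ κ)) κ := by
  classical
  obtain ⟨π⟩ : Nonempty (KK κ × KK κ ↪ KK κ) := by
    rw [← Cardinal.le_def, mk_prod, lift_id, mk_KK, mul_eq_self h0.inf]
  obtain ⟨F, hF⟩ : ∃ F : II κ → KK κ → Set (Cnd 𝔖), F = fun a y =>
      {r | ∃ u e s f, r.s = u ++ e :: s ∧ r.t a = some f ∧ y = π (e.1, f e.1)} := ⟨_, rfl⟩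
  have hdm : ∀ {r r' : Cnd 𝔖} {a : II κ}, r' ≤ r → (∃ f, r.t a = some f) →
      ∃ f, r'.t a = some f := by
    rintro r r' a ⟨xs, hxs⟩ ⟨f, hf⟩
    obtain ⟨f', h4, -⟩ := addt_val (𝔖 := 𝔖) xs hf
    exact ⟨f', hxs.2.2.1 a f' h4⟩
  have hFd : ∀ a y, Down (F a y) := by
    intro a y r hr r' hr'
    rw [hF] at hr ⊢
    obtain ⟨u, e, s, f, h1, h2, h3⟩ := hr
    obtain ⟨xs, u', e', s', h4⟩ := le_decomp hr' h1
    obtain ⟨f', hf'⟩ := hdm hr' ⟨f, h2⟩
    refine ⟨u', e', s', f', h4.hs, hf', ?_⟩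
    rw [h4.he.1, val_stays h0 hr' h1 h2 hf', h3]
  -- one direction suffices
  have key : ∀ a a' : II κ, {x | 𝔖.sv a x ≠ 𝔖.sv a' x} ∈ 𝔖.W → ∀ q : Cnd 𝔖,
      ¬ ∀ y, q ∈ fimp (meets (F a y)) (meets (F a' y)) := by
    intro a a' hne q hq
    obtain ⟨q1, hq1, f1, hf1⟩ := ext_coord h0 q a
    obtain ⟨q2, hq2, f2, hf2⟩ := ext_coord h0 q1 a'
    obtain ⟨f3, hf3⟩ : ∃ f, q2.t a = some f := ⟨f1, hq2.2.1 a f1 hf1⟩
    obtain ⟨x, hx, hxB, hb⟩ := exists_point_above h0 q2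
      (Filter.inter_mem hne (Filter.inter_mem (𝔖.fineI a) (𝔖.fineI a')))
    obtain ⟨r, h1, h2, h3, -⟩ := exists_point_ext q2 x hx hb
    have hrq : r ≤ q := (show r ≤ q2 from ⟨_, h1⟩).trans (hq2.le.trans hq1.le)
    have hra : r.t a = some (Function.update f3 (𝔖.kap x) (𝔖.sv a x)) := by
      rw [h3, upd_eq_some]
      exact ⟨f3, hf3, Or.inl ⟨hxB.2.1, rfl⟩⟩
    have hra' : r.t a' = some (Function.update f2 (𝔖.kap x) (𝔖.sv a' x)) := by
      rw [h3, upd_eq_some]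
      exact ⟨f2, hf2, Or.inl ⟨hxB.2.2, rfl⟩⟩
    have h4 : r ∈ F a (π (𝔖.kap x, 𝔖.sv a x)) := by
      rw [hF]
      refine ⟨[], bas 𝔖 x, q2.s, _, h2, hra, ?_⟩
      show π (𝔖.kap x, 𝔖.sv a x) = π (𝔖.kap x, Function.update f3 (𝔖.kap x) (𝔖.sv a x) (𝔖.kap x))
      rw [Function.update_self]
    obtain ⟨r1, hr1, h5⟩ := mem_fimp.1 (hq (π (𝔖.kap x, 𝔖.sv a x))) r hrq (meets_of_mem h4)
    obtain ⟨r2, hr2, h6⟩ := exists_of_meets (hFd _ _) h5
    rw [hF] at h6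
    obtain ⟨u, e, s, f, h7, h8, h9⟩ := h6
    have h10 := π.injective h9
    simp only [Prod.mk.injEq] at h10
    have h11 := val_stays h0 (hr2.trans hr1) (u := []) (e := bas 𝔖 x) (s := q2.s) h2 hra' h8
    have h12 : (bas 𝔖 x).1 = 𝔖.kap x := rfl
    rw [h12, Function.update_self] at h11
    rw [← h10.1, h11] at h10
    exact hxB.1 h10.2
  refine mem_fex_of_mem F (down_fall fun x => down_fall fun y => down_fall fun _ => down_fnot _) ?_
  intro a a' hne q _ hq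
  rcases lt_or_gt_of_ne hne with h | h
  · exact key a a' (sv_ne h0 h) q fun y => (hq y).1
  · exact key a' a (sv_ne h0 h) q fun y => (hq y).2

end

end Run7.h699
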