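import Mathlib
import Pool.Agent.Run7.h699.Card

set_option autoImplicit false

/-!
# The combinatorial data from a normal fine measure
-/

namespace Run7.h699

open Cardinal Set Pool.Agent.Helper669.K Pool.Agent.Helper669.Forcing

section

/-- A normal fine measure, with the trace of a set on `κ`. -/
structure Msr (κ : Cardinal.{0}) where
  /-- the measure -/
  U : Ultrafilter (Set (II κ))
  /-- the trace on `κ` -/
  kap : Set (II κ) → KK κ
  fine : ∀ a, {x | a ∈ x} ∈ U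
  complete : ∀ ι : Type, #ι < κ → ∀ A : ι → Set (Set (II κ)), (∀ i, A i ∈ U) → (⋂ i, A i) ∈ U
  diag : ∀ F : II κ → Set (Set (II κ)), (∀ a, F a ∈ U) → {x | ∀ a ∈ x, x ∈ F a} ∈ U
  normal : ∀ F : KK κ → Set (Set (II κ)), (∀ i, F i ∈ U) → {x | ∀ i < kap x, x ∈ F i} ∈ U
  fineK : ∀ i, {x | i < kap x} ∈ U
  small : {x : Set (II κ) | #x < κ} ∈ U

variable {κ : Cardinal.{0}} (M : Msr κ)

theorem Msr.diagJ {A : Type} (j : A → II κ) (hj : Function.Injective j)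
    (F : A → Set (Set (II κ))) (hF : ∀ a, F a ∈ M.U) : {x | ∀ a, j a ∈ x → x ∈ F a} ∈ M.U := by
  have h1 : ∀ b : II κ, {x | ∀ a, j a = b → x ∈ F a} ∈ M.U := by
    intro b
    by_cases hb : ∃ a, j a = b
    · obtain ⟨a, rfl⟩ := hb
      refine Filter.mem_of_superset (hF a) fun x hx a' ha' => ?_
      rw [hj ha']; exact hx
    · push Not at hb
      refine Filter.mem_of_superset Filter.univ_mem fun x _ a' ha' => absurd ha' (hb a')
  refine Filter.mem_of_superset (M.diag _ h1) fun x hx a ha => hx (j a) ha a rfl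

theorem Msr.diagE {A : Type} (j : A → KK κ) (hj : Function.Injective j)
    (F : A → Set (Set (II κ))) (hF : ∀ a, F a ∈ M.U) :
    {x | ∀ a, j a < M.kap x → x ∈ F a} ∈ M.U := by
  have h1 : ∀ b : KK κ, {x | ∀ a, j a = b → x ∈ F a} ∈ M.U := by
    intro b
    by_cases hb : ∃ a, j a = b
    · obtain ⟨a, rfl⟩ := hb
      refine Filter.mem_of_superset (hF a) fun x hx a' ha' => ?_
      rw [hj ha']; exact hx
    · push Not at hb
      refine Filter.mem_of_superset Filter.univ_mem fun x _ a' ha' => absurd ha' (hb a')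
  refine Filter.mem_of_superset (M.normal _ h1) fun x hx a ha => hx (j a) ha a rfl

/-- regressive functions to `κ` are constant -/
theorem Msr.regressive (f : Set (II κ) → KK κ) (hf : {x | f x < M.kap x} ∈ M.U) :
    ∃ c, {x | f x = c} ∈ M.U := by
  by_contra hcon
  push Not at hcon
  have h1 : ∀ c, {x | f x ≠ c} ∈ M.U := fun c => Ultrafilter.compl_mem_iff_notMem.2 (hcon c)
  obtain ⟨x, hx1, hx2⟩ := M.U.nonempty_of_mem (Filter.inter_mem hf (M.normal _ h1))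
  exact hx2 (f x) hx1 rfl

theorem Msr.regpt (h0 : Inacc κ) : {x | RegPt (M.kap x)} ∈ M.U := by
  classical
  by_contra hcon
  rw [← Ultrafilter.compl_mem_iff_notMem] at hcon
  have hinf : {x | ℵ₀ ≤ #(Iio (M.kap x))} ∈ M.U := by
    obtain ⟨z⟩ := h0.nonempty
    refine Filter.mem_of_superset (M.fineK (pt 0 z)) fun x hx => ?_
    have h1 : #(Iio (pt 0 z)) = w 0 z := mk_Iio_pt h0 0 z
    show ℵ₀ ≤ #(Iio (M.kap x))
    refine (aleph0_le_w 0 z).trans ?_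
    rw [← h1]
    exact mk_le_mk_of_subset (Iio_subset_Iio (le_of_lt hx))
  -- the unbounded sets
  have hbad := Filter.inter_mem hcon hinf
  have h1 : ∀ x, ∃ (S : Set (KK κ)) (b : KK κ), x ∈ {x | RegPt (M.kap x)}ᶜ ∩
      {x | ℵ₀ ≤ #(Iio (M.kap x))} → (∀ z ∈ S, z < M.kap x) ∧ #(Iio b) = #S ∧ b < M.kap x ∧
        ∀ i < M.kap x, ∃ z ∈ S, i ≤ z := by
    intro x
    by_cases hx : x ∈ {x | RegPt (M.kap x)}ᶜ ∩ {x | ℵ₀ ≤ #(Iio (M.kap x))}
    · have h2 := hx.1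
      have h3 : ¬ RegPt (M.kap x) := h2
      unfold RegPt at h3
      push Not at h3
      obtain ⟨S, h4, h5, h6⟩ := h3 hx.2
      obtain ⟨b, hb⟩ := exists_pt (h5.trans (mk_Iio_KK _))
      exact ⟨S, b, fun _ => ⟨h4, hb, lt_of_mk_Iio_lt (hb ▸ h5), h6⟩⟩
    · obtain ⟨z⟩ := h0.nonempty
      exact ⟨∅, z, fun h => absurd h hx⟩
  choose S b hSb using h1
  obtain ⟨b0, hb0⟩ := M.regressive b (Filter.mem_of_superset hbad fun x hx => (hSb x hx).2.2.1)
  -- enumerations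
  have h2 : ∀ x, ∃ f : Iio b0 → KK κ, (x ∈ {x | RegPt (M.kap x)}ᶜ ∩
      {x | ℵ₀ ≤ #(Iio (M.kap x))} ∧ b x = b0) → S x ⊆ range f ∧ range f ⊆ S x := by
    intro x
    by_cases hx : x ∈ {x | RegPt (M.kap x)}ᶜ ∩ {x | ℵ₀ ≤ #(Iio (M.kap x))} ∧ b x = b0
    · have h3 := (hSb x hx.1).2.1
      rw [hx.2] at h3
      obtain ⟨ε⟩ := Cardinal.eq.1 h3
      refine ⟨fun i => (ε i).1, fun _ => ⟨fun z hz => ⟨ε.symm ⟨z, hz⟩, by simp⟩, ?_⟩⟩
      rintro _ ⟨i, rfl⟩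
      exact (ε i).2
    · obtain ⟨z⟩ := h0.nonempty
      exact ⟨fun _ => z, fun h => absurd h hx⟩
  choose f hf using h2
  have hbad2 := Filter.inter_mem hbad hb0
  have h3 : ∀ i : Iio b0, ∃ c, {x | f x i = c} ∈ M.U := fun i =>
    M.regressive (fun x => f x i) (Filter.mem_of_superset hbad2 fun x hx =>
      (hSb x hx.1).1 _ ((hf x hx).2 ⟨i, rfl⟩))
  choose c hc using h3
  have h4 := M.complete _ (mk_Iio_KK b0) _ hc
  obtain ⟨d, hd⟩ := h0.bdd_range (mk_Iio_KK b0) c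
  obtain ⟨x, ⟨hx1, hx2⟩, hx3⟩ := M.U.nonempty_of_mem
    (Filter.inter_mem (Filter.inter_mem hbad2 h4) (M.fineK d))
  obtain ⟨z, hz, hdz⟩ := (hSb x hx1.1).2.2.2 d hx3
  obtain ⟨i, hi⟩ := (hf x hx1).1 hz
  have h5 : f x i = c i := mem_iInter.1 hx2 i
  rw [h5] at hi
  exact absurd (hd i) (not_lt.2 (hi ▸ hdz))

/-- the size of the sets -/
theorem Msr.card (h0 : Inacc κ) (h2 : (2 : Cardinal.{0}) ^ κ = Order.succ κ) :
    {x : Set (II κ) | #x ≤ w 2 (M.kap x)} ∈ M.U := by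
  classical
  obtain ⟨jS⟩ : Nonempty (Set (KK κ) ↪ II κ) := by
    rw [← Cardinal.le_def, mk_set, mk_KK, h2, mk_II]
    exact Order.le_succ _
  obtain ⟨F⟩ : Nonempty (II κ ↪ Set (Set (KK κ))) := by
    rw [← Cardinal.le_def, mk_set, mk_set, mk_II, mk_KK, h2]
    exact Order.succ_le_of_lt (cantor _)
  have hY : ∀ a a' : II κ, ∃ Y : Set (KK κ), F a ≠ F a' → ¬ (Y ∈ F a ↔ Y ∈ F a') := by
    intro a a'
    by_cases h : F a = F a'
    · exact ⟨∅, fun h' => absurd h h'⟩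
    · by_contra hcon
      push Not at hcon
      exact h (Set.ext fun Y => (hcon Y).2)
  choose Y hY using hY
  have hδ : ∀ Z Z' : Set (KK κ), ∃ d : KK κ, Z ≠ Z' → ¬ (d ∈ Z ↔ d ∈ Z') := by
    intro Z Z'
    by_cases h : Z = Z'
    · obtain ⟨z⟩ := h0.nonempty
      exact ⟨z, fun h' => absurd h h'⟩
    · by_contra hcon
      push Not at hcon
      exact h (Set.ext fun d => (hcon d).2)
  choose δ hδ using hδ
  have h3 : {x | ∀ a ∈ x, ∀ a' ∈ x, jS (Y a a') ∈ x} ∈ M.U :=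
    M.diag _ fun a => M.diag _ fun a' => M.fine _
  have h4 : {x | ∀ Z, jS Z ∈ x → ∀ Z', jS Z' ∈ x → δ Z Z' < M.kap x} ∈ M.U :=
    M.diagJ _ jS.injective _ fun Z => M.diagJ _ jS.injective _ fun Z' => M.fineK _
  refine Filter.mem_of_superset (Filter.inter_mem h3 h4) fun x ⟨hx1, hx2⟩ => ?_
  have h5 : #(Set (Set (Iio (M.kap x)))) ≤ w 2 (M.kap x) := w_mk_set_le (w_mk_set_le (mk_Iio_le_w 0 _))
  refine le_trans (mk_le_of_injective (f := fun a : x => {Z : Set (Iio (M.kap x)) |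
    ∃ V, V ∈ F a.1 ∧ jS V ∈ x ∧ Z = Subtype.val ⁻¹' V}) ?_) h5
  have key : ∀ a ∈ x, ∀ a' ∈ x, ({Z : Set (Iio (M.kap x)) | ∃ V, V ∈ F a ∧ jS V ∈ x ∧
      Z = Subtype.val ⁻¹' V} ⊆ {Z : Set (Iio (M.kap x)) | ∃ V, V ∈ F a' ∧ jS V ∈ x ∧
      Z = Subtype.val ⁻¹' V}) → ∀ V, jS V ∈ x → V ∈ F a → V ∈ F a' := by
    intro a _ a' _ hsub V hV hVa
    obtain ⟨V', h6, h7, h8⟩ := hsub ⟨V, hVa, hV, rfl⟩
    have h9 : V = V' := by
      by_contra hne
      have h10 := hx2 V hV V' h7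
      exact hδ V V' hne (Set.ext_iff.1 h8 ⟨δ V V', h10⟩)
    rw [h9]; exact h6
  rintro ⟨a, ha⟩ ⟨a', ha'⟩ haa
  simp only at haa
  apply Subtype.ext
  by_contra hne
  have h6 : F a ≠ F a' := fun h => hne (F.injective h)
  refine hY a a' h6 ⟨fun h7 => ?_, fun h7 => ?_⟩
  · exact key a ha a' ha' haa.subset _ (hx1 a ha a' ha') h7
  · exact key a' ha' a ha haa.superset _ (hx1 a ha a' ha') h7

/-- comparable partial functions -/
def Cmp (c c' : CC κ) : Prop := PSub c c' ∨ PSub c' c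

theorem PCompat_of_Cmp {ι : Type} {F : ι → CC κ} (h : ∀ i j, Cmp (F i) (F j)) : PCompat F :=
  PCompat_of_directed fun i j => by
    rcases h i j with h1 | h1
    · exact ⟨j, h1, PSub.refl _⟩
    · exact ⟨i, PSub.refl _, h1⟩

/-- the number of the collapsing conditions -/
theorem mk_RRall (h0 : Inacc κ) : #{c : CC κ | ∃ ξ, c ∈ RR ξ} ≤ κ := by
  have h1 : #(KK κ × KK κ) ≤ κ := by
    rw [mk_prod, lift_id, mk_KK, mul_eq_self h0.inf]
  refine le_trans (mk_le_of_injective (f := fun c : {c : CC κ | ∃ ξ, c ∈ RR ξ} =>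
    (⟨{y | c.1 y.1 = some y.2}, ?_⟩ : {S : Set (KK κ × KK κ) // #S < κ})) ?_)
    (mk_small_subsets h0 h1)
  · obtain ⟨ξ, hξ⟩ := c.2
    refine lt_of_le_of_lt ?_ (hξ.1.trans_lt (w_lt_kappa h0 9 ξ))
    refine mk_le_of_injective (f := fun y : {y : KK κ × KK κ | c.1 y.1 = some y.2} =>
      (⟨y.1.1, mem_dm_iff.2 ⟨_, y.2⟩⟩ : dm c.1)) ?_
    rintro ⟨⟨a, g⟩, h⟩ ⟨⟨b, g'⟩, h'⟩ hab
    simp only [Subtype.mk.injEq] at hab
    subst hab
    simp only [mem_ofPred_eq] at h h'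
    rw [h, Option.some.injEq] at h'
    subst h'
    rfl
  · intro t t' htt
    simp only [Subtype.mk.injEq] at htt
    apply Subtype.ext
    apply PSub.antisymm
    · intro a b hab
      exact (Set.ext_iff.1 htt (a, b)).1 hab
    · intro a b hab
      exact (Set.ext_iff.1 htt (a, b)).2 hab

/-- the guiding sequence -/
theorem Msr.guides (h0 : Inacc κ) (h2 : (2 : Cardinal.{0}) ^ κ = Order.succ κ) :
    ∃ C : (Order.succ κ).ord.ToType → KK κ → CC κ, (∀ b ξ, C b ξ ∈ RR ξ) ∧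
      (∀ b b', {x | Cmp (C b (M.kap x)) (C b' (M.kap x))} ∈ M.U) ∧
      ∀ D : KK κ → Set (CC κ), (∀ ξ, ∀ c ∈ RR ξ, ∃ c' ∈ RR ξ, PSub c c' ∧ c' ∈ D ξ) →
        ∃ b, ∀ ξ, C b ξ ∈ D ξ := by
  classical
  obtain ⟨z0⟩ := h0.nonempty
  have hJ : #((Order.succ κ).ord.ToType) = Order.succ κ := mk_ord_toType _
  have hne : Nonempty (Order.succ κ).ord.ToType := by
    rw [← mk_ne_zero_iff, hJ]
    exact (zero_le.trans_lt (Order.lt_succ _)).ne'
  -- the enumeration of the dense sets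
  have h3 : #(KK κ → Set {c : CC κ | ∃ ξ, c ∈ RR ξ}) ≤ #((Order.succ κ).ord.ToType) := by
    rw [mk_arrow, lift_id, lift_id, mk_KK, mk_set, hJ]
    refine (power_le_power_right (power_le_power_left two_ne_zero (mk_RRall h0))).trans ?_
    rw [h2, succ_pow h0 h2]
  obtain ⟨j⟩ := (Cardinal.le_def _ _).1 h3
  obtain ⟨Df, hDf⟩ : ∃ Df : (Order.succ κ).ord.ToType → KK κ → Set {c : CC κ | ∃ ξ, c ∈ RR ξ},
      ∀ D, Df (j D) = D := ⟨Function.invFun j, Function.leftInverse_invFun j.injective⟩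
  obtain ⟨P, hP⟩ : ∃ P : (Order.succ κ).ord.ToType → ((Order.succ κ).ord.ToType → KK κ → CC κ) →
      (KK κ → CC κ) → Prop, P = fun b f c => (∀ ξ, c ξ ∈ RR ξ) ∧
        (∀ b' < b, {x | PSub (f b' (M.kap x)) (c (M.kap x))} ∈ M.U) ∧
        ∀ ξ, (∀ u ∈ RR ξ, ∃ c' ∈ RR ξ, PSub u c' ∧ ∃ h, (⟨c', h⟩ :
          {c : CC κ | ∃ ξ, c ∈ RR ξ}) ∈ Df b ξ) → ∃ h, (⟨c ξ, h⟩ :
          {c : CC κ | ∃ ξ, c ∈ RR ξ}) ∈ Df b ξ := ⟨_, rfl⟩
  obtain ⟨C, hC⟩ := Pool.Agent.Helper669.KDelta.rec_choice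
    (ι := (Order.succ κ).ord.ToType) (β := KK κ → CC κ) (r := (· < ·)) wellFounded_lt P
    (fun b f g c hfg h => by
      rw [hP] at h ⊢
      refine ⟨h.1, fun b' hb' => ?_, h.2.2⟩
      rw [← hfg b' hb']
      exact h.2.1 b' hb')
    (fun b f ih => by
      rw [hP] at ih ⊢
      have hIio : #(Iio b) ≤ #(KK κ) := by
        rw [mk_KK]
        have h4 := Cardinal.mk_Iio_lt b (by simp)
        rw [hJ] at h4
        exact Order.lt_succ_iff.1 h4
      obtain ⟨e⟩ := (Cardinal.le_def _ _).1 hIio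
      -- the unions
      have hR : ∀ b' < b, ∀ ξ, f b' ξ ∈ RR ξ := fun b' hb' => (ih b' hb').1
      obtain ⟨u, hu⟩ : ∃ u : KK κ → CC κ, u = fun ξ =>
          if (∀ b1 b2 : Iio b, e b1 < ξ → e b2 < ξ → Cmp (f b1.1 ξ) (f b2.1 ξ)) then
            pU (fun b' : {b' : Iio b // e b' < ξ} => f b'.1.1 ξ) else fun _ => none := ⟨_, rfl⟩
      have hcmp : ∀ ξ, (∀ b1 b2 : Iio b, e b1 < ξ → e b2 < ξ → Cmp (f b1.1 ξ) (f b2.1 ξ)) →
          PCompat (fun b' : {b' : Iio b // e b' < ξ} => f b'.1.1 ξ) := fun ξ h =>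
        PCompat_of_Cmp fun i j => h i.1 j.1 i.2 j.2
      have huR : ∀ ξ, u ξ ∈ RR ξ := by
        intro ξ
        rw [hu]
        simp only
        split_ifs with h
        · refine pU_mem_RR ?_ (hcmp ξ h) fun b' => hR _ b'.1.2 ξ
          refine le_trans ?_ (mk_Iio_le_w 9 ξ)
          refine mk_le_of_injective (f := fun b' : {b' : Iio b // e b' < ξ} =>
            (⟨e b'.1, b'.2⟩ : Iio ξ)) ?_
          intro b1 b2 h12
          simp only [Subtype.mk.injEq] at h12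
          exact Subtype.ext (e.injective h12)
        · exact empty_mem_RR ξ
      have hex : ∀ ξ, ∃ c ∈ RR ξ, PSub (u ξ) c ∧ ((∀ u ∈ RR ξ, ∃ c' ∈ RR ξ, PSub u c' ∧
          ∃ h, (⟨c', h⟩ : {c : CC κ | ∃ ξ, c ∈ RR ξ}) ∈ Df b ξ) → ∃ h, (⟨c, h⟩ :
          {c : CC κ | ∃ ξ, c ∈ RR ξ}) ∈ Df b ξ) := by
        intro ξ
        by_cases hd : (∀ u ∈ RR ξ, ∃ c' ∈ RR ξ, PSub u c' ∧
          ∃ h, (⟨c', h⟩ : {c : CC κ | ∃ ξ, c ∈ RR ξ}) ∈ Df b ξ)
        · obtain ⟨c, h4, h5, h6⟩ := hd (u ξ) (huR ξ)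
          exact ⟨c, h4, h5, fun _ => h6⟩
        · exact ⟨u ξ, huR ξ, PSub.refl _, fun h => absurd h hd⟩
      choose c hc1 hc2 hc3 using hex
      refine ⟨c, hc1, fun b' hb' => ?_, hc3⟩
      have h4 : {x | ∀ b1 : Iio b, e b1 < M.kap x → ∀ b2 : Iio b, e b2 < M.kap x →
          Cmp (f b1.1 (M.kap x)) (f b2.1 (M.kap x))} ∈ M.U := by
        refine M.diagE _ e.injective _ fun b1 => M.diagE _ e.injective _ fun b2 => ?_
        rcases lt_trichotomy b1.1 b2.1 with h | h | h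
        · exact Filter.mem_of_superset ((ih b2.1 b2.2).2.1 b1.1 h) fun x hx => Or.inl hx
        · refine Filter.mem_of_superset Filter.univ_mem fun x _ => Or.inl ?_
          rw [h]; exact PSub.refl _
        · exact Filter.mem_of_superset ((ih b1.1 b1.2).2.1 b2.1 h) fun x hx => Or.inr hx
      refine Filter.mem_of_superset (Filter.inter_mem h4 (M.fineK (e ⟨b', hb'⟩)))
        fun x ⟨hx1, hx2⟩ => ?_
      refine PSub.trans ?_ (hc2 (M.kap x))
      have h5 : ∀ b1 b2 : Iio b, e b1 < M.kap x → e b2 < M.kap x →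
          Cmp (f b1.1 (M.kap x)) (f b2.1 (M.kap x)) := fun b1 b2 h1 h2 => hx1 b1 h1 b2 h2
      rw [hu]
      simp only
      rw [if_pos h5]
      exact le_pU (hcmp _ h5) (⟨⟨b', hb'⟩, hx2⟩ : {b' : Iio b // e b' < M.kap x}))
  rw [hP] at hC
  refine ⟨C, fun b => (hC b).1, fun b b' => ?_, fun D hD => ?_⟩
  · rcases lt_trichotomy b b' with h | h | h
    · exact Filter.mem_of_superset ((hC b').2.1 b h) fun x hx => Or.inl hx
    · refine Filter.mem_of_superset Filter.univ_mem fun x _ => Or.inl ?_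
      rw [h]; exact PSub.refl _
    · exact Filter.mem_of_superset ((hC b).2.1 b' h) fun x hx => Or.inr hx
  · refine ⟨j (fun ξ => Subtype.val ⁻¹' (D ξ)), fun ξ => ?_⟩
    have h4 := (hC (j (fun ξ => Subtype.val ⁻¹' (D ξ)))).2.2 ξ (fun u hu => by
      obtain ⟨c', h5, h6, h7⟩ := hD ξ u hu
      refine ⟨c', h5, h6, ⟨ξ, h5⟩, ?_⟩
      rw [hDf]
      exact h7)
    obtain ⟨h5, h6⟩ := h4
    rw [hDf] at h6
    exact h6

end

end Run7.h699
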