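import Mathlib
import Pool.Agent.Run7.h699.SC

set_option autoImplicit false

/-!
# The combinatorial data from a normal fine measure, continued
-/

namespace Run7.h699

open Cardinal Set Pool.Agent.Helper669.K Pool.Agent.Helper669.Forcing

section

variable {κ : Cardinal.{0}}

/-- the functions which are the identity except at fewer than `κ` places -/
abbrev BF (κ : Cardinal.{0}) : Type := {v : KK κ → KK κ // #{i | v i ≠ i} < κ}

/-- the codes of the colourings to be captured -/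
abbrev Cap (κ : Cardinal.{0}) : Type :=
  (KK κ → II κ) × (KK κ → KK κ → KK κ → BF κ → KK κ → KK κ)

theorem mk_BF_le (h0 : Inacc κ) : #(BF κ) ≤ κ := by
  have h1 : #(KK κ × KK κ) ≤ κ := by
    rw [mk_prod, lift_id, mk_KK, mul_eq_self h0.inf]
  refine le_trans (mk_le_of_injective (f := fun v : BF κ =>
    (⟨{y | v.1 y.1 = y.2 ∧ y.2 ≠ y.1}, ?_⟩ : {S : Set (KK κ × KK κ) // #S < κ})) ?_)
    (mk_small_subsets h0 h1)
  · refine lt_of_le_of_lt ?_ v.2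
    refine mk_le_of_injective (f := fun y : {y : KK κ × KK κ | v.1 y.1 = y.2 ∧ y.2 ≠ y.1} =>
      (⟨y.1.1, by
        have := y.2.2
        rw [← y.2.1] at this
        exact this⟩ : {i | v.1 i ≠ i})) ?_
    rintro ⟨⟨a, g⟩, h, h'⟩ ⟨⟨b, g'⟩, h1, h1'⟩ hab
    simp only [Subtype.mk.injEq] at hab
    subst hab
    simp only at h h1
    rw [h] at h1
    subst h1
    rfl
  · intro v v' hvv
    simp only [Subtype.mk.injEq] at hvv
    apply Subtype.ext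
    funext i
    by_cases h : v.1 i = i
    · by_cases h' : v'.1 i = i
      · rw [h, h']
      · have := (Set.ext_iff.1 hvv (i, v'.1 i)).2 ⟨rfl, h'⟩
        exact this.1
    · have := (Set.ext_iff.1 hvv (i, v.1 i)).1 ⟨rfl, h⟩
      exact this.1.symm

theorem mk_arrow_le (h0 : Inacc κ) (h2 : (2 : Cardinal.{0}) ^ κ = Order.succ κ) {α β : Type}
    (hα : #α ≤ κ) (hβ : #β ≤ Order.succ κ) : #(α → β) ≤ Order.succ κ := by
  rw [mk_arrow, lift_id, lift_id, ← succ_pow h0 h2]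
  refine (power_le_power_right hβ).trans ?_
  refine power_le_power_left ?_ hα
  exact (zero_le.trans_lt (Order.lt_succ κ)).ne'

theorem mk_Cap_le (h0 : Inacc κ) (h2 : (2 : Cardinal.{0}) ^ κ = Order.succ κ) :
    #(Cap κ) ≤ Order.succ (Order.succ κ) := by
  have hK : #(KK κ) ≤ κ := mk_KK.le
  have h1 : #(KK κ → KK κ → KK κ → BF κ → KK κ → KK κ) ≤ Order.succ κ :=
    mk_arrow_le h0 h2 hK (mk_arrow_le h0 h2 hK (mk_arrow_le h0 h2 hK
      (mk_arrow_le h0 h2 (mk_BF_le h0) (mk_fun_le h0 h2))))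
  rw [mk_prod, lift_id, lift_id]
  refine (mul_le_mul' ?_ (h1.trans (Order.le_succ _))).trans (mul_eq_self (inf_succ2 h0)).le
  rw [mk_arrow, lift_id, lift_id, mk_II, mk_KK (κ := κ)]
  exact mk_funI_le h0 h2

theorem exists_B1 (h0 : Inacc κ) : ∃ B1 : KK κ → KK κ → Set (KK κ),
    (∀ ξ γ, ∀ b ∈ B1 ξ γ, b < pt 4 ξ) ∧ (∀ ξ γ, w 3 ξ < #(B1 ξ γ)) ∧
      ∀ ξ, ∀ B : Set (KK κ), (∀ b ∈ B, b < pt 4 ξ) → w 3 ξ < #B → ∃ γ < pt 5 ξ, B1 ξ γ = B := by
  classical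
  have h1 : ∀ ξ : KK κ, Nonempty (Iio (pt 5 ξ) ≃ Set (Iio (pt 4 ξ))) := by
    intro ξ
    rw [← Cardinal.eq, mk_set, mk_Iio_pt h0, mk_Iio_pt h0, w_succ]
  obtain ⟨ε⟩ : Nonempty (∀ ξ : KK κ, Iio (pt 5 ξ) ≃ Set (Iio (pt 4 ξ))) := ⟨fun ξ => (h1 ξ).some⟩
  obtain ⟨B1, hB1⟩ : ∃ B1 : KK κ → KK κ → Set (KK κ), B1 = fun ξ γ =>
      if h : ∃ hγ : γ < pt 5 ξ, w 3 ξ < #(ε ξ ⟨γ, hγ⟩) then Subtype.val '' (ε ξ ⟨γ, h.choose⟩)
      else Iio (pt 4 ξ) := ⟨_, rfl⟩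
  refine ⟨B1, fun ξ γ b hb => ?_, fun ξ γ => ?_, fun ξ B hB hB' => ?_⟩
  · rw [hB1] at hb
    simp only at hb
    split_ifs at hb with h
    · obtain ⟨c, _, rfl⟩ := hb
      exact c.2
    · exact hb
  · rw [hB1]
    simp only
    split_ifs with h
    · rw [mk_image_eq Subtype.val_injective]
      exact h.choose_spec
    · rw [mk_Iio_pt h0]
      exact w_lt (by norm_num) ξ
  · obtain ⟨γ, hγ⟩ : ∃ γ, γ = (ε ξ).symm (Subtype.val ⁻¹' B) := ⟨_, rfl⟩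
    have h3 : ε ξ γ = Subtype.val ⁻¹' B := by rw [hγ, Equiv.apply_symm_apply]
    have h4 : (Subtype.val '' (Subtype.val ⁻¹' B : Set (Iio (pt 4 ξ)))) = B := by
      rw [Subtype.image_preimage_coe]
      exact inter_eq_right.2 hB
    have h5 : w 3 ξ < #(ε ξ γ) := by
      rw [h3, ← mk_image_eq (Subtype.val_injective), h4]
      exact hB'
    refine ⟨γ.1, γ.2, ?_⟩
    rw [hB1]
    simp only
    rw [dif_pos ⟨γ.2, h5⟩]
    have h6 : (⟨γ.1, γ.2⟩ : Iio (pt 5 ξ)) = γ := rfl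
    rw [h6, h3, h4]

theorem exists_sv (h0 : Inacc κ) {B1 : KK κ → KK κ → Set (KK κ)}
    (hB1 : ∀ ξ, ∀ B : Set (KK κ), (∀ b ∈ B, b < pt 4 ξ) → w 3 ξ < #B → ∃ γ < pt 5 ξ, B1 ξ γ = B)
    (jC : Cap κ ↪ II κ) (x : Set (II κ)) (ξ : KK κ) (hx : #x ≤ w 2 ξ) :
    ∃ s : II κ → KK κ, (∀ a, s a < pt 5 ξ) ∧ ∀ a (c : Cap κ), jC c ∈ x → (∀ i, c.1 i < a) →
      ∀ γ < ξ, ∀ δ < ξ, ∀ v : BF κ, (∀ i, v.1 i = if i < ξ then s (c.1 i) else i) →
        (∀ b, c.2 γ δ ξ v b < pt 2 ξ) → ∀ b ∈ B1 ξ (s a), ∀ b' ∈ B1 ξ (s a),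
          c.2 γ δ ξ v b = c.2 γ δ ξ v b' := by
  classical
  have hne : Nonempty (KK κ) := ⟨ξ⟩
  obtain ⟨P, hP⟩ : ∃ P : II κ → (II κ → KK κ) → KK κ → Prop, P = fun a s g => g < pt 5 ξ ∧
      ∀ c : Cap κ, jC c ∈ x → (∀ i, c.1 i < a) →
      ∀ γ < ξ, ∀ δ < ξ, ∀ v : BF κ, (∀ i, v.1 i = if i < ξ then s (c.1 i) else i) →
        (∀ b, c.2 γ δ ξ v b < pt 2 ξ) → ∀ b ∈ B1 ξ g, ∀ b' ∈ B1 ξ g,
          c.2 γ δ ξ v b = c.2 γ δ ξ v b' := ⟨_, rfl⟩
  obtain ⟨s, hs⟩ := Pool.Agent.Helper669.KDelta.rec_choice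
    (ι := II κ) (β := KK κ) (r := (· < ·)) wellFounded_lt P
    (fun a f g c hfg h => by
      rw [hP] at h ⊢
      refine ⟨h.1, fun c hc hca γ hγ δ hδ v hv => h.2 c hc hca γ hγ δ hδ v fun i => ?_⟩
      rw [hv i, hfg _ (hca i)])
    (fun a f ih => by
      rw [hP]
      -- the colours
      obtain ⟨G, hG⟩ : ∃ G : Cap κ → KK κ → KK κ → KK κ → Iio (pt 2 ξ), G = fun c γ δ b =>
          if h : ∃ v : BF κ, (∀ i, v.1 i = if i < ξ then f (c.1 i) else i) ∧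
            ∀ b, c.2 γ δ ξ v b < pt 2 ξ then ⟨c.2 γ δ ξ h.choose b, h.choose_spec.2 b⟩
          else ⟨ξ, lt_pt h0 (by norm_num) ξ⟩ := ⟨_, rfl⟩
      have hT : #({c : Cap κ // jC c ∈ x} × Iio ξ × Iio ξ) ≤ w 2 ξ := by
        refine mk_prod_le_w ?_ (mk_prod_le_w (mk_Iio_le_w 2 ξ) (mk_Iio_le_w 2 ξ))
        refine le_trans (mk_le_of_injective (f := fun c : {c : Cap κ // jC c ∈ x} =>
          (⟨jC c.1, c.2⟩ : x)) ?_) hx
        intro c c' hcc
        simp only [Subtype.mk.injEq] at hcc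
        exact Subtype.ext (jC.injective hcc)
      have hTc : #(({c : Cap κ // jC c ∈ x} × Iio ξ × Iio ξ) → Iio (pt 2 ξ)) ≤ w 3 ξ := by
        rw [mk_arrow, lift_id, lift_id, mk_Iio_pt h0]
        exact w_power_le (w_le (by norm_num) ξ) hT
      obtain ⟨g, hg⟩ := pigeon (aleph0_le_w 3 ξ) (fun b : Iio (pt 4 ξ) =>
        (fun y : {c : Cap κ // jC c ∈ x} × Iio ξ × Iio ξ => G y.1.1 y.2.1.1 y.2.2.1 b.1)) hTc
        (by rw [mk_Iio_pt h0]; exact w_lt (by norm_num) ξ)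
      obtain ⟨B, hB⟩ : ∃ B : Set (KK κ), B = Subtype.val '' ((fun b : Iio (pt 4 ξ) =>
        (fun y : {c : Cap κ // jC c ∈ x} × Iio ξ × Iio ξ => G y.1.1 y.2.1.1 y.2.2.1 b.1)) ⁻¹' {g}) :=
        ⟨_, rfl⟩
      obtain ⟨γ0, hγ0, hγB⟩ := hB1 ξ B (by rw [hB]; rintro _ ⟨b, _, rfl⟩; exact b.2)
        (by rw [hB, mk_image_eq Subtype.val_injective]; exact hg)
      refine ⟨γ0, hγ0, fun c hc hca γ hγ δ hδ v hv hvb b hb b' hb' => ?_⟩
      rw [hγB, hB] at hb hb'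
      obtain ⟨b, hb, rfl⟩ := hb
      obtain ⟨b', hb', rfl⟩ := hb'
      have h1 := congrFun (hb.trans hb'.symm) (⟨c, hc⟩, ⟨γ, hγ⟩, ⟨δ, hδ⟩)
      simp only at h1
      have h2 : ∃ v : BF κ, (∀ i, v.1 i = if i < ξ then f (c.1 i) else i) ∧
            ∀ b, c.2 γ δ ξ v b < pt 2 ξ := ⟨v, hv, hvb⟩
      have h3 : h2.choose = v := by
        apply Subtype.ext
        funext i
        rw [h2.choose_spec.1 i, hv i]
      rw [hG] at h1
      simp only at h1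
      rw [dif_pos h2, dif_pos h2] at h1
      have h4 := congrArg Subtype.val h1
      simp only at h4
      rw [h3] at h4
      exact h4)
  rw [hP] at hs
  exact ⟨s, fun a => (hs a).1, fun a => (hs a).2⟩

/-- **the combinatorial data exist** -/
theorem exists_setup (h0 : Inacc κ) (h2 : (2 : Cardinal.{0}) ^ κ = Order.succ κ) (M : Msr κ) :
    Nonempty (Setup κ) := by
  classical
  obtain ⟨C, hC1, hC2, hC3⟩ := M.guides h0 h2
  obtain ⟨jJ⟩ : Nonempty ((Order.succ κ).ord.ToType ↪ II κ) := by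
    rw [← Cardinal.le_def, mk_ord_toType, mk_II]
    exact Order.le_succ _
  obtain ⟨jC⟩ : Nonempty (Cap κ ↪ II κ) := by
    rw [← Cardinal.le_def, mk_II]
    exact mk_Cap_le h0 h2
  obtain ⟨B1, hB1a, hB1b, hB1c⟩ := exists_B1 h0
  obtain ⟨G, hG⟩ : ∃ G : Set (Set (II κ)), G = {x : Set (II κ) | RegPt (M.kap x) ∧ #x < κ ∧
      #x ≤ w 2 (M.kap x) ∧ ∀ b, jJ b ∈ x → ∀ b', jJ b' ∈ x →
        Cmp (C b (M.kap x)) (C b' (M.kap x))} := ⟨_, rfl⟩
  have hGU : G ∈ M.U := by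
    rw [hG]
    refine Filter.inter_mem (M.regpt h0) (Filter.inter_mem M.small
      (Filter.inter_mem (M.card h0 h2) ?_))
    exact M.diagJ _ jJ.injective _ fun b => M.diagJ _ jJ.injective _ fun b' => hC2 b b'
  have hGx : ∀ x ∈ G, RegPt (M.kap x) ∧ #x < κ ∧
      #x ≤ w 2 (M.kap x) ∧ ∀ b, jJ b ∈ x → ∀ b', jJ b' ∈ x →
        Cmp (C b (M.kap x)) (C b' (M.kap x)) := by
    intro x hx
    rw [hG] at hx
    exact hx
  have hlarge : range (Subtype.val : G → Set (II κ)) ∈ M.U := by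
    rw [Subtype.range_coe]; exact hGU
  obtain ⟨W, hW⟩ : ∃ W : Ultrafilter G, ∀ A : Set G, A ∈ W ↔ Subtype.val '' A ∈ M.U :=
    ⟨M.U.comap Subtype.val_injective hlarge, fun A => Ultrafilter.mem_comap _ _ _⟩
  have hpre : ∀ F : Set (Set (II κ)), F ∈ M.U → (Subtype.val ⁻¹' F : Set G) ∈ W := by
    intro F hF
    rw [hW, Subtype.image_preimage_coe]
    exact Filter.inter_mem hGU hF
  have hsv : ∀ x : G, ∃ s : II κ → KK κ, (∀ a, s a < pt 5 (M.kap x.1)) ∧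
      ∀ a (c : Cap κ), jC c ∈ x.1 → (∀ i, c.1 i < a) →
      ∀ γ < M.kap x.1, ∀ δ < M.kap x.1, ∀ v : BF κ,
        (∀ i, v.1 i = if i < M.kap x.1 then s (c.1 i) else i) →
        (∀ b, c.2 γ δ (M.kap x.1) v b < pt 2 (M.kap x.1)) → ∀ b ∈ B1 (M.kap x.1) (s a),
          ∀ b' ∈ B1 (M.kap x.1) (s a), c.2 γ δ (M.kap x.1) v b = c.2 γ δ (M.kap x.1) v b' := by
    intro x
    have hx := hGx x.1 x.2
    exact exists_sv h0 hB1c jC x.1 (M.kap x.1) hx.2.2.1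
  choose s hs1 hs2 using hsv
  have hcomp : ∀ x : G, PCompat (fun b : {b // jJ b ∈ x.1} => C b.1 (M.kap x.1)) := by
    intro x
    have hx := hGx x.1 x.2
    exact PCompat_of_Cmp fun i j => hx.2.2.2 i.1 i.2 j.1 j.2
  refine ⟨⟨G, W, fun x => M.kap x.1, fun x => x.1, fun a x => s x a,
    fun x => pU (fun b : {b // jJ b ∈ x.1} => C b.1 (M.kap x.1)),
    ?_, ?_, fun i => hpre _ (M.fineK i), fun a => hpre _ (M.fine a), ?_, ?_, ?_, fun a x => hs1 x a,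
    ?_, ?_, B1, hB1a, hB1b, ?_⟩⟩
  · -- completeness
    intro ι hι A hA
    rw [hW]
    have h1 := M.complete ι hι (fun i => Subtype.val '' A i) fun i => (hW _).1 (hA i)
    refine Filter.mem_of_superset (Filter.inter_mem h1 hGU) ?_
    rintro x ⟨hx1, hx2⟩
    refine ⟨⟨x, hx2⟩, mem_iInter.2 fun i => ?_, rfl⟩
    obtain ⟨y, hy, hyx⟩ := mem_iInter.1 hx1 i
    have : y = ⟨x, hx2⟩ := Subtype.ext hyx
    rw [← this]; exact hy
  · -- normality
    intro A hA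
    rw [hW]
    have h1 := M.normal (fun i => Subtype.val '' A i) fun i => (hW _).1 (hA i)
    refine Filter.mem_of_superset (Filter.inter_mem h1 hGU) ?_
    rintro x ⟨hx1, hx2⟩
    refine ⟨⟨x, hx2⟩, fun i hi => ?_, rfl⟩
    obtain ⟨y, hy, hyx⟩ := hx1 i hi
    have : y = ⟨x, hx2⟩ := Subtype.ext hyx
    rw [← this]; exact hy
  · -- covering
    intro e
    refine hpre {x | ∀ a ∈ x, a ∈ range e → ∃ i < M.kap x, e i = a} ?_
    refine M.diag _ fun a => ?_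
    by_cases ha : a ∈ range e
    · obtain ⟨i, hi⟩ := ha
      exact Filter.mem_of_superset (M.fineK i) fun x hx _ => ⟨i, hx, hi⟩
    · exact Filter.mem_of_superset Filter.univ_mem fun x _ h => absurd h ha
  · intro x
    have hx := hGx x.1 x.2
    exact hx.2.1
  · intro x
    have hx := hGx x.1 x.2
    exact hx.1
  · -- the collapses
    intro x
    have hx := hGx x.1 x.2
    refine pU_mem_RR ?_ (hcomp x) fun b => hC1 _ _
    refine le_trans (mk_le_of_injective (f := fun b : {b // jJ b ∈ x.1} =>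
      (⟨jJ b.1, b.2⟩ : x.1)) ?_) (hx.2.2.1.trans (w_le (by norm_num) _))
    intro c c' hcc
    simp only [Subtype.mk.injEq] at hcc
    exact Subtype.ext (jJ.injective hcc)
  · -- the guiding sequences
    intro D _ hD
    obtain ⟨b, hb⟩ := hC3 D hD
    refine ⟨C b, fun ξ => ⟨hC1 b ξ, hb ξ⟩, ?_⟩
    refine Filter.mem_of_superset (hpre _ (M.fine (jJ b))) fun x hx => ?_
    exact le_pU (hcomp x) (⟨b, hx⟩ : {b // jJ b ∈ x.1})
  · -- capturing
    intro e a ha Ψ hΨ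
    refine Filter.mem_of_superset (hpre _ (M.fine (jC (e, fun γ δ ξ v => Ψ γ δ ξ v.1))))
      fun x hx γ hγ δ hδ b hb b' hb' => ?_
    have hv : #{i | (fun i => if i < M.kap x.1 then s x (e i) else i) i ≠ i} < κ := by
      refine (mk_le_mk_of_subset ?_).trans_lt (mk_Iio_KK (M.kap x.1))
      intro i hi
      by_contra h
      rw [mem_Iio, not_lt] at h
      exact hi (if_neg (not_lt.2 h))
    exact hs2 x a (e, fun γ δ ξ v => Ψ γ δ ξ v.1) hx ha γ hγ δ hδ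
      ⟨fun i => if i < M.kap x.1 then s x (e i) else i, hv⟩ (fun i => rfl)
      (fun b => hΨ _ _ _ _ _) b hb b' hb'

end

end Run7.h699
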