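import Mathlib
import Pool.Agent.Run7.h699.SC2
import Pool.Agent.Run7.h699.Defs
import Pool.Agent.Helper669.KA1

set_option autoImplicit false

/-!
# Supercompactness
-/

namespace Run7.h699

open Cardinal Set Pool.Agent.Helper669.K Pool.Agent.Helper669.Forcing

theorem inacc_and_msr {κ : Cardinal.{0}} (h : Supercompact κ (Order.succ (Order.succ κ))) :
    Inacc κ ∧ Nonempty (Msr κ) := by
  classical
  obtain ⟨hunc, -, U, hsmall, hfine, hcompl, hnorm⟩ := h
  have hne : Nonempty (KK κ) := by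
    rw [← mk_ne_zero_iff, mk_KK]; exact (aleph0_pos.trans hunc).ne'
  have hneI : Nonempty (II κ) := Inacc.nonemptyI
  -- completeness for arbitrary index types
  have hcomp : ∀ ι : Type, #ι < κ → ∀ A : ι → Set (Set (II κ)), (∀ i, A i ∈ U) →
      (⋂ i, A i) ∈ U := by
    intro ι hι A hA
    obtain ⟨ε⟩ : Nonempty ((#ι).out ≃ ι) := by rw [← Cardinal.eq, mk_out]
    have h1 := hcompl (#ι) hι (fun i => A (ε i)) fun i => hA _
    have h2 : (⋂ i, A (ε i)) = ⋂ i, A i := ε.surjective.iInter_comp A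
    rw [h2] at h1
    exact h1
  -- diagonal intersections
  have hdiag : ∀ F : II κ → Set (Set (II κ)), (∀ a, F a ∈ U) → {x | ∀ a ∈ x, x ∈ F a} ∈ U := by
    intro F hF
    by_contra hcon
    rw [← Ultrafilter.compl_mem_iff_notMem] at hcon
    have h1 : ∀ x : Set (II κ), ∃ a, (x ∈ {x : Set (II κ) | ∀ a ∈ x, x ∈ F a}ᶜ) → a ∈ x ∧ x ∉ F a := by
      intro x
      by_cases hx : x ∈ {x : Set (II κ) | ∀ a ∈ x, x ∈ F a}ᶜ
      · have h2 : ¬ ∀ a ∈ x, x ∈ F a := hx
        push Not at h2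
        obtain ⟨a, h3, h4⟩ := h2
        exact ⟨a, fun _ => ⟨h3, h4⟩⟩
      · exact ⟨hneI.some, fun h => absurd h hx⟩
    choose f hf using h1
    obtain ⟨a, ha⟩ := hnorm f (Filter.mem_of_superset hcon fun x hx => (hf x hx).1)
    obtain ⟨x, ⟨hx1, hx2⟩, hx3⟩ := U.nonempty_of_mem
      (Filter.inter_mem (Filter.inter_mem hcon ha) (hF a))
    have h2 : f x = a := hx2
    exact (hf x hx1).2 (h2 ▸ hx3)
  -- the trace
  obtain ⟨j⟩ : Nonempty (KK κ ↪ II κ) := by
    rw [← Cardinal.le_def, mk_II, mk_KK (κ := κ)]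
    exact (Order.le_succ κ).trans (Order.le_succ _)
  have hdiagJ : ∀ F : KK κ → Set (Set (II κ)), (∀ a, F a ∈ U) →
      {x | ∀ a, j a ∈ x → x ∈ F a} ∈ U := by
    intro F hF
    have h1 : ∀ b : II κ, {x | ∀ a, j a = b → x ∈ F a} ∈ U := by
      intro b
      by_cases hb : ∃ a, j a = b
      · obtain ⟨a, rfl⟩ := hb
        refine Filter.mem_of_superset (hF a) fun x hx a' ha' => ?_
        rw [j.injective ha']; exact hx
      · push Not at hb
        refine Filter.mem_of_superset Filter.univ_mem fun x _ a' ha' => absurd ha' (hb a')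
    refine Filter.mem_of_superset (hdiag _ h1) fun x hx a ha => hx (j a) ha a rfl
  have hkap : ∀ x : Set (II κ), ∃ k : KK κ, #x < κ → j k ∉ x ∧ ∀ i < k, j i ∈ x := by
    intro x
    by_cases hx : #x < κ
    · have h1 : ∃ i, j i ∉ x := by
        by_contra hcon
        push Not at hcon
        have h2 : #(KK κ) ≤ #x := mk_le_of_injective (f := fun i => (⟨j i, hcon i⟩ : x))
          fun i i' h => j.injective (congrArg Subtype.val h)
        rw [mk_KK] at h2
        exact absurd hx (not_lt.2 h2)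
      obtain ⟨k, hk, hmin⟩ := (wellFounded_lt (α := KK κ)).has_min {i | j i ∉ x} h1
      refine ⟨k, fun _ => ⟨hk, fun i hi => ?_⟩⟩
      by_contra h2
      exact hmin i h2 hi
    · exact ⟨hne.some, fun h => absurd h hx⟩
  choose kap hkap using hkap
  have hseg : {x | ∀ i, j i ∈ x → ∀ i' < i, j i' ∈ x} ∈ U := by
    refine hdiagJ (fun i => {x | ∀ i' < i, j i' ∈ x}) fun i => ?_
    refine Filter.mem_of_superset (hcomp (Iio i) (mk_Iio_KK i) (fun i' => {x | j i'.1 ∈ x})
      fun i' => hfine _) fun x hx i' hi' => mem_iInter.1 hx ⟨i', hi'⟩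
  have hiff : {x | ∀ i, j i ∈ x ↔ i < kap x} ∈ U := by
    refine Filter.mem_of_superset (Filter.inter_mem hsmall hseg) ?_
    rintro x ⟨hx1, hx2⟩ i
    have h1 := hkap x hx1
    refine ⟨fun h2 => ?_, fun h2 => h1.2 i h2⟩
    by_contra h3
    rw [not_lt] at h3
    rcases h3.eq_or_lt with h4 | h4
    · rw [← h4] at h2; exact h1.1 h2
    · exact h1.1 (hx2 i h2 _ h4)
  have hfineK : ∀ i, {x | i < kap x} ∈ U := fun i =>
    Filter.mem_of_superset (Filter.inter_mem hiff (hfine (j i))) fun x hx => (hx.1 i).1 hx.2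
  have hnormK : ∀ F : KK κ → Set (Set (II κ)), (∀ i, F i ∈ U) →
      {x | ∀ i < kap x, x ∈ F i} ∈ U := fun F hF =>
    Filter.mem_of_superset (Filter.inter_mem hiff (hdiagJ F hF)) fun x hx i hi =>
      hx.2 i ((hx.1 i).2 hi)
  -- inaccessibility
  have hcore := J1_core hunc {A | {x | kap x ∈ A} ∈ U}
    (fun A B hA hAB => Filter.mem_of_superset hA fun x hx => hAB hx)
    (fun A => by
      show {x | kap x ∈ A} ∈ U ↔ ¬ {x | kap x ∈ Aᶜ} ∈ U
      have h1 : {x | kap x ∈ Aᶜ} = {x | kap x ∈ A}ᶜ := rfl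
      rw [h1, Ultrafilter.compl_notMem_iff])
    (fun ν hν X hX => by
      have h1 := hcompl ν hν (fun i => {x | kap x ∈ X i}) hX
      refine Filter.mem_of_superset h1 fun x hx => ?_
      exact mem_iInter.2 fun i => mem_iInter.1 hx i)
    (fun a ha => by
      obtain ⟨x, hx1, hx2⟩ := U.nonempty_of_mem (Filter.inter_mem ha (hfineK a))
      have h1 : kap x = a := hx1
      exact absurd hx2 (by rw [mem_ofPred_eq, h1]; exact lt_irrefl _))
  exact ⟨⟨hunc, hcore.1, hcore.2⟩, ⟨⟨U, kap, hfine, hcomp, hdiag, hnormK, hfineK, hsmall⟩⟩⟩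

end Run7.h699
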