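import Mathlib
import Pool.Agent.Run7.h699.SC3
import Pool.Agent.Run7.h699.Meas
import Pool.Agent.Run7.h699.Pow2

set_option autoImplicit false

/-!
# The main theorem
-/

namespace Run7.h699

open Cardinal Set Pool.Agent.Helper669.K Pool.Agent.Helper669.Forcing

theorem main (κ : Cardinal.{0}) (h : Supercompact κ (Order.succ (Order.succ κ)))
    (h2 : (2 : Cardinal.{0}) ^ κ = Order.succ κ) :
    ∃ (P : Type) (_ : Preorder P), Nonempty P ∧ ∀ p : P,
      p ∈ StaysStrongLimit P κ ∧ p ∈ CofinalityOmega P κ ∧ p ∈ NotLimitOfMeasurables P κ ∧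
      (∀ μ : Cardinal.{0}, μ.IsRegular → κ < μ → p ∈ StaysRegular P μ) ∧
      p ∈ LeTwoPow P (Order.succ (Order.succ κ)) κ ∧
      ∀ μ : Cardinal.{0}, κ < μ →
        p ∈ fimp (LeTwoPow P μ κ) (Polarized P μ.ord.ToType κ.ord.ToType) := by
  obtain ⟨h0, ⟨M⟩⟩ := inacc_and_msr h
  obtain ⟨𝔖⟩ := exists_setup h0 h2 M
  refine ⟨Cnd 𝔖, inferInstance, ⟨⟨[], fun _ => none, univ, trivial, ?_, Filter.univ_mem⟩⟩,
    fun p => ⟨staysStrongLimit h0 p, cofinalityOmega h0 p, notLimitOfMeasurables h0 p,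
      fun μ hμ hκμ => staysRegular_above h0 h2 hμ hκμ p, leTwoPow_succ2 h0 p,
      fun μ hμ => full_spectrum h0 h2 p hμ⟩⟩
  have h1 : dm (fun _ => none : TT κ) = ∅ := by
    ext a; simp [dm]
  rw [h1, mk_eq_zero]; exact zero_le

end Run7.h699
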